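import Mathlib

open Set Topology Filter
open scoped NNReal InnerProductSpace

noncomputable section

namespace Pool.Agent.Helper70.BS

variable {H : Type*} [NormedAddCommGroup H] [InnerProductSpace ℂ H]

/-- The number `sup_{0 ≤ t ≤ n+1} |⟨(f t - g t) x_i, x_j⟩| / (‖x_i‖ ‖x_j‖)`. -/
def A (x : ℕ → H) (f g : ℝ≥0 → H →L[ℂ] H) (p : ℕ × ℕ × ℕ) : ℝ :=
  (⨆ t : Icc (0 : ℝ≥0) (p.1 + 1), ‖⟪(f t - g t) (x p.2.1), x p.2.2⟫_ℂ‖)
    / (‖x p.2.1‖ * ‖x p.2.2‖)

/-- weights -/
def w (p : ℕ × ℕ × ℕ) : ℝ := (1 / 2) ^ ((p.1 + 1) + (p.2.1 + 1) + (p.2.2 + 1))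

/-- the metric -/
def Dist (x : ℕ → H) (f g : ℝ≥0 → H →L[ℂ] H) : ℝ := ∑' p : ℕ × ℕ × ℕ, w p * A x f g p

lemma w_pos (p : ℕ × ℕ × ℕ) : 0 < w p := by unfold w; positivity

lemma w_summable : Summable w := by
  have h1 : Summable (fun n : ℕ => (1 / 2 : ℝ) ^ (n + 1)) := by
    simp_rw [pow_succ]
    exact (summable_geometric_of_lt_one (by norm_num) (by norm_num)).mul_right _
  have h2 := h1.mul_of_nonneg h1 (fun n => by positivity) (fun n => by positivity)
  have h3 := h1.mul_of_nonneg h2 (fun n => by positivity) (fun n => by positivity)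
  refine h3.congr (fun p => ?_)
  unfold w
  simp only [pow_add]
  ring

/-- weakly continuous families of contractions -/
structure WC (H : Type*) [NormedAddCommGroup H] [InnerProductSpace ℂ H] where
  op : ℝ≥0 → H →L[ℂ] H
  contr : ∀ t, ‖op t‖ ≤ 1
  wcont : ∀ u v, Continuous fun t => ⟪op t u, v⟫_ℂ

lemma sub_norm_le (f g : WC H) (t : ℝ≥0) (u v : H) :
    ‖⟪(f.op t - g.op t) u, v⟫_ℂ‖ ≤ 2 * ‖u‖ * ‖v‖ := by
  refine (norm_inner_le_norm _ _).trans ?_
  have h1 : ‖f.op t - g.op t‖ ≤ 2 := by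
    have := norm_sub_le (f.op t) (g.op t)
    have h2 := f.contr t
    have h3 := g.contr t
    linarith
  have h2 : ‖(f.op t - g.op t) u‖ ≤ 2 * ‖u‖ := (ContinuousLinearMap.le_opNorm _ _).trans
    (mul_le_mul_of_nonneg_right h1 (norm_nonneg _))
  exact mul_le_mul_of_nonneg_right h2 (norm_nonneg _)

instance (n : ℕ) : Nonempty (Icc (0 : ℝ≥0) ((n : ℝ≥0) + 1)) := ⟨⟨0, by simp⟩⟩

lemma bdd (f g : WC H) (n : ℕ) (u v : H) :
    BddAbove (range fun t : Icc (0 : ℝ≥0) (n + 1) => ‖⟪(f.op t - g.op t) u, v⟫_ℂ‖) :=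
  ⟨2 * ‖u‖ * ‖v‖, by rintro _ ⟨t, rfl⟩; exact sub_norm_le f g t u v⟩

lemma A_nonneg (x : ℕ → H) (f g : ℝ≥0 → H →L[ℂ] H) (p : ℕ × ℕ × ℕ) : 0 ≤ A x f g p := by
  unfold A
  apply div_nonneg _ (by positivity)
  exact Real.iSup_nonneg (fun t => norm_nonneg _)

lemma A_le_two (x : ℕ → H) (f g : WC H) (p : ℕ × ℕ × ℕ) : A x f.op g.op p ≤ 2 := by
  unfold A
  apply div_le_of_le_mul₀ (by positivity) (by norm_num)
  apply ciSup_le
  intro t
  have := sub_norm_le f g t (x p.2.1) (x p.2.2)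
  linarith

lemma A_comm (x : ℕ → H) (f g : ℝ≥0 → H →L[ℂ] H) (p : ℕ × ℕ × ℕ) : A x f g p = A x g f p := by
  unfold A
  congr 1
  apply iSup_congr
  intro t
  rw [← neg_sub (g t) (f t), neg_apply, inner_neg_left, norm_neg]

lemma A_triangle (x : ℕ → H) (f g h : WC H) (p : ℕ × ℕ × ℕ) :
    A x f.op h.op p ≤ A x f.op g.op p + A x g.op h.op p := by
  unfold A
  rw [← add_div]
  apply div_le_div_of_nonneg_right _ (by positivity)
  apply ciSup_le
  intro t
  have h1 := le_ciSup (bdd f g p.1 (x p.2.1) (x p.2.2)) t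
  have h2 := le_ciSup (bdd g h p.1 (x p.2.1) (x p.2.2)) t
  have h3 : ⟪(f.op t - h.op t) (x p.2.1), x p.2.2⟫_ℂ
      = ⟪(f.op t - g.op t) (x p.2.1), x p.2.2⟫_ℂ + ⟪(g.op t - h.op t) (x p.2.1), x p.2.2⟫_ℂ := by
    rw [← inner_add_left]
    congr 1
    simp
  rw [h3]
  exact (norm_add_le _ _).trans (add_le_add h1 h2)

lemma wA_summable (x : ℕ → H) (f g : WC H) : Summable (fun p => w p * A x f.op g.op p) := by
  refine Summable.of_nonneg_of_le (fun p => mul_nonneg (w_pos p).le (A_nonneg x _ _ p))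
    (fun p => ?_) (w_summable.mul_right 2)
  exact mul_le_mul_of_nonneg_left (A_le_two x f g p) (w_pos p).le

lemma Dist_self (x : ℕ → H) (f : ℝ≥0 → H →L[ℂ] H) : Dist x f f = 0 := by
  unfold Dist A
  simp

lemma Dist_comm (x : ℕ → H) (f g : ℝ≥0 → H →L[ℂ] H) : Dist x f g = Dist x g f := by
  unfold Dist
  apply tsum_congr
  intro p
  rw [A_comm]

lemma Dist_triangle (x : ℕ → H) (f g h : WC H) :
    Dist x f.op h.op ≤ Dist x f.op g.op + Dist x g.op h.op := by
  unfold Dist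
  rw [← (wA_summable x f g).tsum_add (wA_summable x g h)]
  apply Summable.tsum_le_tsum _ (wA_summable x f h) ((wA_summable x f g).add (wA_summable x g h))
  intro p
  have := A_triangle x f g h p
  have hw := w_pos p
  nlinarith

lemma w_mul_A_le (x : ℕ → H) (f g : WC H) (p : ℕ × ℕ × ℕ) :
    w p * A x f.op g.op p ≤ Dist x f.op g.op :=
  (wA_summable x f g).le_tsum p (fun q _ => mul_nonneg (w_pos q).le (A_nonneg x _ _ q))

lemma entry_le (x : ℕ → H) (hx0 : ∀ j, x j ≠ 0) (f g : WC H) (p : ℕ × ℕ × ℕ) {t : ℝ≥0}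
    (ht : t ≤ p.1 + 1) :
    ‖⟪(f.op t - g.op t) (x p.2.1), x p.2.2⟫_ℂ‖
      ≤ ‖x p.2.1‖ * ‖x p.2.2‖ / w p * Dist x f.op g.op := by
  have h1 := le_ciSup (bdd f g p.1 (x p.2.1) (x p.2.2)) ⟨t, ⟨zero_le, ht⟩⟩
  have h2 := w_mul_A_le x f g p
  have hw := w_pos p
  have hi : 0 < ‖x p.2.1‖ * ‖x p.2.2‖ :=
    mul_pos (norm_pos_iff.mpr (hx0 _)) (norm_pos_iff.mpr (hx0 _))
  unfold A at h2
  rw [div_mul_eq_mul_div, le_div_iff₀ hw]
  rw [mul_div_assoc', div_le_iff₀ hi] at h2
  simp only at h1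
  calc _ ≤ (⨆ t : Icc (0 : ℝ≥0) (p.1 + 1), ‖⟪(f.op t - g.op t) (x p.2.1), x p.2.2⟫_ℂ‖) * w p := by
        gcongr
    _ ≤ ‖x p.2.1‖ * ‖x p.2.2‖ * Dist x f.op g.op := by linarith

/-- the basic local estimate -/
lemma local_unif (x : ℕ → H) (hx0 : ∀ j, x j ≠ 0) (hx : DenseRange x) (u v : H) (N : ℕ) {ε : ℝ}
    (hε : 0 < ε) : ∃ δ > 0, ∀ f g : WC H, Dist x f.op g.op < δ → ∀ t : ℝ≥0, t ≤ N + 1 →
      ‖⟪(f.op t - g.op t) u, v⟫_ℂ‖ < ε := by
  -- approximate `u` and `v`
  obtain ⟨i, hi⟩ := hx.exists_dist_lt u (ε := ε / (8 * (‖v‖ + 1))) (by positivity)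
  obtain ⟨j, hj⟩ := hx.exists_dist_lt v (ε := ε / (8 * (‖x i‖ + 1))) (by positivity)
  set p : ℕ × ℕ × ℕ := (N, i, j) with hp
  have hw := w_pos p
  refine ⟨w p / (‖x i‖ * ‖x j‖ + 1) * (ε / 4), by positivity, ?_⟩
  intro f g hD t ht
  have h1 := entry_le x hx0 f g p (t := t) (by simpa [hp] using ht)
  have h2 : ‖⟪(f.op t - g.op t) (x i), x j⟫_ℂ‖ ≤ ε / 4 := by
    refine h1.trans ?_
    have hc : 0 ≤ ‖x i‖ * ‖x j‖ := by positivity
    calc ‖x p.2.1‖ * ‖x p.2.2‖ / w p * Dist x f.op g.op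
        ≤ ‖x i‖ * ‖x j‖ / w p * (w p / (‖x i‖ * ‖x j‖ + 1) * (ε / 4)) := by
          apply mul_le_mul_of_nonneg_left hD.le
          positivity
      _ = (‖x i‖ * ‖x j‖) / (‖x i‖ * ‖x j‖ + 1) * (ε / 4) := by
          field_simp
      _ ≤ 1 * (ε / 4) := by
          gcongr
          rw [div_le_one (by positivity)]
          linarith
      _ = ε / 4 := one_mul _
  have h3 := sub_norm_le f g t (u - x i) v
  have h4 := sub_norm_le f g t (x i) (v - x j)
  have h5 : ⟪(f.op t - g.op t) u, v⟫_ℂ = ⟪(f.op t - g.op t) (u - x i), v⟫_ℂ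
      + ⟪(f.op t - g.op t) (x i), v - x j⟫_ℂ + ⟪(f.op t - g.op t) (x i), x j⟫_ℂ := by
    rw [map_sub, inner_sub_left, inner_sub_right]
    ring
  rw [dist_eq_norm] at hi hj
  have h6 : 2 * ‖u - x i‖ * ‖v‖ ≤ ε / 4 := by
    have : ‖u - x i‖ * (8 * (‖v‖ + 1)) < ε := by
      rwa [lt_div_iff₀ (by positivity)] at hi
    have h7 := norm_nonneg (u - x i)
    nlinarith [norm_nonneg v]
  have h7 : 2 * ‖x i‖ * ‖v - x j‖ ≤ ε / 4 := by
    have : ‖v - x j‖ * (8 * (‖x i‖ + 1)) < ε := by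
      rwa [lt_div_iff₀ (by positivity)] at hj
    have h7 := norm_nonneg (v - x j)
    nlinarith [norm_nonneg (x i)]
  rw [h5]
  have h8 := norm_add_le (⟪(f.op t - g.op t) (u - x i), v⟫_ℂ
      + ⟪(f.op t - g.op t) (x i), v - x j⟫_ℂ) (⟪(f.op t - g.op t) (x i), x j⟫_ℂ)
  have h9 := norm_add_le (⟪(f.op t - g.op t) (u - x i), v⟫_ℂ)
      (⟪(f.op t - g.op t) (x i), v - x j⟫_ℂ)
  linarith

lemma WC.ext' {f g : WC H} (h : ∀ t, f.op t = g.op t) : f = g := by
  cases f; cases g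
  congr
  exact funext h

lemma eq_of_Dist_zero (x : ℕ → H) (hx0 : ∀ j, x j ≠ 0) (hx : DenseRange x) (f g : WC H)
    (h : Dist x f.op g.op = 0) : f = g := by
  apply WC.ext'
  intro t
  ext u
  apply ext_inner_right ℂ
  intro v
  rw [← sub_eq_zero, ← inner_sub_left, ← norm_le_zero_iff]
  apply le_of_forall_pos_le_add
  intro ε hε
  obtain ⟨N, hN⟩ := exists_nat_ge t
  obtain ⟨δ, hδ, hfg⟩ := local_unif x hx0 hx u v N hε
  have := hfg f g (by rw [h]; exact hδ) t (hN.trans (by simp))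
  rw [zero_add, inner_sub_left]
  simpa using this.le

/-- the metric space of weakly continuous families of contractions -/
@[reducible] def metric (x : ℕ → H) (hx0 : ∀ j, x j ≠ 0) (hx : DenseRange x) : MetricSpace (WC H) where
  dist f g := Dist x f.op g.op
  dist_self f := Dist_self x f.op
  dist_comm f g := Dist_comm x f.op g.op
  dist_triangle f g h := Dist_triangle x f g h
  eq_of_dist_eq_zero {f g} h := eq_of_Dist_zero x hx0 hx f g h

/-- convergence of all entries gives convergence for the metric -/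
lemma tendsto_Dist (x : ℕ → H) (f : ℕ → WC H) (g : WC H)
    (h : ∀ (i j N : ℕ) (ε : ℝ), 0 < ε → ∀ᶠ k in atTop, ∀ t : ℝ≥0, t ≤ N + 1 →
      ‖⟪((f k).op t - g.op t) (x i), x j⟫_ℂ‖ ≤ ε) :
    Tendsto (fun k => Dist x (f k).op g.op) atTop (𝓝 0) := by
  have h0 : (0 : ℝ) = ∑' p : ℕ × ℕ × ℕ, (0 : ℝ) := by simp
  unfold Dist
  rw [h0]
  refine tendsto_tsum_of_dominated_convergence (bound := fun p => w p * 2)
    (w_summable.mul_right 2) ?_ ?_
  · intro p
    rw [← mul_zero (w p)]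
    apply Tendsto.const_mul
    unfold A
    rw [← zero_div (‖x p.2.1‖ * ‖x p.2.2‖)]
    apply Tendsto.div_const
    rw [Metric.tendsto_atTop']
    intro ε hε
    obtain ⟨K, hK⟩ := eventually_atTop.mp (h p.2.1 p.2.2 p.1 (ε / 2) (by positivity))
    refine ⟨K, fun k hk => ?_⟩
    rw [Real.dist_eq, sub_zero, abs_of_nonneg (Real.iSup_nonneg (fun t => norm_nonneg _))]
    refine lt_of_le_of_lt (ciSup_le (fun t => hK k hk.le t.1 t.2.2)) (by linarith)
  · refine Eventually.of_forall (fun k p => ?_)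
    rw [Real.norm_of_nonneg (mul_nonneg (w_pos p).le (A_nonneg x _ _ p))]
    exact mul_le_mul_of_nonneg_left (A_le_two x (f k) g p) (w_pos p).le

/-- limit operator of a weakly Cauchy sequence of contractions -/
lemma exists_limit_op [CompleteSpace H] (T : ℕ → H →L[ℂ] H) (hT : ∀ k, ‖T k‖ ≤ 1)
    (hc : ∀ u v, CauchySeq (fun k => ⟪T k u, v⟫_ℂ)) :
    ∃ S : H →L[ℂ] H, ‖S‖ ≤ 1 ∧ ∀ u v, Tendsto (fun k => ⟪T k u, v⟫_ℂ) atTop (𝓝 ⟪S u, v⟫_ℂ) := by
  have hlim : ∀ u v, ∃ a, Tendsto (fun k => ⟪T k u, v⟫_ℂ) atTop (𝓝 a) := fun u v =>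
    cauchySeq_tendsto_of_complete (hc u v)
  choose L hL using hlim
  have hbound : ∀ u v, ‖L u v‖ ≤ 1 * ‖u‖ * ‖v‖ := by
    intro u v
    refine le_of_tendsto (hL u v).norm (Eventually.of_forall (fun k => ?_))
    refine (norm_inner_le_norm _ _).trans ?_
    gcongr
    exact (ContinuousLinearMap.le_opNorm _ _).trans
      (mul_le_mul_of_nonneg_right (hT k) (norm_nonneg _))
  let B0 : H →ₗ⋆[ℂ] H →ₗ[ℂ] ℂ := LinearMap.mk₂'ₛₗ (starRingEnd ℂ) (RingHom.id ℂ) L
    (by
      intro u u' v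
      refine tendsto_nhds_unique (hL (u + u') v) ?_
      refine ((hL u v).add (hL u' v)).congr (fun k => ?_)
      rw [map_add, inner_add_left])
    (by
      intro c u v
      refine tendsto_nhds_unique (hL (c • u) v) ?_
      refine ((hL u v).const_mul (starRingEnd ℂ c)).congr (fun k => ?_)
      rw [map_smul, inner_smul_left])
    (by
      intro u v v'
      refine tendsto_nhds_unique (hL u (v + v')) ?_
      refine ((hL u v).add (hL u v')).congr (fun k => ?_)
      rw [inner_add_right])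
    (by
      intro c u v
      refine tendsto_nhds_unique (hL u (c • v)) ?_
      refine ((hL u v).const_mul c).congr (fun k => ?_)
      rw [inner_smul_right])
  let B : H →L⋆[ℂ] H →L[ℂ] ℂ := LinearMap.mkContinuous₂ B0 1 hbound
  have hB : ∀ u v, ⟪InnerProductSpace.continuousLinearMapOfBilin B u, v⟫_ℂ = L u v := by
    intro u v
    rw [InnerProductSpace.continuousLinearMapOfBilin_apply]
    rfl
  refine ⟨InnerProductSpace.continuousLinearMapOfBilin B, ?_, fun u v => ?_⟩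
  · apply ContinuousLinearMap.opNorm_le_bound _ zero_le_one
    intro u
    set y := InnerProductSpace.continuousLinearMapOfBilin B u with hy
    have h1 : ‖y‖ * ‖y‖ ≤ 1 * ‖u‖ * ‖y‖ := by
      have h2 := hbound u y
      rw [← hB u y, ← hy, inner_self_eq_norm_sq_to_K, norm_pow] at h2
      simpa [pow_two] using h2
    rcases eq_or_lt_of_le (norm_nonneg y) with h | h
    · rw [← h]; positivity
    · exact le_of_mul_le_mul_right h1 h
  · rw [hB]
    exact hL u v


/-- Cauchy sequences converge -/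
lemma cauchy_limit [CompleteSpace H] (x : ℕ → H) (hx0 : ∀ j, x j ≠ 0) (hx : DenseRange x)
    (f : ℕ → WC H) (hf : ∀ δ > 0, ∃ K, ∀ k ≥ K, ∀ l ≥ K, Dist x (f k).op (f l).op < δ) :
    ∃ g : WC H, Tendsto (fun k => Dist x (f k).op g.op) atTop (𝓝 0) := by
  -- uniform Cauchy on bounded intervals
  have hU : ∀ (u v : H) (N : ℕ) (ε : ℝ), 0 < ε → ∃ K, ∀ k ≥ K, ∀ l ≥ K, ∀ t : ℝ≥0, t ≤ N + 1 →
      ‖⟪((f k).op t - (f l).op t) u, v⟫_ℂ‖ < ε := by
    intro u v N ε hε
    obtain ⟨δ, hδ, h⟩ := local_unif x hx0 hx u v N hε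
    obtain ⟨K, hK⟩ := hf δ hδ
    exact ⟨K, fun k hk l hl t ht => h _ _ (hK k hk l hl) t ht⟩
  have hC : ∀ t u v, CauchySeq (fun k => ⟪(f k).op t u, v⟫_ℂ) := by
    intro t u v
    rw [Metric.cauchySeq_iff]
    intro ε hε
    obtain ⟨N, hN⟩ := exists_nat_ge t
    obtain ⟨K, hK⟩ := hU u v N ε hε
    refine ⟨K, fun k hk l hl => ?_⟩
    have := hK k hk l hl t (hN.trans (by simp))
    rw [dist_eq_norm, ← inner_sub_left]
    exact this
  have hL := fun t => exists_limit_op (fun k => (f k).op t) (fun k => (f k).contr t) (hC t)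
  choose S hS1 hS2 using hL
  have hU' : ∀ (u v : H) (N : ℕ) (ε : ℝ), 0 < ε → ∃ K, ∀ k ≥ K, ∀ t : ℝ≥0, t ≤ N + 1 →
      ‖⟪((f k).op t - S t) u, v⟫_ℂ‖ ≤ ε := by
    intro u v N ε hε
    obtain ⟨K, hK⟩ := hU u v N ε hε
    refine ⟨K, fun k hk t ht => ?_⟩
    have : Tendsto (fun l => ‖⟪((f k).op t - (f l).op t) u, v⟫_ℂ‖) atTop
        (𝓝 ‖⟪((f k).op t - S t) u, v⟫_ℂ‖) := by
      apply Tendsto.norm
      simp only [_root_.sub_apply, inner_sub_left]
      exact tendsto_const_nhds.sub (hS2 t u v)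
    exact le_of_tendsto this (eventually_atTop.mpr ⟨K, fun l hl => (hK k hk l hl t ht).le⟩)
  have hwc : ∀ u v, Continuous fun t => ⟪S t u, v⟫_ℂ := by
    intro u v
    have hloc : TendstoLocallyUniformly (fun k (t : ℝ≥0) => ⟪(f k).op t u, v⟫_ℂ)
        (fun t => ⟪S t u, v⟫_ℂ) atTop := by
      rw [Metric.tendstoLocallyUniformly_iff]
      intro ε hε t
      obtain ⟨N, hN⟩ := exists_nat_ge t
      obtain ⟨K, hK⟩ := hU' u v N (ε / 2) (half_pos hε)
      refine ⟨Iio ((N : ℝ≥0) + 1), Iio_mem_nhds (lt_of_le_of_lt hN (by simp)), ?_⟩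
      filter_upwards [eventually_ge_atTop K] with k hk s hs
      have h1 := hK k hk s (le_of_lt hs)
      rw [dist_comm, dist_eq_norm, ← inner_sub_left]
      simp only [_root_.sub_apply] at h1
      linarith
    exact hloc.continuous (Frequently.of_forall (fun k => (f k).wcont u v))
  refine ⟨⟨S, hS1, hwc⟩, tendsto_Dist x f _ ?_⟩
  intro i j N ε hε
  obtain ⟨K, hK⟩ := hU' (x i) (x j) N ε hε
  exact eventually_atTop.mpr ⟨K, fun k hk t ht => hK k hk t ht⟩

lemma metric_complete [CompleteSpace H] (x : ℕ → H) (hx0 : ∀ j, x j ≠ 0) (hx : DenseRange x) :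
    @CompleteSpace (WC H) (metric x hx0 hx).toPseudoMetricSpace.toUniformSpace := by
  letI := metric x hx0 hx
  apply Metric.complete_of_cauchySeq_tendsto
  intro f hf
  rw [Metric.cauchySeq_iff] at hf
  obtain ⟨g, hg⟩ := cauchy_limit x hx0 hx f hf
  exact ⟨g, tendsto_iff_dist_tendsto_zero.mpr hg⟩

lemma continuous_entry (x : ℕ → H) (hx0 : ∀ j, x j ≠ 0) (hx : DenseRange x) (u v : H) (t : ℝ≥0) :
    @Continuous (WC H) ℂ (metric x hx0 hx).toPseudoMetricSpace.toUniformSpace.toTopologicalSpace _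
      (fun f : WC H => ⟪f.op t u, v⟫_ℂ) := by
  letI := metric x hx0 hx
  rw [Metric.continuous_iff]
  intro f ε hε
  obtain ⟨N, hN⟩ := exists_nat_ge t
  obtain ⟨δ, hδ, h⟩ := local_unif x hx0 hx u v N hε
  refine ⟨δ, hδ, fun g hg => ?_⟩
  have h1 := h g f hg t (hN.trans (by simp))
  rw [dist_eq_norm, ← inner_sub_left]
  exact h1

/-- span of the first `n` vectors -/
def V (x : ℕ → H) (n : ℕ) : Submodule ℂ H := Submodule.span ℂ (x '' Iio n)

instance (x : ℕ → H) (n : ℕ) : FiniteDimensional ℂ (V x n) :=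
  FiniteDimensional.span_of_finite ℂ ((finite_Iio n).image x)

lemma V_mono (x : ℕ → H) : Monotone (V x) := fun _ _ h =>
  Submodule.span_mono (image_mono (Iio_subset_Iio h))

lemma V_dense (x : ℕ → H) (hx : DenseRange x) : ⊤ ≤ (⨆ n, V x n).topologicalClosure := by
  have h1 : range x ⊆ ((⨆ n, V x n : Submodule ℂ H) : Set H) := by
    rintro _ ⟨n, rfl⟩
    have h2 : x n ∈ V x (n + 1) := Submodule.subset_span ⟨n, by simp, rfl⟩
    exact (le_iSup (V x) (n + 1)) h2
  intro u _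
  have h2 : u ∈ closure (range x) := hx u
  exact closure_mono h1 h2

/-- the approximate products -/
def F (x : ℕ → H) (s t : ℝ≥0) (u v : H) (n : ℕ) (f : WC H) : ℂ :=
  ∑ k, ⟪f.op s u, (stdOrthonormalBasis ℂ (V x n) k : H)⟫_ℂ
    * ⟪f.op t (stdOrthonormalBasis ℂ (V x n) k : H), v⟫_ℂ

lemma F_eq [CompleteSpace H] (x : ℕ → H) (s t : ℝ≥0) (u v : H) (n : ℕ) (f : WC H) :
    F x s t u v n f = ⟪f.op t ((V x n).starProjection (f.op s u)), v⟫_ℂ := by
  unfold F
  rw [OrthonormalBasis.starProjection_eq_sum_rankOne (stdOrthonormalBasis ℂ (V x n))]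
  simp only [sum_apply, InnerProductSpace.rankOne_apply, map_sum, map_smul,
    sum_inner, inner_smul_left, inner_conj_symm]

lemma F_tendsto [CompleteSpace H] (x : ℕ → H) (hx : DenseRange x) (s t : ℝ≥0) (u v : H)
    (f : WC H) :
    Tendsto (fun n => F x s t u v n f) atTop (𝓝 ⟪f.op t (f.op s u), v⟫_ℂ) := by
  simp_rw [F_eq]
  have h1 := Submodule.starProjection_tendsto_self (V x) (V_mono x) (f.op s u) (V_dense x hx)
  have h2 : Continuous (fun y => ⟪f.op t y, v⟫_ℂ) := by fun_prop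
  exact (h2.tendsto _).comp h1

lemma F_continuous (x : ℕ → H) (hx0 : ∀ j, x j ≠ 0) (hx : DenseRange x) (s t : ℝ≥0) (u v : H)
    (n : ℕ) :
    @Continuous (WC H) ℂ (metric x hx0 hx).toPseudoMetricSpace.toUniformSpace.toTopologicalSpace _
      (F x s t u v n) := by
  letI := metric x hx0 hx
  unfold F
  apply continuous_finsetSum
  intro k _
  exact (continuous_entry x hx0 hx _ _ s).mul (continuous_entry x hx0 hx _ _ t)

/-- the set of families satisfying one instance of the semigroup law -/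
def Good (s t : ℝ≥0) (u v : H) : Set (WC H) :=
  {f | ⟪f.op t (f.op s u), v⟫_ℂ = ⟪f.op (t + s) u, v⟫_ℂ}

lemma Good_Gδ [CompleteSpace H] (x : ℕ → H) (hx0 : ∀ j, x j ≠ 0) (hx : DenseRange x)
    (s t : ℝ≥0) (u v : H) :
    @IsGδ (WC H) (metric x hx0 hx).toPseudoMetricSpace.toUniformSpace.toTopologicalSpace
      (Good s t u v) := by
  letI := metric x hx0 hx
  have h1 : Good s t u v = ⋂ (m : ℕ), ⋂ (N : ℕ), ⋃ (n : ℕ) (_ : N ≤ n),
      {f : WC H | ‖F x s t u v n f - ⟪f.op (t + s) u, v⟫_ℂ‖ < 1 / ((m : ℝ) + 1)} := by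
    ext f
    simp only [mem_iInter, mem_iUnion, mem_setOf_eq, Good]
    have hlim := ((F_tendsto x hx s t u v f).sub
      (tendsto_const_nhds (x := ⟪f.op (t + s) u, v⟫_ℂ))).norm
    constructor
    · intro h m N
      rw [h, sub_self, norm_zero] at hlim
      have h2 : ∀ᶠ n in atTop, ‖F x s t u v n f - ⟪f.op (t + s) u, v⟫_ℂ‖ < 1 / ((m : ℝ) + 1) :=
        hlim.eventually_lt_const (by positivity)
      obtain ⟨n, hn1, hn2⟩ := (h2.and (eventually_ge_atTop N)).exists
      exact ⟨n, hn2, hn1⟩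
    · intro h
      rw [← sub_eq_zero, ← norm_le_zero_iff]
      apply le_of_forall_pos_le_add
      intro ε hε
      obtain ⟨m, hm⟩ := exists_nat_one_div_lt hε
      rw [zero_add]
      refine le_of_tendsto_of_frequently hlim ?_
      rw [frequently_atTop]
      intro N
      obtain ⟨n, hn1, hn2⟩ := h m N
      exact ⟨n, hn1, (hn2.trans hm).le⟩
  rw [h1]
  refine IsGδ.iInter fun m => IsGδ.iInter fun N => IsOpen.isGδ ?_
  refine isOpen_iUnion fun n => isOpen_iUnion fun _ => ?_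
  exact isOpen_lt ((F_continuous x hx0 hx s t u v n).sub
    (continuous_entry x hx0 hx u v (t + s))).norm continuous_const

/-- the countable set of conditions -/
def SG (x : ℕ → H) : Set (WC H) :=
  {f | ∀ u v, ⟪f.op 0 u, v⟫_ℂ = ⟪u, v⟫_ℂ} ∩
    ⋂ (k : ℕ), ⋂ (l : ℕ), ⋂ (i : ℕ), ⋂ (j : ℕ),
      Good (TopologicalSpace.denseSeq ℝ≥0 k) (TopologicalSpace.denseSeq ℝ≥0 l) (x i) (x j)

lemma SG_Gδ [CompleteSpace H] (x : ℕ → H) (hx0 : ∀ j, x j ≠ 0) (hx : DenseRange x) :
    @IsGδ (WC H) (metric x hx0 hx).toPseudoMetricSpace.toUniformSpace.toTopologicalSpace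
      (SG x) := by
  letI := metric x hx0 hx
  unfold SG
  apply IsGδ.inter
  · apply IsClosed.isGδ
    have : {f : WC H | ∀ u v, ⟪f.op 0 u, v⟫_ℂ = ⟪u, v⟫_ℂ}
        = ⋂ (u : H), ⋂ (v : H), {f : WC H | ⟪f.op 0 u, v⟫_ℂ = ⟪u, v⟫_ℂ} := by
      ext f; simp
    rw [this]
    exact isClosed_iInter fun u => isClosed_iInter fun v =>
      isClosed_eq (continuous_entry x hx0 hx u v 0) continuous_const
  · exact IsGδ.iInter fun k => IsGδ.iInter fun l => IsGδ.iInter fun i => IsGδ.iInter fun j =>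
      Good_Gδ x hx0 hx _ _ _ _

lemma ext_dense (x : ℕ → H) (hx : DenseRange x) {S T : H →L[ℂ] H}
    (h : ∀ i j, ⟪S (x i), x j⟫_ℂ = ⟪T (x i), x j⟫_ℂ) : S = T := by
  have h1 : ∀ i v, ⟪S (x i), v⟫_ℂ = ⟪T (x i), v⟫_ℂ := by
    intro i v
    have h2 : (fun v => ⟪S (x i), v⟫_ℂ) = (fun v => ⟪T (x i), v⟫_ℂ) := by
      apply hx.equalizer (by fun_prop) (by fun_prop)
      ext j
      exact h i j
    exact congrFun h2 v
  apply DFunLike.coe_injective
  apply hx.equalizer (by fun_prop) (by fun_prop)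
  ext i
  exact ext_inner_right ℂ (h1 i)

lemma SG_law [CompleteSpace H] (x : ℕ → H) (hx : DenseRange x) (f : WC H) (hf : f ∈ SG x)
    (s t : ℝ≥0) : f.op (t + s) = (f.op t).comp (f.op s) := by
  have hq := TopologicalSpace.denseRange_denseSeq ℝ≥0
  set q := TopologicalSpace.denseSeq ℝ≥0 with hqdef
  have h1 : ∀ k l, f.op (q l + q k) = (f.op (q l)).comp (f.op (q k)) := by
    intro k l
    apply ext_dense x hx
    intro i j
    have := hf.2
    simp only [mem_iInter] at this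
    exact (this k l i j).symm
  have h2 : ∀ k t, f.op (t + q k) = (f.op t).comp (f.op (q k)) := by
    intro k t
    ext u
    apply ext_inner_right ℂ
    intro v
    have h3 : (fun t => ⟪f.op (t + q k) u, v⟫_ℂ) = (fun t => ⟪f.op t (f.op (q k) u), v⟫_ℂ) := by
      apply hq.equalizer
      · exact (f.wcont u v).comp (continuous_id.add continuous_const)
      · exact f.wcont _ v
      · ext l
        simp only [Function.comp]
        rw [h1 k l]
        rfl
    exact congrFun h3 t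
  ext u
  apply ext_inner_right ℂ
  intro v
  have h3 : (fun s => ⟪f.op (t + s) u, v⟫_ℂ) = (fun s => ⟪f.op t (f.op s u), v⟫_ℂ) := by
    apply hq.equalizer
    · exact (f.wcont u v).comp (continuous_const.add continuous_id)
    · have h4 : (fun s => ⟪f.op t (f.op s u), v⟫_ℂ)
          = (fun s => ⟪f.op s u, ContinuousLinearMap.adjoint (f.op t) v⟫_ℂ) := by
        ext s
        rw [ContinuousLinearMap.adjoint_inner_right]
      rw [h4]
      exact f.wcont u _
    · ext k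
      simp only [Function.comp]
      rw [h2 k t]
      rfl
  exact congrFun h3 s

lemma SG_zero (x : ℕ → H) (f : WC H) (hf : f ∈ SG x) : f.op 0 = 1 := by
  ext u
  apply ext_inner_right ℂ
  intro v
  exact hf.1 u v

/-- contraction `C₀`-semigroups -/
structure ContractionSemigroup (H : Type*) [NormedAddCommGroup H] [InnerProductSpace ℂ H] where
  /-- the operator at time `t` -/
  op : ℝ≥0 → H →L[ℂ] H
  map_zero : op 0 = 1
  map_add : ∀ t s, op (t + s) = (op t).comp (op s)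
  cont : ∀ u, Continuous fun t => op t u
  contr : ∀ t, ‖op t‖ ≤ 1

/-- forget the semigroup law -/
def ContractionSemigroup.toWC (T : ContractionSemigroup H) : WC H where
  op := T.op
  contr := T.contr
  wcont u v := (T.cont u).inner continuous_const

lemma strong_cont [CompleteSpace H] (f : WC H) (h0 : f.op 0 = 1)
    (h : ∀ s t, f.op (t + s) = (f.op t).comp (f.op s)) (u : H) : Continuous fun t => f.op t u := by
  have hφ : ∀ s : ℝ≥0, ‖f.op s u - u‖ ^ 2 ≤ 2 * ‖u‖ ^ 2 - 2 * (⟪f.op s u, u⟫_ℂ).re := by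
    intro s
    have h1 := @norm_sub_sq ℂ H _ _ _ (f.op s u) u
    have h2 : ‖f.op s u‖ ≤ ‖u‖ := by
      have := (f.op s).le_of_opNorm_le (f.contr s) u
      simpa using this
    have h3 : ‖f.op s u‖ ^ 2 ≤ ‖u‖ ^ 2 := by gcongr
    rw [h1]
    simp only [RCLike.re_to_complex]
    linarith
  have hstep : ∀ s t : ℝ≥0, ‖f.op (t + s) u - f.op t u‖ ≤ ‖f.op s u - u‖ := by
    intro s t
    rw [h s t, ContinuousLinearMap.comp_apply, ← map_sub]
    have := (f.op t).le_of_opNorm_le (f.contr t) (f.op s u - u)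
    simpa using this
  have hdiff : ∀ s t : ℝ≥0, ‖f.op s u - f.op t u‖ ≤ ‖f.op ((s - t) + (t - s)) u - u‖ := by
    intro s t
    rcases le_total s t with hst | hst
    · obtain ⟨r, rfl⟩ := exists_add_of_le hst
      have h1 : s - (s + r) = 0 := tsub_eq_zero_of_le hst
      have h2 : s + r - s = r := add_tsub_cancel_left s r
      rw [h1, h2, zero_add, norm_sub_rev]
      exact hstep r s
    · obtain ⟨r, rfl⟩ := exists_add_of_le hst
      have h1 : t - (t + r) = 0 := tsub_eq_zero_of_le hst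
      have h2 : t + r - t = r := add_tsub_cancel_left t r
      rw [h1, h2, add_zero]
      exact hstep r t
  rw [continuous_iff_continuousAt]
  intro t
  rw [ContinuousAt, tendsto_iff_norm_sub_tendsto_zero]
  have hlim : Tendsto (fun s : ℝ≥0 => Real.sqrt (2 * ‖u‖ ^ 2
      - 2 * (⟪f.op ((s - t) + (t - s)) u, u⟫_ℂ).re)) (𝓝 t) (𝓝 0) := by
    have hc : Continuous (fun s : ℝ≥0 => Real.sqrt (2 * ‖u‖ ^ 2
      - 2 * (⟪f.op ((s - t) + (t - s)) u, u⟫_ℂ).re)) := by
      have h1 : Continuous (fun s : ℝ≥0 => (s - t) + (t - s)) := by fun_prop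
      have h2 := (f.wcont u u).comp h1
      have h3 := Complex.continuous_re.comp h2
      exact Real.continuous_sqrt.comp (continuous_const.sub (continuous_const.mul h3))
    have := hc.tendsto t
    simp only [tsub_self, add_zero, h0] at this
    have h4 : (2 * ‖u‖ ^ 2 - 2 * (⟪(1 : H →L[ℂ] H) u, u⟫_ℂ).re) = 0 := by
      rw [one_apply_eq_self, inner_self_eq_norm_sq_to_K]
      have h5 : (((‖u‖ : ℝ) : ℂ) ^ 2).re = ‖u‖ ^ 2 := by
        rw [← Complex.ofReal_pow, Complex.ofReal_re]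
      have h6 : ((RCLike.ofReal ‖u‖ : ℂ) ^ 2).re = ‖u‖ ^ 2 := h5
      rw [h6]
      ring
    rw [h4, Real.sqrt_zero] at this
    exact this
  refine squeeze_zero (fun s => norm_nonneg _) (fun s => ?_) hlim
  refine (hdiff s t).trans ?_
  exact Real.le_sqrt_of_sq_le (hφ _)

lemma range_toWC [CompleteSpace H] (x : ℕ → H) (hx : DenseRange x) :
    range (ContractionSemigroup.toWC (H := H)) = SG x := by
  apply Subset.antisymm
  · rintro _ ⟨T, rfl⟩
    refine ⟨fun u v => ?_, ?_⟩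
    · change ⟪T.op 0 u, v⟫_ℂ = _
      rw [T.map_zero]; rfl
    · simp only [mem_iInter]
      intro k l i j
      change ⟪T.op _ (T.op _ _), _⟫_ℂ = ⟪T.op _ _, _⟫_ℂ
      rw [T.map_add]; rfl
  · intro f hf
    exact ⟨⟨f.op, SG_zero x f hf, fun t s => SG_law x hx f hf s t,
      fun u => strong_cont f (SG_zero x f hf) (SG_law x hx f hf) u, f.contr⟩, rfl⟩

lemma toWC_injective : Function.Injective (ContractionSemigroup.toWC (H := H)) := by
  intro S T h
  have : S.op = T.op := congrArg WC.op h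
  cases S; cases T
  congr

/-- the metric space of contraction semigroups -/
@[reducible] def metricCS (x : ℕ → H) (hx0 : ∀ j, x j ≠ 0) (hx : DenseRange x) :
    MetricSpace (ContractionSemigroup H) :=
  MetricSpace.induced ContractionSemigroup.toWC toWC_injective (metric x hx0 hx)

lemma baire_subtype {X : Type*} [MetricSpace X] [CompleteSpace X] {S : Set X} (hS : IsGδ S) :
    BaireSpace S := by
  have hK : IsClosed (closure S) := isClosed_closure
  haveI : CompleteSpace (closure S) := hK.completeSpace_coe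
  let S' : Set (closure S) := (↑) ⁻¹' S
  have h1 : IsGδ S' := by
    obtain ⟨T, hT1, hT2, hT3⟩ := hS
    refine ⟨(fun U => ((↑) : closure S → X) ⁻¹' U) '' T, ?_, hT2.image _, ?_⟩
    · rintro _ ⟨U, hU, rfl⟩
      exact (hT1 U hU).preimage continuous_subtype_val
    · rw [sInter_image]
      simp only [S']
      rw [hT3, preimage_sInter]
  have h2 : Dense S' := by
    have := Subtype.dense_iff (s := closure S) (t := S')
    rw [this]
    intro y hy
    have h3 : ((↑) : closure S → X) '' S' = S := by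
      ext z
      constructor
      · rintro ⟨w, hw, rfl⟩
        exact hw
      · intro hz
        exact ⟨⟨z, subset_closure hz⟩, hz, rfl⟩
    rw [h3]
    exact hy
  haveI := h1.baireSpace_of_dense h2
  have e : S' ≃ₜ S := {
    toFun := fun y => ⟨y.1.1, y.2⟩
    invFun := fun y => ⟨⟨y.1, subset_closure y.2⟩, y.2⟩
    left_inv := fun y => by ext; rfl
    right_inv := fun y => by ext; rfl
    continuous_toFun := by fun_prop
    continuous_invFun := by fun_prop }
  exact e.baireSpace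

theorem baire_CS [CompleteSpace H] (x : ℕ → H) (hx0 : ∀ j, x j ≠ 0) (hx : DenseRange x) :
    @BaireSpace (ContractionSemigroup H)
      (metricCS x hx0 hx).toPseudoMetricSpace.toUniformSpace.toTopologicalSpace := by
  letI m1 := metric x hx0 hx
  letI m2 := metricCS x hx0 hx
  haveI := metric_complete x hx0 hx
  haveI hB : BaireSpace (SG x) := baire_subtype (SG_Gδ x hx0 hx)
  have hind : IsEmbedding (ContractionSemigroup.toWC (H := H)) :=
    ⟨⟨rfl⟩, toWC_injective⟩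
  have e1 := hind.toHomeomorph
  rw [range_toWC x hx] at e1
  exact e1.symm.baireSpace

end Pool.Agent.Helper70.BS
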