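import Mathlib

open Polynomial

noncomputable section

namespace Pool.Agent.Helper70.LR

/-- the antiderivative vanishing at `0` -/
def antideriv (p : ℚ[X]) : ℚ[X] := p.sum fun i a => C (a / (i + 1)) * X ^ (i + 1)

/-- the polynomials `L_n` -/
def L : ℕ → ℚ[X]
  | 0 => -X
  | n + 1 => -(L n) + C (n : ℚ) * antideriv (L n)

/-- the generating function `F(T, X) = ∑ L_n(X) T^n` -/
def F : PowerSeries ℚ[X] := PowerSeries.mk L

/-- the polynomials `L_{n,k}` -/
def Lnk (n k : ℕ) : ℚ[X] := PowerSeries.coeff n (F ^ k)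

lemma antideriv_derivative (p : ℚ[X]) : derivative (antideriv p) = p := by
  unfold antideriv
  rw [Polynomial.sum_def, derivative_sum]
  conv_rhs => rw [← p.sum_C_mul_X_pow_eq, Polynomial.sum_def]
  apply Finset.sum_congr rfl
  intro i _
  rw [derivative_C_mul_X_pow]
  have : ((i : ℚ) + 1) ≠ 0 := by positivity
  simp only [add_tsub_cancel_right, Nat.cast_add, Nat.cast_one]
  congr 2
  field_simp

lemma antideriv_eval (p : ℚ[X]) : (antideriv p).eval 0 = 0 := by
  unfold antideriv
  rw [Polynomial.sum_def, eval_finsetSum]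
  apply Finset.sum_eq_zero
  intro i _
  simp

lemma L_eval (n : ℕ) : (L n).eval 0 = 0 := by
  induction n with
  | zero => simp [L]
  | succ n ih => simp [L, ih, antideriv_eval]

lemma L_derivative (n : ℕ) : derivative (L (n + 1)) = -derivative (L n) + C (n : ℚ) * L n := by
  simp [L, derivative_mul, antideriv_derivative]

/-- derivative in `X` of power series in `T` -/
def dX (Z : PowerSeries ℚ[X]) : PowerSeries ℚ[X] :=
  PowerSeries.mk fun n => derivative (PowerSeries.coeff n Z)

lemma dX_mul (Z W : PowerSeries ℚ[X]) : dX (Z * W) = dX Z * W + Z * dX W := by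
  ext1 n
  simp only [dX, PowerSeries.coeff_mk, PowerSeries.coeff_mul, map_add, derivative_sum,
    derivative_mul, Finset.sum_add_distrib]

/-- the operator `(1 + T) ∂_X - T^2 ∂_T` on coefficients -/
def LL (Z : PowerSeries ℚ[X]) : PowerSeries ℚ[X] :=
  (1 + PowerSeries.X) * dX Z - PowerSeries.X ^ 2 * PowerSeries.derivative ℚ[X] Z

lemma der_mul {R : Type*} [CommSemiring R] (Z W : PowerSeries R) :
    PowerSeries.derivative R (Z * W)
      = Z * PowerSeries.derivative R W + W * PowerSeries.derivative R Z :=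
  (PowerSeries.derivative R).leibniz Z W

lemma LL_mul (Z W : PowerSeries ℚ[X]) : LL (Z * W) = LL Z * W + Z * LL W := by
  unfold LL
  rw [dX_mul, der_mul]
  ring

lemma LL_one : LL 1 = 0 := by
  have h := LL_mul 1 1
  simp only [mul_one, one_mul] at h
  simpa using h

lemma LL_pow (Z : PowerSeries ℚ[X]) (k : ℕ) : LL (Z ^ (k + 1)) = (k + 1 : ℕ) • (Z ^ k * LL Z) := by
  induction k with
  | zero => simp
  | succ k ih =>
    rw [pow_succ, LL_mul, ih, succ_nsmul (Z ^ (k + 1) * LL Z) (k + 1)]
    congr 1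
    rw [smul_mul_assoc]
    congr 1
    ring

lemma LL_coeff_zero (Z : PowerSeries ℚ[X]) :
    PowerSeries.coeff 0 (LL Z) = derivative (PowerSeries.coeff 0 Z) := by
  simp [LL, dX, add_mul]

lemma LL_coeff_succ (Z : PowerSeries ℚ[X]) (n : ℕ) :
    PowerSeries.coeff (n + 1) (LL Z) = derivative (PowerSeries.coeff (n + 1) Z)
      + (derivative (PowerSeries.coeff n Z) - C (n : ℚ) * PowerSeries.coeff n Z) := by
  unfold LL dX
  rw [map_sub, add_mul, one_mul, map_add, PowerSeries.coeff_mk, PowerSeries.coeff_succ_X_mul,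
    PowerSeries.coeff_mk]
  rcases n with _ | n
  · rw [pow_two, mul_assoc, PowerSeries.coeff_succ_X_mul]
    simp
  · rw [pow_two, mul_assoc, PowerSeries.coeff_succ_X_mul, PowerSeries.coeff_succ_X_mul,
      PowerSeries.coeff_derivative]
    simp only [Nat.cast_add, Nat.cast_one, map_add, map_one, map_natCast]
    ring

lemma LL_F : LL F = -1 := by
  ext1 n
  rcases n with _ | n
  · rw [LL_coeff_zero]
    simp [F, L]
  · rw [LL_coeff_succ]
    simp only [F, PowerSeries.coeff_mk, L_derivative]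
    rw [map_neg, PowerSeries.coeff_one, if_neg (by omega)]
    ring

lemma eq_of_derivative_eval {p q : ℚ[X]} (h : derivative p = derivative q)
    (h0 : p.eval 0 = q.eval 0) : p = q := by
  have h1 : derivative (p - q) = 0 := by rw [derivative_sub, h, sub_self]
  have h2 := derivative_eq_zero.mp h1
  rw [natDegree_eq_zero] at h2
  obtain ⟨c, hc⟩ := h2
  have h3 : (p - q).eval 0 = 0 := by rw [eval_sub, h0, sub_self]
  rw [← hc, eval_C] at h3
  rw [h3, C_0] at hc
  exact (sub_eq_zero.mp hc.symm)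

/-- uniqueness for the linear equation -/
lemma LL_unique {Z W : PowerSeries ℚ[X]} (h : LL Z = LL W)
    (h0 : ∀ n, (PowerSeries.coeff n Z).eval 0 = (PowerSeries.coeff n W).eval 0) : Z = W := by
  ext1 n
  induction n with
  | zero =>
    apply eq_of_derivative_eval _ (h0 0)
    have := congrArg (PowerSeries.coeff 0) h
    rwa [LL_coeff_zero, LL_coeff_zero] at this
  | succ n ih =>
    apply eq_of_derivative_eval _ (h0 (n + 1))
    have := congrArg (PowerSeries.coeff (n + 1)) h
    rw [LL_coeff_succ, LL_coeff_succ, ih] at this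
    exact add_right_cancel this

/-- the operator `∏_{j=1}^m (j - D)` -/
def Op {R : Type*} [CommRing R] : ℕ → R[X] → R[X]
  | 0, p => p
  | m + 1, p => C ((m : R) + 1) * Op m p - derivative (Op m p)

lemma Op_derivative {R : Type*} [CommRing R] (m : ℕ) (p : R[X]) :
    Op m (derivative p) = derivative (Op m p) := by
  induction m with
  | zero => rfl
  | succ m ih => simp only [Op, ih, derivative_sub, derivative_mul, derivative_C, zero_mul, zero_add]

lemma Op_C_mul {R : Type*} [CommRing R] (m : ℕ) (c : R) (p : R[X]) :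
    Op m (C c * p) = C c * Op m p := by
  induction m with
  | zero => rfl
  | succ m ih =>
    simp only [Op, ih, derivative_mul, derivative_C, zero_mul, zero_add]
    ring

lemma derivative_Op_X_pow {R : Type*} [CommRing R] (m N : ℕ) :
    derivative (Op m (X ^ N : R[X])) = C (N : R) * Op m (X ^ (N - 1)) := by
  rw [← Op_derivative, derivative_X_pow, Op_C_mul]

lemma Op_eval_zero (m N : ℕ) (h : m < N) : (Op m (X ^ N : ℚ[X])).eval 0 = 0 := by
  induction m generalizing N with
  | zero => simp [Op, zero_pow (by omega : N ≠ 0)]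
  | succ m ih =>
    rw [Op, eval_sub, eval_mul, derivative_Op_X_pow, eval_mul, ih N (by omega),
      ih (N - 1) (by omega)]
    simp

/-- the closed form -/
def A (n k : ℕ) : ℚ[X] :=
  if n = 0 then (-X) ^ k else C ((-1 : ℚ) ^ (k + 1) * (k : ℚ) / (n.factorial : ℚ)) * Op (n - 1) (X ^ (n + k - 1))

lemma A_eval (n k : ℕ) (hk : 1 ≤ k) : (A n k).eval 0 = 0 := by
  unfold A
  split_ifs with h
  · simp [zero_pow (by omega : k ≠ 0)]
  · rw [eval_mul, Op_eval_zero _ _ (by omega), mul_zero]

lemma A_rec_zero (k : ℕ) : derivative (A 0 (k + 1)) = -((k + 1 : ℕ) : ℚ[X]) * A 0 k := by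
  unfold A
  rw [if_pos rfl, if_pos rfl, derivative_pow]
  simp
  ring

lemma A_rec (n k : ℕ) : derivative (A (n + 1) (k + 1)) + (derivative (A n (k + 1))
    - C (n : ℚ) * A n (k + 1)) = -((k + 1 : ℕ) : ℚ[X]) * A (n + 1) k := by
  rcases n with _ | n
  · unfold A
    simp only [zero_add, Nat.factorial_one, Nat.cast_one, div_one, tsub_self, Op, if_true,
      if_neg (one_ne_zero), Nat.cast_zero, C_0, zero_mul, sub_zero]
    have e1 : 1 + (k + 1) - 1 = k + 1 := by omega
    have e2 : 1 + k - 1 = k := by omega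
    rw [e1, e2, derivative_C_mul, derivative_X_pow, derivative_pow]
    simp only [Nat.add_sub_cancel, derivative_neg, derivative_X]
    have e3 : (-X : ℚ[X]) ^ k = C ((-1) ^ k) * X ^ k := by
      rw [neg_pow]; simp
    rw [e3]
    simp only [Nat.cast_add, Nat.cast_one, C_mul, C_add, C_1, C_pow, C_neg, map_natCast]
    ring
  · have e0 : n + 1 + 1 - 1 = n + 1 := by omega
    have e1 : n + 1 + 1 + (k + 1) - 1 = n + k + 2 := by omega
    have e2 : n + 1 - 1 = n := by omega
    have e3 : n + 1 + (k + 1) - 1 = n + k + 1 := by omega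
    have e4 : n + 1 + 1 + k - 1 = n + k + 1 := by omega
    unfold A
    rw [if_neg (by omega), if_neg (by omega), if_neg (by omega), e0, e1, e2, e3, e4,
      derivative_C_mul, derivative_C_mul, derivative_Op_X_pow]
    have e5 : n + k + 2 - 1 = n + k + 1 := by omega
    rw [e5]
    have h1 : derivative (Op n (X ^ (n + k + 1) : ℚ[X]))
        = C ((n : ℚ) + 1) * Op n (X ^ (n + k + 1)) - Op (n + 1) (X ^ (n + k + 1)) := by
      rw [Op]; ring
    rw [h1]
    have h2 : ((n + 1 + 1).factorial : ℚ) = (n + 2) * (n + 1).factorial := by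
      rw [Nat.factorial_succ]; push_cast; ring
    have h3 : ((n + 1).factorial : ℚ) ≠ 0 := by positivity
    have h4 : ((n : ℚ) + 2) ≠ 0 := by positivity
    have h5 : -((k + 1 : ℕ) : ℚ[X]) = C (-((k : ℚ) + 1)) := by
      simp
    rw [h5, h2]
    have key : ∀ U V : ℚ[X], C ((-1) ^ (k + 1 + 1) * ((k + 1 : ℕ) : ℚ) / ((n + 2) * (n + 1).factorial))
        * (C ((n + k + 2 : ℕ) : ℚ) * V) + (C ((-1) ^ (k + 1 + 1) * ((k + 1 : ℕ) : ℚ)
          / (n + 1).factorial) * (C ((n : ℚ) + 1) * U - V)
        - C ((n + 1 : ℕ) : ℚ) * (C ((-1) ^ (k + 1 + 1) * ((k + 1 : ℕ) : ℚ) / (n + 1).factorial) * U))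
        = C (-((k : ℚ) + 1)) * (C ((-1) ^ (k + 1) * (k : ℚ) / ((n + 2) * (n + 1).factorial)) * V) := by
      intro U V
      have k1 : C ((-1) ^ (k + 1 + 1) * ((k + 1 : ℕ) : ℚ) / ((n + 2) * (n + 1).factorial))
        * (C ((n + k + 2 : ℕ) : ℚ) * V) + (C ((-1) ^ (k + 1 + 1) * ((k + 1 : ℕ) : ℚ)
          / (n + 1).factorial) * (C ((n : ℚ) + 1) * U - V)
        - C ((n + 1 : ℕ) : ℚ) * (C ((-1) ^ (k + 1 + 1) * ((k + 1 : ℕ) : ℚ) / (n + 1).factorial) * U))
        = C ((-1) ^ (k + 1 + 1) * ((k + 1 : ℕ) : ℚ) / ((n + 2) * (n + 1).factorial)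
            * ((n + k + 2 : ℕ) : ℚ) - (-1) ^ (k + 1 + 1) * ((k + 1 : ℕ) : ℚ) / (n + 1).factorial) * V
          + C ((-1) ^ (k + 1 + 1) * ((k + 1 : ℕ) : ℚ) / (n + 1).factorial * ((n : ℚ) + 1)
            - ((n + 1 : ℕ) : ℚ) * ((-1) ^ (k + 1 + 1) * ((k + 1 : ℕ) : ℚ) / (n + 1).factorial)) * U := by
        simp only [C_mul, C_sub]
        ring
      rw [k1, ← mul_assoc (C (-((k : ℚ) + 1))), ← C_mul]
      have k2 : (-1) ^ (k + 1 + 1) * ((k + 1 : ℕ) : ℚ) / (n + 1).factorial * ((n : ℚ) + 1)
            - ((n + 1 : ℕ) : ℚ) * ((-1) ^ (k + 1 + 1) * ((k + 1 : ℕ) : ℚ) / (n + 1).factorial) = 0 := by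
        push_cast; ring
      rw [k2, C_0, zero_mul, add_zero]
      congr 2
      push_cast
      field_simp
      ring
    exact key _ _

lemma Fpow_eq (k : ℕ) : F ^ k = PowerSeries.mk (fun n => A n k) := by
  induction k with
  | zero =>
    ext1 n
    rw [pow_zero, PowerSeries.coeff_one, PowerSeries.coeff_mk, A]
    split_ifs with h
    · simp
    · simp
  | succ k ih =>
    apply LL_unique
    · rw [LL_pow, LL_F, ih]
      ext1 n
      rcases n with _ | n
      · rw [LL_coeff_zero, PowerSeries.coeff_mk, A_rec_zero, mul_neg, mul_one, smul_neg, map_neg,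
          map_nsmul, PowerSeries.coeff_mk, nsmul_eq_mul, neg_mul]
      · rw [LL_coeff_succ, PowerSeries.coeff_mk, PowerSeries.coeff_mk, A_rec, mul_neg, mul_one,
          smul_neg, map_neg, map_nsmul, PowerSeries.coeff_mk, nsmul_eq_mul, neg_mul]
    · intro n
      rw [PowerSeries.coeff_mk, A_eval n (k + 1) (by omega)]
      have : ∀ (m : ℕ), 1 ≤ m → ∀ n, (PowerSeries.coeff n (F ^ m)).eval 0 = 0 := by
        intro m hm
        induction m with
        | zero => omega
        | succ m _ =>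
          intro n
          rw [pow_succ, PowerSeries.coeff_mul, eval_finsetSum]
          apply Finset.sum_eq_zero
          intro p _
          rw [eval_mul]
          have : (PowerSeries.coeff p.2 F).eval 0 = 0 := by
            rw [F, PowerSeries.coeff_mk]; exact L_eval _
          rw [this, mul_zero]
      exact this (k + 1) (by omega) n

theorem Lnk_eq (n k : ℕ) (hn : 1 ≤ n) : Lnk n k
    = C ((-1 : ℚ) ^ (k + 1) * (k : ℚ) / (n.factorial : ℚ)) * Op (n - 1) (X ^ (n + k - 1)) := by
  unfold Lnk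
  rw [Fpow_eq, PowerSeries.coeff_mk, A, if_neg (by omega)]

end Pool.Agent.Helper70.LR
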