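import Pool.Agent.Helper70.LR1

open Polynomial

noncomputable section

namespace Pool.Agent.Helper70.LR

/-! ### real-rootedness -/

/-- all complex roots are real and nonnegative -/
def RR (p : ℂ[X]) : Prop := p ≠ 0 ∧ ∀ z : ℂ, p.eval z = 0 → ∃ r : ℝ, 0 ≤ r ∧ z = r

lemma multiset_sum_neg (s : Multiset ℂ) (f : ℂ → ℝ) (h : ∀ a ∈ s, f a < 0) (hs : s ≠ 0) :
    (s.map f).sum < 0 := by
  induction s using Multiset.induction_on with
  | empty => exact absurd rfl hs
  | cons a s ih =>
    rw [Multiset.map_cons, Multiset.sum_cons]
    have h1 := h a (Multiset.mem_cons_self a s)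
    by_cases hs' : s = 0
    · rw [hs']; simpa using h1
    · have := ih (fun b hb => h b (Multiset.mem_cons_of_mem hb)) hs'
      linarith

lemma RR_step {p : ℂ[X]} (hp : RR p) {c : ℝ} (hc : 0 < c) :
    RR (C (c : ℂ) * p - derivative p) := by
  obtain ⟨hp0, hroots⟩ := hp
  have hc' : (c : ℂ) ≠ 0 := by exact_mod_cast hc.ne'
  constructor
  · intro h
    have h1 : C (c : ℂ) * p = derivative p := sub_eq_zero.mp h
    have h2 := degree_derivative_lt hp0
    rw [← h1, degree_C_mul hc'] at h2
    exact lt_irrefl _ h2
  · intro z hz
    rw [eval_sub, eval_mul, eval_C] at hz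
    by_cases hpz : p.eval z = 0
    · exact hroots z hpz
    have h1 := (IsAlgClosed.splits p).eval_derivative_div_eval_of_ne_zero hpz
    have h2 : (derivative p).eval z / p.eval z = c := by
      rw [div_eq_iff hpz]
      linear_combination -hz
    rw [h2] at h1
    have hne : p.roots ≠ 0 := by
      intro h
      rw [h] at h1
      simp at h1
      exact hc.ne' h1
    have hroot : ∀ a ∈ p.roots, ∃ r : ℝ, 0 ≤ r ∧ a = r := by
      intro a ha
      exact hroots a (isRoot_of_mem_roots ha)
    -- imaginary part
    have him : z.im = 0 := by
      by_contra hne'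
      have h3 : (p.roots.map (fun a => z.im * (1 / (z - a)).im)).sum = 0 := by
        have h4 : (p.roots.map (fun a => (1 / (z - a)).im)).sum = 0 := by
          have := congrArg Complex.imAddGroupHom h1
          rw [map_multiset_sum, Multiset.map_map] at this
          simpa using this.symm
        rw [Multiset.sum_map_mul_left, h4, mul_zero]
      have h5 : (p.roots.map (fun a => z.im * (1 / (z - a)).im)).sum < 0 := by
        apply multiset_sum_neg _ _ _ hne
        intro a ha
        obtain ⟨r, _, rfl⟩ := hroot a ha
        have hz' : z - r ≠ 0 := by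
          intro h
          apply hne'
          have := congrArg Complex.im h
          simpa using this
        have h6 : (1 / (z - (r : ℂ))).im = - z.im / Complex.normSq (z - r) := by
          rw [one_div, Complex.inv_im]
          simp
        rw [h6]
        have h7 : 0 < Complex.normSq (z - r) := Complex.normSq_pos.mpr hz'
        have h8 : z.im * (-z.im / Complex.normSq (z - r)) = -(z.im ^ 2 / Complex.normSq (z - r)) := by
          ring
        rw [h8]
        have h9 : 0 < z.im ^ 2 := by positivity
        have := div_pos h9 h7
        linarith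
      linarith
    refine ⟨z.re, ?_, ?_⟩
    · by_contra hneg
      push Not at hneg
      have h3 : (p.roots.map (fun a => (1 / (z - a)).re)).sum = c := by
        have := congrArg Complex.reAddGroupHom h1
        rw [map_multiset_sum, Multiset.map_map] at this
        simpa using this.symm
      have h5 : (p.roots.map (fun a => (1 / (z - a)).re)).sum < 0 := by
        apply multiset_sum_neg _ _ _ hne
        intro a ha
        obtain ⟨r, hr, rfl⟩ := hroot a ha
        have h6 : (1 / (z - (r : ℂ))).re = (z.re - r) / Complex.normSq (z - r) := by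
          rw [one_div, Complex.inv_re]
          simp
        rw [h6]
        have hz' : z - r ≠ 0 := by
          intro h
          have := congrArg Complex.re h
          simp at this
          linarith
        exact div_neg_of_neg_of_pos (by linarith) (Complex.normSq_pos.mpr hz')
      linarith
    · apply Complex.ext <;> simp [him]

lemma RR_Op (m N : ℕ) : RR (Op m (X ^ N : ℂ[X])) := by
  induction m with
  | zero =>
    refine ⟨pow_ne_zero _ X_ne_zero, fun z hz => ⟨0, le_rfl, ?_⟩⟩
    simp only [Op, eval_pow, eval_X] at hz
    have := eq_zero_of_pow_eq_zero hz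
    rw [this]; simp
  | succ m ih =>
    rw [Op]
    have := RR_step ih (c := (m : ℝ) + 1) (by positivity)
    simpa using this

lemma Op_map {R S : Type*} [CommRing R] [CommRing S] (f : R →+* S) (m : ℕ) (p : R[X]) :
    (Op m p).map f = Op m (p.map f) := by
  induction m with
  | zero => rfl
  | succ m ih =>
    rw [Op, Op, Polynomial.map_sub, Polynomial.map_mul, ih, ← derivative_map, ih]
    simp

theorem Lnk_real_rooted (n k : ℕ) (hn : 1 ≤ n) (hk : 1 ≤ k) (z : ℂ) (hz : aeval z (Lnk n k) = 0) :
    ∃ r : ℝ, 0 ≤ r ∧ z = r := by
  rw [Lnk_eq n k hn, ← eval_map_algebraMap, Polynomial.map_mul, Op_map, Polynomial.map_pow, map_X,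
    eval_mul, mul_eq_zero] at hz
  rcases hz with h | h
  · exfalso
    rw [map_C, eval_C, map_eq_zero_iff _ (algebraMap ℚ ℂ).injective] at h
    have : (-1 : ℚ) ^ (k + 1) * (k : ℚ) / (n.factorial : ℚ) ≠ 0 := by
      apply div_ne_zero
      · apply mul_ne_zero
        · exact pow_ne_zero _ (by norm_num)
        · exact_mod_cast (by omega : k ≠ 0)
      · exact_mod_cast n.factorial_ne_zero
    exact this h
  · exact (RR_Op _ _).2 z h

end Pool.Agent.Helper70.LR
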