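import Pool.Agent.Helper70.LR9
import Pool.Agent.Helper70.LR2

open Filter Topology Finset Asymptotics Polynomial

noncomputable section

namespace Pool.Agent.Helper70.LR

/-- largest root -/
def rho (k n : ℕ) : ℝ := sSup {x : ℝ | (Op (n - 1) (X ^ (n + k - 1) : ℝ[X])).eval x = 0}

/-- deviation of the largest root -/
def yy (k n : ℕ) : ℝ := rho k n - Hm (n - 2) - ((n + k - 1 : ℕ) : ℝ)

/-- inverse of the shifted root -/
def ee (k n : ℕ) : ℝ := 1 / (((n + k - 1 : ℕ) : ℝ) + yy k n)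

/-- `1/(n+k-1)` -/
def nn (k n : ℕ) : ℝ := 1 / ((n : ℝ) + (X - C 1 : ℝ[X]).eval (k : ℝ))

/-- the moments -/
def MM (r k n : ℕ) : ℝ := Mr (((n + k - 1 : ℕ) : ℝ) + yy k n) r (n + k - 1)

lemma facts : ∃ κ : ℝ, 0 < κ ∧ ∃ n₁ : ℕ, 2 ≤ n₁ ∧ ∀ k, 1 ≤ k → ∀ n, n₁ ≤ n →
    |yy k n| ≤ κ * (1 / (n : ℝ)) ∧ |yy k n| ≤ 1 ∧ 1 ≤ ((n + k - 1 : ℕ) : ℝ) + yy k n ∧
    ((n + k - 1 : ℕ) : ℝ) ≤ 2 * (((n + k - 1 : ℕ) : ℝ) + yy k n) ∧
    (n : ℝ) ≤ 2 * (((n + k - 1 : ℕ) : ℝ) + yy k n) ∧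
    Lam (b (n - 2)) (((n + k - 1 : ℕ) : ℝ) + yy k n) (n + k - 1) = 0 := by
  obtain ⟨κ, hκ, N₀, hN₀, h⟩ := exists_root_bound
  refine ⟨κ, hκ, N₀ + 2 + ⌈2 * κ⌉₊, by omega, ?_⟩
  intro k hk n hn
  have h1 := h (n - 2) (n + k - 1) (by omega) (rho k n) (by
    unfold rho; rw [show n - 2 + 1 = n - 1 by omega])
  obtain ⟨h2, h3⟩ := h1
  have hn1 : (2 * κ) ≤ n := (Nat.le_ceil _).trans (by exact_mod_cast (by omega : ⌈2 * κ⌉₊ ≤ n))
  have hn2 : (2 : ℝ) ≤ n := by exact_mod_cast (by omega : 2 ≤ n)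
  have hnN : (n : ℝ) ≤ ((n + k - 1 : ℕ) : ℝ) := by exact_mod_cast (by omega : n ≤ n + k - 1)
  have e : rho k n - Hm (n - 2) - ((n + k - 1 : ℕ) : ℝ) = yy k n := rfl
  have e' : rho k n - Hm (n - 2) = ((n + k - 1 : ℕ) : ℝ) + yy k n := by rw [← e]; ring
  rw [e] at h2
  rw [e'] at h3
  have h4 : |yy k n| ≤ κ * (1 / (n : ℝ)) := by
    refine h2.trans ?_
    rw [mul_one_div]
    gcongr
  have h5 : κ * (1 / (n : ℝ)) ≤ 1 / 2 := by
    rw [mul_one_div, div_le_div_iff₀ (by linarith) (by norm_num)]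
    linarith
  have h6 := abs_le.mp h4
  refine ⟨h4, by linarith, by linarith, by linarith, by linarith, h3⟩

lemma nn_eq (k n : ℕ) (hk : 1 ≤ k) : nn k n = 1 / (((n + k - 1 : ℕ) : ℝ)) := by
  unfold nn
  rw [Nat.cast_sub (by omega)]
  simp
  ring

theorem dat : Dat yy ee nn MM Bs := by
  obtain ⟨κ, hκ, n₁, hn₁, h⟩ := facts
  refine ⟨?_, ?_, ?_, fun r => (Bs_all r).1, ?_, ?_, ?_, ?_, ?_⟩
  · intro k hk
    refine IsBigO.of_bound κ ?_
    filter_upwards [eventually_ge_atTop n₁] with n hn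
    rw [Real.norm_eq_abs, pow_one, Real.norm_of_nonneg (by positivity)]
    exact (h k hk n hn).1
  · intro k hk
    refine IsBigO.of_bound 2 ?_
    filter_upwards [eventually_ge_atTop n₁] with n hn
    obtain ⟨_, _, h3, _, h5, _⟩ := h k hk n hn
    have hn0 : (0 : ℝ) < n := by exact_mod_cast (by omega : 0 < n)
    unfold ee
    rw [pow_one, Real.norm_of_nonneg (by positivity), Real.norm_of_nonneg (by positivity),
      mul_one_div, div_le_div_iff₀ (by linarith) hn0]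
    linarith
  · exact Ex_nu (X - C 1) (by rw [natDegree_X_sub_C])
  · intro k _
    exact Eventually.of_forall (fun n => rfl)
  · intro k hk
    filter_upwards [eventually_ge_atTop n₁] with n hn
    obtain ⟨_, _, h3, _, h5, _⟩ := h k hk n hn
    unfold MM ee
    rw [Mr_one]
    field_simp
    ring
  · intro r k hk
    filter_upwards [eventually_ge_atTop n₁] with n hn
    obtain ⟨_, _, h3, _, h5, _⟩ := h k hk n hn
    unfold MM ee
    have h6 := Mr_three (Y := ((n + k - 1 : ℕ) : ℝ) + yy k n) (by linarith) r (n + k - 1)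
    have h7 : ((n + k - 1 : ℕ) : ℝ) + yy k n ≠ 0 := by linarith
    rw [one_div, eq_inv_mul_iff_mul_eq₀ h7, h6]
    ring
  · intro k hk
    filter_upwards [eventually_ge_atTop n₁] with n hn
    obtain ⟨_, _, h3, _, h5, _⟩ := h k hk n hn
    rw [nn_eq k n hk]
    unfold ee
    have h7 : ((n + k - 1 : ℕ) : ℝ) + yy k n ≠ 0 := by linarith
    have h8 : ((n + k - 1 : ℕ) : ℝ) ≠ 0 := by
      have : (1 : ℝ) ≤ ((n + k - 1 : ℕ) : ℝ) := by exact_mod_cast (by omega : 1 ≤ n + k - 1)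
      linarith
    field_simp
    ring
  · intro J k hk
    have hKp := KK_pos (by positivity : (0 : ℝ) < 3 * 2 ^ (J + 1 + 1))
    refine IsBigO.of_bound (2 ^ (J + 1 + 1) * KK (3 * 2 ^ (J + 1 + 1)) * 2 ^ (J + 1)) ?_
    filter_upwards [eventually_ge_atTop n₁] with n hn
    obtain ⟨_, h2, h3, h4, h5, h6⟩ := h k hk n hn
    have hn0 : (0 : ℝ) < n := by exact_mod_cast (by omega : 0 < n)
    set N := n + k - 1 with hN
    set Y := ((N : ℕ) : ℝ) + yy k n with hY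
    have h7 := Lam_trunc h3 (N := N) (by rw [hY, add_sub_cancel_left]; exact h2) h4 (J + 1) (n - 2)
    rw [h6, zero_sub, abs_neg] at h7
    have hYy : Y - N = yy k n := by rw [hY]; ring
    have hY0 : Y ≠ 0 := by linarith
    have e : Y * ∑ r ∈ range (2 * (J + 1) + 1), PowerSeries.coeff r (b (n - 2)) * Mr Y r N
        = yy k n + ∑ i ∈ range (2 * J), Bs (i + 3) n
          * ((((i : ℝ) + 2) + yy k n) * MM (i + 2) k n - ((i : ℝ) + 2) * MM (i + 1) k n) := by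
      rw [show 2 * (J + 1) + 1 = 2 * J + 1 + 1 + 1 by ring, Finset.sum_range_succ',
        Finset.sum_range_succ', Finset.sum_range_succ', b_zero, b_one, b_two]
      rw [mul_add, mul_add, mul_add, Finset.mul_sum]
      have e1 : ∀ i ∈ range (2 * J), Y * (PowerSeries.coeff (i + 1 + 1 + 1) (b (n - 2))
          * Mr Y (i + 1 + 1 + 1) N) = Bs (i + 3) n
          * ((((i : ℝ) + 2) + yy k n) * MM (i + 2) k n - ((i : ℝ) + 2) * MM (i + 1) k n) := by
        intro i _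
        have h8 := Mr_three hY0 (i + 1) N
        have h9 : Y * (PowerSeries.coeff (i + 1 + 1 + 1) (b (n - 2)) * Mr Y (i + 1 + 1 + 1) N)
          = PowerSeries.coeff (i + 1 + 1 + 1) (b (n - 2)) * (Y * Mr Y (i + 1 + 2) N) := by ring
        rw [h9, h8]
        unfold Bs MM
        rw [← hN, ← hY, ← hYy]
        push_cast
        ring
      rw [Finset.sum_congr rfl e1, Mr_one, ← hYy]
      field_simp
      ring
    rw [← e, Real.norm_eq_abs, Real.norm_of_nonneg (by positivity), abs_mul,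
      abs_of_pos (by linarith : 0 < Y)]
    set S := |∑ r ∈ range (2 * (J + 1) + 1), PowerSeries.coeff r (b (n - 2)) * Mr Y r N| with hS
    have h10 : Y * S * Y ^ (J + 1) ≤ 2 ^ (J + 1 + 1) * KK (3 * 2 ^ (J + 1 + 1)) := by
      calc Y * S * Y ^ (J + 1) = S * Y ^ (J + 1 + 1) := by ring
        _ ≤ _ := h7
    have h11 : 1 ≤ 2 ^ (J + 1) * (1 / (n : ℝ)) ^ (J + 1) * Y ^ (J + 1) := by
      rw [← mul_pow, ← mul_pow]
      apply one_le_pow₀
      rw [mul_one_div, div_mul_eq_mul_div, le_div_iff₀ hn0]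
      linarith
    have hS0 : 0 ≤ S := abs_nonneg _
    calc Y * S ≤ Y * S * (2 ^ (J + 1) * (1 / (n : ℝ)) ^ (J + 1) * Y ^ (J + 1)) :=
          le_mul_of_one_le_right (by positivity) h11
      _ = (Y * S * Y ^ (J + 1)) * (2 ^ (J + 1) * (1 / (n : ℝ)) ^ (J + 1)) := by ring
      _ ≤ (2 ^ (J + 1 + 1) * KK (3 * 2 ^ (J + 1 + 1))) * (2 ^ (J + 1) * (1 / (n : ℝ)) ^ (J + 1)) := by
          gcongr
      _ = _ := by ring

end Pool.Agent.Helper70.LR
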