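import Pool.Agent.Helper70.LR10

open Filter Topology Finset Asymptotics Polynomial

noncomputable section

namespace Pool.Agent.Helper70.LR

lemma Lnk_ne_zero (n k : ℕ) (hn : 1 ≤ n) (hk : 1 ≤ k) : Lnk n k ≠ 0 := by
  intro h
  obtain ⟨r, _, hr⟩ := Lnk_real_rooted n k hn hk Complex.I (by rw [h]; simp)
  have := congrArg Complex.im hr
  simp at this

lemma Lnk_eval_zero (n k : ℕ) (hk : 1 ≤ k) : (Lnk n k).eval 0 = 0 := by
  unfold Lnk
  obtain ⟨k, rfl⟩ : ∃ j, k = j + 1 := ⟨k - 1, by omega⟩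
  rw [pow_succ, PowerSeries.coeff_mul, eval_finsetSum]
  apply Finset.sum_eq_zero
  intro x _
  rw [eval_mul, F, PowerSeries.coeff_mk, L_eval, mul_zero]

lemma roots_eq (n k : ℕ) (hn : 1 ≤ n) (hk : 1 ≤ k) : {x : ℝ | aeval x (Lnk n k) = 0}
    = {x : ℝ | (Op (n - 1) (X ^ (n + k - 1) : ℝ[X])).eval x = 0} := by
  ext x
  simp only [Set.mem_ofPred_eq]
  rw [Lnk_eq n k hn, map_mul, aeval_C, ← eval_map_algebraMap]
  have h1 : (Op (n - 1) (X ^ (n + k - 1) : ℚ[X])).map (algebraMap ℚ ℝ)
      = Op (n - 1) (X ^ (n + k - 1) : ℝ[X]) := by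
    rw [Op_map]; simp
  rw [h1]
  have h2 : (algebraMap ℚ ℝ) ((-1) ^ (k + 1) * (k : ℚ) / (n.factorial : ℚ)) ≠ 0 := by
    rw [_root_.map_ne_zero]
    have : (k : ℚ) ≠ 0 := by exact_mod_cast (by omega : k ≠ 0)
    apply div_ne_zero
    · exact mul_ne_zero (pow_ne_zero _ (by norm_num)) this
    · exact_mod_cast n.factorial_ne_zero
  constructor
  · intro h
    rcases mul_eq_zero.mp h with h | h
    · exact absurd h h2
    · exact h
  · intro h
    rw [h, mul_zero]

lemma isGreatest_root (n k : ℕ) (hn : 1 ≤ n) (hk : 1 ≤ k) :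
    IsGreatest {x : ℝ | aeval x (Lnk n k) = 0} (rho k n) := by
  have h1 : rho k n = sSup {x : ℝ | aeval x (Lnk n k) = 0} := by
    rw [roots_eq n k hn hk]; rfl
  rw [h1]
  have hfin : {x : ℝ | aeval x (Lnk n k) = 0}.Finite := by
    have h2 := Lnk_ne_zero n k hn hk
    have h3 : (Lnk n k).map (algebraMap ℚ ℝ) ≠ 0 := by
      rwa [Ne, Polynomial.map_eq_zero]
    refine ((Lnk n k).map (algebraMap ℚ ℝ)).roots.toFinset.finite_toSet.subset ?_
    intro x hx
    rw [Set.mem_ofPred_eq, ← eval_map_algebraMap] at hx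
    simp only [Finset.mem_coe, Multiset.mem_toFinset]
    exact (mem_roots h3).mpr hx
  have hne : {x : ℝ | aeval x (Lnk n k) = 0}.Nonempty := by
    refine ⟨0, ?_⟩
    have h4 : aeval (0 : ℝ) (Lnk n k) = algebraMap ℚ ℝ ((Lnk n k).eval 0) := by
      rw [← aeval_algebraMap_apply_eq_algebraMap_eval, map_zero]
    rw [Set.mem_ofPred_eq, h4, Lnk_eval_zero n k hk, map_zero]
  exact ⟨hne.csSup_mem hfin, fun x hx => le_csSup hfin.bddAbove hx⟩

/-- uniqueness of expansions -/
lemma uniq {J : ℕ} {Q : ℝ[X]} (h : (fun n : ℕ => Q.eval (1 / (n : ℝ))) =O[atTop]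
    (fun n : ℕ => (1 / (n : ℝ)) ^ J)) (i : ℕ) (hi : i < J) : Q.coeff i = 0 := by
  induction i using Nat.strong_induction_on with
  | _ i ih =>
    obtain ⟨R, hR⟩ := X_pow_dvd_iff.mpr (fun d (hd : d < i) => ih d hd (by omega))
    have h1 : Q.coeff i = R.eval 0 := by
      rw [hR, ← coeff_zero_eq_eval_zero]
      have := coeff_X_pow_mul R i 0
      rwa [zero_add] at this
    have h2 : Tendsto (fun n : ℕ => R.eval (1 / (n : ℝ))) atTop (𝓝 (R.eval 0)) :=
      (R.continuous.tendsto 0).comp tendsto_one_div_atTop_nhds_zero_nat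
    have h3 : (fun n : ℕ => R.eval (1 / (n : ℝ))) =O[atTop]
        (fun n : ℕ => (1 / (n : ℝ)) ^ (J - i)) := by
      obtain ⟨c, hc⟩ := h.bound
      refine IsBigO.of_bound c ?_
      filter_upwards [hc, eventually_ge_atTop 1] with n hn hn1
      have hn0 : (0 : ℝ) < n := by exact_mod_cast (by omega : 0 < n)
      have hp : 0 < (1 / (n : ℝ)) ^ i := by positivity
      have e1 : (1 / (n : ℝ)) ^ J = (1 / (n : ℝ)) ^ i * (1 / (n : ℝ)) ^ (J - i) := by
        rw [← pow_add]; congr 1; omega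
      rw [hR, eval_mul, eval_pow, eval_X, e1, norm_mul, norm_mul,
        Real.norm_of_nonneg hp.le] at hn
      have : (1 / (n : ℝ)) ^ i * ‖R.eval (1 / (n : ℝ))‖
          ≤ (1 / (n : ℝ)) ^ i * (c * ‖(1 / (n : ℝ)) ^ (J - i)‖) := by linarith
      exact le_of_mul_le_mul_left this hp
    have h4 : Tendsto (fun n : ℕ => (1 / (n : ℝ)) ^ (J - i)) atTop (𝓝 0) := by
      have h5 : Tendsto (fun n : ℕ => (1 / (n : ℝ)) ^ (J - i)) atTop (𝓝 (0 ^ (J - i))) :=
        tendsto_one_div_atTop_nhds_zero_nat.pow (J - i)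
      rwa [zero_pow (by omega)] at h5
    rw [h1]
    exact tendsto_nhds_unique h2 (h3.trans_tendsto h4)

lemma poly_eq_zero_of_nat {p : ℝ[X]} (h : ∀ k : ℕ, 1 ≤ k → p.eval (k : ℝ) = 0) : p = 0 := by
  apply eq_zero_of_infinite_isRoot
  have h1 : Set.Infinite (Set.range (fun k : ℕ => ((k + 1 : ℕ) : ℝ))) :=
    Set.infinite_range_of_injective (fun a b hab => by
      have h2 : a + 1 = b + 1 := Nat.cast_injective hab
      omega)
  refine h1.mono ?_
  rintro _ ⟨k, rfl⟩
  exact h (k + 1) (by omega)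

/-- the deviation -/
def dev (k n : ℕ) : ℝ := rho k n - ((n : ℝ) + Real.log n + Real.eulerMascheroniConstant + k - 1)

lemma dev_eq (k n : ℕ) (hk : 1 ≤ k) : dev k n
    = (Hm (n - 2) - Real.log (n : ℝ) - Real.eulerMascheroniConstant) + yy k n := by
  unfold dev yy
  rw [Nat.cast_sub (by omega)]
  push_cast
  ring

lemma lam_exists : ∃ lam : ℝ, lam < 0 ∧ Ex 2 (fun k n => yy k n - lam * nn k n) := by
  obtain ⟨β₃, h3, h3'⟩ := Ex_of_diff (Bs_all 3).2
  obtain ⟨β₄, h4, h4'⟩ := Ex_of_diff (Bs_all 4).2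
  refine ⟨2 * β₃ - 3 * β₄, ?_, dat.second h3' h4'⟩
  have h5 : β₃ ≤ -(1 / 2) := by
    refine le_of_tendsto h3 ?_
    filter_upwards [eventually_ge_atTop 3] with n hn
    unfold Bs
    rw [b_three]
    have : (1 : ℝ) ≤ ∑ l ∈ range (n - 2), (1 / ((l : ℝ) + 1)) ^ 2 := by
      have := Finset.single_le_sum (s := range (n - 2)) (f := fun l : ℕ => (1 / ((l : ℝ) + 1)) ^ 2)
        (fun i _ => by positivity) (Finset.mem_range.mpr (by omega : 0 < n - 2))
      simpa using this
    linarith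
  have h6 : 0 ≤ β₄ := by
    refine ge_of_tendsto h4 (Eventually.of_forall (fun n => ?_))
    unfold Bs
    rw [b_four]
    positivity
  linarith

lemma OO_nu (z : ℝ[X]) (J : ℕ) :
    OO J (fun k n => 1 / ((n : ℝ) + z.eval (k : ℝ)) - ev k n (nuP z J)) := by
  intro k _
  have h1 : (fun n : ℕ => 1 / ((n : ℝ) + z.eval (k : ℝ))) =O[atTop] (fun _ : ℕ => (1 : ℝ)) := by
    apply Tendsto.isBigO_one (F := ℝ) (c := 0)
    have h2 : Tendsto (fun n : ℕ => (n : ℝ) + z.eval (k : ℝ)) atTop atTop :=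
      tendsto_atTop_add_const_right _ _ tendsto_natCast_atTop_atTop
    have h3 := h2.inv_tendsto_atTop
    refine h3.congr (fun n => ?_)
    simp [Pi.inv_apply]
  have h3 : (fun n : ℕ => (-(z.eval (k : ℝ)) * (1 / (n : ℝ))) ^ J) =O[atTop]
      (fun n : ℕ => (1 / (n : ℝ)) ^ J) := by
    apply IsBigO.pow
    exact isBigO_const_mul_self _ _ _
  have h4 := h3.mul h1
  simp only [mul_one] at h4
  refine h4.congr' ?_ EventuallyEq.rfl
  have h5 : ∀ᶠ n : ℕ in atTop, (0 : ℝ) < n + z.eval (k : ℝ) := by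
    have h2 : Tendsto (fun n : ℕ => (n : ℝ) + z.eval (k : ℝ)) atTop atTop :=
      tendsto_atTop_add_const_right _ _ tendsto_natCast_atTop_atTop
    exact h2.eventually_gt_atTop 0
  filter_upwards [h5, eventually_gt_atTop 0] with n hn hn0
  exact (ev_nuP z J k n (by exact_mod_cast hn0) hn).symm

lemma ev_eq (k n : ℕ) (P : ℝ[X][X]) :
    ev k n P = (P.map (evalRingHom (k : ℝ))).eval (1 / (n : ℝ)) := rfl

lemma ev_map_C (k n : ℕ) (P : ℝ[X]) : ev k n (P.map C) = P.eval (1 / (n : ℝ)) := by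
  rw [ev_eq, Polynomial.map_map]
  have : (evalRingHom (k : ℝ)).comp C = RingHom.id ℝ := by ext x; simp
  rw [this, Polynomial.map_id]

theorem expansion : ∃ C : ℕ → ℝ[X], (∀ m, (C m).degree = m) ∧
    ∀ k : ℕ, 1 ≤ k → ∀ M : ℕ,
      (fun n : ℕ => dev k n - ∑ m ∈ Finset.range (M + 1), (C m).eval (k : ℝ) / (n : ℝ) ^ (m + 1))
        =O[atTop] (fun n : ℕ => 1 / (n : ℝ) ^ (M + 2)) := by
  obtain ⟨lam, hlam, hw⟩ := lam_exists
  -- polynomials at every level
  have key : ∀ J, 1 ≤ J → ∃ P : ℝ[X][X], P.coeff 0 = 0 ∧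
      (∀ m, m < J → (P.coeff (m + 1)).degree = m) ∧ OO J (fun k n => dev k n - ev k n P) := by
    intro J hJ
    obtain ⟨Ph, hPh, hPhO⟩ := (Hs_Ex (J + 1)).seq
    obtain ⟨Pw, hPw, hPwO⟩ := hw J
    refine ⟨Ph.map C + (C (C lam) * nuP (X - C 1) J + Pw), ?_, ?_, ?_⟩
    · rw [coeff_add, coeff_add, coeff_map, hPh 0 (by omega), coeff_C_mul, nuP_coeff_zero,
        hPw.coeff_eq_zero (by omega)]
      simp
    · intro m hm
      have h1 : (Ph.map C + (C (C lam) * nuP (X - C 1) J + Pw)).coeff (m + 1)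
          = C (Ph.coeff (m + 1)) + (C lam * (-(X - C 1)) ^ m + Pw.coeff (m + 1)) := by
        rw [coeff_add, coeff_add, coeff_map, coeff_C_mul, nuP_coeff, if_pos hm]
      rw [h1]
      have h2 : (C lam * (-(X - C 1)) ^ m : ℝ[X]).degree = m := by
        rw [degree_mul, degree_C hlam.ne, degree_pow, degree_neg, degree_X_sub_C]
        simp
      rcases m with _ | m
      · have h3 : Pw.coeff (0 + 1) = 0 := hPw.coeff_eq_zero (by omega)
        rw [h3]
        simp only [pow_zero, mul_one, add_zero, zero_add]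
        rw [← C_add]
        apply degree_C
        -- the first coefficient of the harmonic part is nonpositive
        have h4 : Ph.coeff 1 ≤ 0 := by
          have h5 : Tendsto (fun n : ℕ => (n : ℝ) * (Hm (n - 2) - Real.log (n : ℝ)
              - Real.eulerMascheroniConstant)) atTop (𝓝 (Ph.coeff 1)) := by
            obtain ⟨R, hR⟩ := X_pow_dvd_iff.mpr (fun d (hd : d < 1) => hPh d hd)
            have h6 : Ph.coeff 1 = R.eval 0 := by
              rw [hR, ← coeff_zero_eq_eval_zero]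
              have := coeff_X_pow_mul R 1 0
              rwa [zero_add] at this
            have h7 : Tendsto (fun n : ℕ => R.eval (1 / (n : ℝ))) atTop (𝓝 (R.eval 0)) :=
              (R.continuous.tendsto 0).comp tendsto_one_div_atTop_nhds_zero_nat
            have h8 : (fun n : ℕ => (n : ℝ) * ((Hm (n - 2) - Real.log (n : ℝ)
                - Real.eulerMascheroniConstant) - Ph.eval (1 / (n : ℝ)))) =O[atTop]
                (fun n : ℕ => (1 / (n : ℝ)) ^ J) := by
              have h9 := (isBigO_refl (fun n : ℕ => (n : ℝ)) atTop).mul hPhO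
              refine h9.congr' EventuallyEq.rfl ?_
              filter_upwards [eventually_ge_atTop 1] with n hn1
              have hn0 : (0 : ℝ) < n := by exact_mod_cast (by omega : 0 < n)
              rw [pow_succ]
              field_simp
            have h10 : Tendsto (fun n : ℕ => (1 / (n : ℝ)) ^ J) atTop (𝓝 0) := by
              have h5 : Tendsto (fun n : ℕ => (1 / (n : ℝ)) ^ J) atTop (𝓝 (0 ^ J)) :=
                tendsto_one_div_atTop_nhds_zero_nat.pow J
              rwa [zero_pow (by omega)] at h5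
            have h11 := (h8.trans_tendsto h10).add h7
            rw [zero_add, ← h6] at h11
            refine h11.congr' ?_
            filter_upwards [eventually_ge_atTop 1] with n hn1
            have hn0 : (0 : ℝ) < n := by exact_mod_cast (by omega : 0 < n)
            rw [hR, eval_mul, eval_pow, eval_X]
            field_simp
            ring
          refine le_of_tendsto h5 ?_
          filter_upwards [eventually_ge_atTop 2] with n hn
          exact mul_nonpos_of_nonneg_of_nonpos (by positivity) (Hs_neg n hn).le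
        linarith
      · have h3 : (Pw.coeff (m + 1 + 1)).degree < ((m + 1 : ℕ) : WithBot ℕ) := by
          rw [degree_lt_iff_coeff_zero]
          intro j hj
          exact hPw _ _ (by omega)
        have h4 : (C lam * (-(X - C 1)) ^ (m + 1) + Pw.coeff (m + 1 + 1) : ℝ[X]).degree
            = ((m + 1 : ℕ) : WithBot ℕ) := by
          rw [degree_add_eq_left_of_degree_lt (by rw [h2]; exact h3), h2]
        rw [degree_add_eq_right_of_degree_lt, h4]
        rw [h4]
        refine degree_C_le.trans_lt ?_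
        exact_mod_cast Nat.succ_pos m
    · have e1 : OO J (fun _ n => (Hm (n - 2) - Real.log (n : ℝ) - Real.eulerMascheroniConstant)
          - Ph.eval (1 / (n : ℝ))) := by
        have h1 : OO (J + 1) (fun _ n => (Hm (n - 2) - Real.log (n : ℝ)
          - Real.eulerMascheroniConstant) - Ph.eval (1 / (n : ℝ))) := fun _ _ => hPhO
        exact h1.mono (by omega)
      have e2 : OO J (fun k n => lam * (nn k n - ev k n (nuP (X - C 1) J))) := by
        have h1 := (OO_const lam).mul (OO_nu (X - C 1) J)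
        rw [zero_add] at h1
        exact h1
      refine ((e1.add e2).add hPwO).congr (fun k hk => Eventually.of_forall (fun n => ?_))
      rw [dev_eq k n hk, map_add, map_add, map_mul, ev_map_C]
      have e3 : ev k n (C (C lam)) = lam := by simp [ev]
      rw [e3]
      ring
  choose! P hP0 hPdeg hPO using key
  have hcoh : ∀ J J', 1 ≤ J → J ≤ J' → ∀ i, i < J → (P J).coeff i = (P J').coeff i := by
    intro J J' hJ hJJ' i hi
    rw [← sub_eq_zero]
    apply poly_eq_zero_of_nat
    intro k hk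
    have h1 : (fun n : ℕ => ((P J - P J').map (evalRingHom (k : ℝ))).eval (1 / (n : ℝ)))
        =O[atTop] (fun n : ℕ => (1 / (n : ℝ)) ^ J) := by
      have h2 := ((hPO J' (by omega)).mono hJJ').sub (hPO J hJ)
      refine (h2 k hk).congr_left (fun n => ?_)
      rw [← ev_eq, map_sub]
      ring
    have h3 := uniq h1 i hi
    rw [coeff_map, coeff_sub] at h3
    exact h3
  refine ⟨fun m => (P (m + 2)).coeff (m + 1), fun m => hPdeg (m + 2) (by omega) m (by omega), ?_⟩
  intro k hk M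
  have h1 := hPO (M + 2) (by omega) k hk
  have h2 : ∀ l < M + 2, ((P (M + 2)).map (evalRingHom (k : ℝ)) - ∑ m ∈ Finset.range (M + 1),
      C (((P (m + 2)).coeff (m + 1)).eval (k : ℝ)) * X ^ (m + 1) : ℝ[X]).coeff l = 0 := by
    intro l hl
    rw [coeff_sub, coeff_map, finsetSum_coeff]
    simp only [coeff_C_mul, coeff_X_pow]
    rcases l with _ | l
    · rw [hP0 (M + 2) (by omega), map_zero]
      simp
    · rw [Finset.sum_eq_single l]
      · rw [hcoh (l + 2) (M + 2) (by omega) (by omega) (l + 1) (by omega)]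
        simp
      · intro m _ hm
        rw [if_neg (by omega), mul_zero]
      · intro h
        exact absurd (Finset.mem_range.mpr (by omega)) h
  have h3 := poly_O h2
  have h4 := h1.add h3
  refine h4.congr (fun n => ?_) (fun n => ?_)
  · change (dev k n - ev k n (P (M + 2))) + _ = dev k n - ∑ m ∈ Finset.range (M + 1),
      ((P (m + 2)).coeff (m + 1)).eval (k : ℝ) / (n : ℝ) ^ (m + 1)
    rw [eval_sub, ev_eq, eval_finsetSum]
    have e4 : ∑ i ∈ Finset.range (M + 1), (C (((P (i + 2)).coeff (i + 1)).eval (k : ℝ))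
        * X ^ (i + 1) : ℝ[X]).eval (1 / (n : ℝ))
        = ∑ m ∈ Finset.range (M + 1), ((P (m + 2)).coeff (m + 1)).eval (k : ℝ) / (n : ℝ) ^ (m + 1) := by
      apply Finset.sum_congr rfl
      intro i _
      rw [eval_mul, eval_C, eval_pow, eval_X, one_div, inv_pow, div_eq_mul_inv]
    rw [e4]
    ring
  · rw [one_div, inv_pow, one_div]

/-- the full statement -/
theorem main :
    (∀ k n : ℕ, 1 ≤ k → 1 ≤ n → ∀ z : ℂ, aeval z (Lnk n k) = 0 → ∃ r : ℝ, 0 ≤ r ∧ z = r) ∧
    ∃ (ρ : ℕ → ℕ → ℝ) (C : ℕ → ℝ[X]),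
      (∀ k n : ℕ, 1 ≤ k → 1 ≤ n → IsGreatest {x : ℝ | aeval x (Lnk n k) = 0} (ρ n k)) ∧
      (∀ m : ℕ, (C m).degree = m) ∧
      ∀ k : ℕ, 1 ≤ k → ∀ M : ℕ,
        (fun n : ℕ => ρ n k
            - ((n : ℝ) + Real.log n + Real.eulerMascheroniConstant + k - 1)
            - ∑ m ∈ Finset.range (M + 1), (C m).eval (k : ℝ) / (n : ℝ) ^ (m + 1))
          =O[atTop] (fun n : ℕ => 1 / (n : ℝ) ^ (M + 2)) := by
  obtain ⟨C, hC, hexp⟩ := expansion
  exact ⟨fun k n hk hn z hz => Lnk_real_rooted n k hn hk z hz, fun n k => rho k n, C,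
    fun k n hk hn => isGreatest_root n k hn hk, hC, fun k hk M => hexp k hk M⟩

end Pool.Agent.Helper70.LR
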