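import Mathlib

open Polynomial Filter Topology Finset

noncomputable section

namespace Pool.Agent.Helper70.LR

/-! ### The quantities `Y^{-N} (1-D)^r Y^N` -/

/-- `Y^{-N} (1-D)^r Y^N` -/
def Mr (Y : ℝ) : ℕ → ℕ → ℝ
  | 0, _ => 1
  | r + 1, N => Mr Y r N - (N / Y) * Mr Y r (N - 1)

lemma Mr_zero (Y : ℝ) (N : ℕ) : Mr Y 0 N = 1 := rfl

lemma Mr_succ (Y : ℝ) (r N : ℕ) : Mr Y (r + 1) N = Mr Y r N - (N / Y) * Mr Y r (N - 1) := rfl

lemma Mr_one (Y : ℝ) (N : ℕ) : Mr Y 1 N = 1 - N / Y := by simp [Mr]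

lemma Mr_N_zero (Y : ℝ) (r : ℕ) : Mr Y r 0 = 1 := by
  induction r with
  | zero => rfl
  | succ r ih => simp [Mr, ih]

/-- three-term recurrence -/
lemma Mr_three {Y : ℝ} (hY : Y ≠ 0) (r N : ℕ) :
    Y * Mr Y (r + 2) N = (r + 1 + Y - N) * Mr Y (r + 1) N - (r + 1) * Mr Y r N := by
  induction r generalizing N with
  | zero =>
    rcases N with _ | N
    · simp [Mr_N_zero]
    · rw [Mr_succ, Mr_one, Mr_zero]
      have : N + 1 - 1 = N := rfl
      rw [this, Mr_one]
      push_cast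
      field_simp
      ring
  | succ r ih =>
    rcases N with _ | N
    · simp [Mr_N_zero]
    · have h1 := ih (N + 1)
      have h2 := ih N
      have e : N + 1 - 1 = N := rfl
      have h3 := Mr_succ Y (r + 2) (N + 1)
      have h4 := Mr_succ Y (r + 1) (N + 1)
      have h5 := Mr_succ Y r (N + 1)
      rw [e] at h3 h4 h5
      push_cast at h1 h2 h3 h4 h5 ⊢
      have e3 : r + 1 + 2 = r + 2 + 1 := rfl
      have e4 : r + 1 + 1 = r + 2 := rfl
      rw [e3, h3, e4]
      have key : Y * (((N : ℝ) + 1) / Y * Mr Y (r + 2) N)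
          = ((N : ℝ) + 1) / Y * ((r + 1 + Y - N) * Mr Y (r + 1) N - (r + 1) * Mr Y r N) := by
        rw [← h2]; ring
      have e5 : r + 1 + 1 = r + 2 := rfl
      rw [e5] at h4
      rw [mul_sub, key]
      linear_combination h1 + (-(r : ℝ) - 2 - Y + N + 1) * h4 + ((r : ℝ) + 1) * h5

lemma Mr_up' {Y : ℝ} (hY : Y ≠ 0) (r N : ℕ) :
    Y * (Mr Y (r + 1) (N + 1) - Mr Y (r + 1) N) = -(r + 1) * Mr Y r N := by
  induction r generalizing N with
  | zero =>
    rw [Mr_one, Mr_one, Mr_zero]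
    push_cast
    field_simp
    ring
  | succ r ih =>
    have h1 := Mr_three hY r (N + 1)
    have h2 := Mr_three hY r N
    have h3 := ih N
    have h4 : Mr Y (r + 1) (N + 1) = Mr Y r (N + 1) - ((N + 1 : ℕ) / Y) * Mr Y r N :=
      Mr_succ Y r (N + 1)
    have e : r + 1 + 1 = r + 2 := rfl
    rw [e, mul_sub, h1, h2]
    have h5 : Mr Y (r + 1) (N + 1) = Mr Y (r + 1) N - ((r + 1) / Y) * Mr Y r N := by
      field_simp
      linear_combination h3
    have h6 : Mr Y r (N + 1) = Mr Y (r + 1) (N + 1) + ((N + 1 : ℕ) / Y) * Mr Y r N := by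
      rw [h4]; ring
    rw [h6, h5]
    push_cast
    field_simp
    ring

/-- recurrence in `N` -/
lemma Mr_up {Y : ℝ} (hY : Y ≠ 0) (s N : ℕ) :
    Mr Y s (N + 1) = Mr Y s N - (s / Y) * Mr Y (s - 1) N := by
  rcases s with _ | s
  · simp [Mr_zero]
  · have := Mr_up' hY s N
    have e : s + 1 - 1 = s := rfl
    rw [e]
    push_cast
    field_simp
    linear_combination this

lemma Mr_abs_le {Y : ℝ} (hY : 0 < Y) (r N : ℕ) : |Mr Y r N| ≤ (1 + N / Y) ^ r := by
  induction r generalizing N with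
  | zero => simp [Mr_zero]
  | succ r ih =>
    rw [Mr_succ, pow_succ]
    have h1 := ih N
    have h2 := ih (N - 1)
    have h3 : ((N - 1 : ℕ) : ℝ) ≤ N := by exact_mod_cast Nat.sub_le N 1
    have h4 : (0 : ℝ) ≤ ((N - 1 : ℕ) : ℝ) / Y := by positivity
    have h5 : (1 + ((N - 1 : ℕ) : ℝ) / Y) ^ r ≤ (1 + (N : ℝ) / Y) ^ r := by
      gcongr
    have h6 : (0 : ℝ) ≤ (N : ℝ) / Y := by positivity
    calc |Mr Y r N - (N / Y) * Mr Y r (N - 1)|
        ≤ |Mr Y r N| + |(N / Y) * Mr Y r (N - 1)| := abs_sub _ _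
      _ = |Mr Y r N| + (N / Y) * |Mr Y r (N - 1)| := by rw [abs_mul, abs_of_nonneg h6]
      _ ≤ (1 + N / Y) ^ r + (N / Y) * (1 + N / Y) ^ r := by
          gcongr
          exact h2.trans h5
      _ = (1 + N / Y) ^ r * (1 + N / Y) := by ring

/-- translation formula -/
lemma hasSum_translate {Y h : ℝ} (hY : 0 < Y) (hh : 0 ≤ h) (r N : ℕ) :
    HasSum (fun j : ℕ => (-h) ^ j / j.factorial * Mr Y (r + j) N)
      (Real.exp (-h) * Mr (Y + h) r N * ((Y + h) / Y) ^ N) := by
  have hYh : 0 < Y + h := by linarith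
  induction N generalizing r with
  | zero =>
    simp only [Mr_N_zero, mul_one, pow_zero]
    have := NormedSpace.expSeries_div_hasSum_exp (-h)
    rwa [← Real.exp_eq_exp_ℝ] at this
  | succ N ih =>
    -- the three series
    have s1 := ih r
    have s3 : HasSum (fun j : ℕ => (j : ℝ) * ((-h) ^ j / j.factorial) * Mr Y (r + j - 1) N)
        ((-h) * (Real.exp (-h) * Mr (Y + h) r N * ((Y + h) / Y) ^ N)) := by
      rw [← hasSum_nat_add_iff' 1]
      simp only [Finset.range_one, Finset.sum_singleton, Nat.cast_zero, zero_mul, sub_zero]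
      refine (s1.mul_left (-h)).congr_fun ?_
      intro j
      have e : r + (j + 1) - 1 = r + j := by omega
      rw [e, Nat.factorial_succ, pow_succ]
      push_cast
      have : ((j : ℝ) + 1) ≠ 0 := by positivity
      field_simp
    rcases r with _ | r
    · have s : HasSum (fun j : ℕ => (-h) ^ j / j.factorial * Mr Y (0 + j) (N + 1))
          (Real.exp (-h) * Mr (Y + h) 0 N * ((Y + h) / Y) ^ N
            - (1 / Y) * ((-h) * (Real.exp (-h) * Mr (Y + h) 0 N * ((Y + h) / Y) ^ N))) := by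
        refine (s1.sub (s3.mul_left (1 / Y))).congr_fun ?_
        intro j
        rw [Mr_up hY.ne' (0 + j) N]
        push_cast
        ring
      convert s using 1
      rw [Mr_zero, Mr_zero, pow_succ]
      field_simp
      ring
    · have s2 := ih r
      have s : HasSum (fun j : ℕ => (-h) ^ j / j.factorial * Mr Y (r + 1 + j) (N + 1))
          (Real.exp (-h) * Mr (Y + h) (r + 1) N * ((Y + h) / Y) ^ N
            - ((r + 1) / Y) * (Real.exp (-h) * Mr (Y + h) r N * ((Y + h) / Y) ^ N)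
            - (1 / Y) * ((-h) * (Real.exp (-h) * Mr (Y + h) (r + 1) N * ((Y + h) / Y) ^ N))) := by
        refine ((s1.sub (s2.mul_left ((r + 1) / Y))).sub (s3.mul_left (1 / Y))).congr_fun ?_
        intro j
        rw [Mr_up hY.ne' (r + 1 + j) N]
        have e : r + 1 + j - 1 = r + j := by omega
        rw [e]
        push_cast
        ring
      convert s using 1
      rw [Mr_up hYh.ne' (r + 1) N, pow_succ]
      have e : r + 1 - 1 = r := rfl
      rw [e]
      push_cast
      field_simp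
      ring

end Pool.Agent.Helper70.LR
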