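import Pool.Agent.Helper70.LR1
import Pool.Agent.Helper70.LR3

open Filter Topology Finset

noncomputable section

namespace Pool.Agent.Helper70.LR

open PowerSeries in
/-- coefficients of `exp (-h w)` -/
def ex (h : ℝ) : PowerSeries ℝ := PowerSeries.mk fun j => (-h) ^ j / j.factorial

/-- coefficients of `(1 + h w) exp (-h w)` -/
def eh (h : ℝ) : PowerSeries ℝ := PowerSeries.mk fun j => (-h) ^ j / j.factorial * (1 - j)

lemma eh_eq (h : ℝ) : eh h = (1 + PowerSeries.C h * PowerSeries.X) * ex h := by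
  ext1 n
  rw [add_mul, one_mul, map_add, mul_assoc, PowerSeries.coeff_C_mul]
  rcases n with _ | n
  · simp [eh, ex]
  · rw [PowerSeries.coeff_succ_X_mul]
    simp only [eh, ex, PowerSeries.coeff_mk]
    rw [Nat.factorial_succ, pow_succ]
    push_cast
    have : ((n : ℝ) + 1) ≠ 0 := by positivity
    field_simp
    ring

/-- the sequence of power series `w ∏_{l ≤ m} (1 + w/l) exp(-w/l)` -/
def b : ℕ → PowerSeries ℝ
  | 0 => PowerSeries.X
  | m + 1 => b m * eh (1 / (m + 1))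

/-- weighted absolute summability with bound `K` -/
def Bd (ρ K : ℝ) (a : PowerSeries ℝ) : Prop :=
  ∃ S ≤ K, HasSum (fun r => |PowerSeries.coeff r a| * ρ ^ r) S

lemma tsum_antidiag {f : ℕ × ℕ → ℝ} {S : ℝ} (hf : HasSum f S) :
    HasSum (fun n => ∑ kl ∈ antidiagonal n, f kl) S := by
  have h1 : HasSum (f ∘ Finset.HasAntidiagonal.sigmaAntidiagonalEquivProd) S :=
    (Finset.HasAntidiagonal.sigmaAntidiagonalEquivProd.hasSum_iff).mpr hf
  refine h1.sigma (g := fun n => ∑ kl ∈ antidiagonal n, f kl) (fun n => ?_)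
  have h2 := hasSum_fintype (fun c : antidiagonal n => f c.1)
  rw [Finset.sum_coe_sort (antidiagonal n) (fun c => f c)] at h2
  exact h2

lemma Bd.mul {ρ K K' : ℝ} (hρ : 0 ≤ ρ) {a a' : PowerSeries ℝ} (h : Bd ρ K a) (h' : Bd ρ K' a') :
    Bd ρ (K * K') (a * a') := by
  obtain ⟨S, hS, hs⟩ := h
  obtain ⟨S', hS', hs'⟩ := h'
  have hS0 : 0 ≤ S := hs.nonneg (fun r => by positivity)
  have hS0' : 0 ≤ S' := hs'.nonneg (fun r => by positivity)
  have hprod : HasSum (fun p : ℕ × ℕ => (|PowerSeries.coeff p.1 a| * ρ ^ p.1)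
      * (|PowerSeries.coeff p.2 a'| * ρ ^ p.2)) (S * S') :=
    hs.mul hs' (hs.summable.mul_of_nonneg hs'.summable (fun r => by positivity)
      (fun r => by positivity))
  have h1 := tsum_antidiag hprod
  have hle : ∀ r, |PowerSeries.coeff r (a * a')| * ρ ^ r
      ≤ ∑ p ∈ antidiagonal r, (|PowerSeries.coeff p.1 a| * ρ ^ p.1)
      * (|PowerSeries.coeff p.2 a'| * ρ ^ p.2) := by
    intro r
    rw [PowerSeries.coeff_mul]
    calc |∑ p ∈ antidiagonal r, PowerSeries.coeff p.1 a * PowerSeries.coeff p.2 a'| * ρ ^ r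
        ≤ (∑ p ∈ antidiagonal r, |PowerSeries.coeff p.1 a * PowerSeries.coeff p.2 a'|) * ρ ^ r := by
          gcongr
          exact Finset.abs_sum_le_sum_abs _ _
      _ = _ := by
          rw [Finset.sum_mul]
          apply Finset.sum_congr rfl
          intro p hp
          rw [Finset.HasAntidiagonal.mem_antidiagonal] at hp
          rw [← hp, abs_mul, pow_add]
          ring
  have hsum : Summable (fun r => |PowerSeries.coeff r (a * a')| * ρ ^ r) :=
    Summable.of_nonneg_of_le (fun r => by positivity) hle h1.summable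
  refine ⟨_, ?_, hsum.hasSum⟩
  have h2 := hasSum_le hle hsum.hasSum h1
  refine h2.trans ?_
  exact mul_le_mul hS hS' hS0' (hS0.trans hS)

lemma Bd_X {ρ : ℝ} : Bd ρ ρ PowerSeries.X := by
  refine ⟨ρ, le_rfl, ?_⟩
  have := hasSum_single (f := fun r => |PowerSeries.coeff r (PowerSeries.X : PowerSeries ℝ)| * ρ ^ r) 1
    (fun r hr => by simp [PowerSeries.coeff_X, hr])
  simpa [PowerSeries.coeff_X] using this

lemma Bd_lin {h : ℝ} (hh0 : 0 < h) :
    Bd 3 (1 + 3 * h) (1 + PowerSeries.C h * PowerSeries.X) := by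
  refine ⟨1 + 3 * h, le_rfl, ?_⟩
  have h0 : ∀ r, r ∉ Finset.range 2 → |PowerSeries.coeff r (1 + PowerSeries.C h
      * PowerSeries.X : PowerSeries ℝ)| * 3 ^ r = 0 := by
    intro r hr
    rw [Finset.mem_range, not_lt] at hr
    rw [map_add, PowerSeries.coeff_C_mul, PowerSeries.coeff_one, PowerSeries.coeff_X,
      if_neg (by omega), if_neg (by omega)]
    simp
  have : HasSum (fun r => |PowerSeries.coeff r (1 + PowerSeries.C h
      * PowerSeries.X : PowerSeries ℝ)| * 3 ^ r) (∑ r ∈ Finset.range 2,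
        |PowerSeries.coeff r (1 + PowerSeries.C h * PowerSeries.X : PowerSeries ℝ)| * 3 ^ r) :=
    hasSum_sum_of_ne_finset_zero h0
  convert this using 1
  rw [Finset.sum_range_succ, Finset.sum_range_succ, Finset.sum_range_zero]
  simp only [map_add, PowerSeries.coeff_C_mul, PowerSeries.coeff_one, PowerSeries.coeff_X]
  norm_num
  rw [abs_of_pos hh0]; ring

lemma Bd_ex {ρ h : ℝ} (hh : 0 ≤ h) : Bd ρ (Real.exp (h * ρ)) (ex h) := by
  refine ⟨_, le_rfl, ?_⟩
  have := NormedSpace.expSeries_div_hasSum_exp (h * ρ)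
  rw [← Real.exp_eq_exp_ℝ] at this
  refine this.congr_fun (fun j => ?_)
  simp only [ex, PowerSeries.coeff_mk]
  rw [abs_div, abs_pow, abs_neg, abs_of_nonneg hh, Nat.abs_cast, mul_pow]
  ring

lemma Bd_eh {ρ h : ℝ} (hρ : 0 ≤ ρ) (hh : 0 ≤ h) (hh1 : h ≤ 1) :
    Bd ρ (1 + h ^ 2 * (ρ ^ 2 * Real.exp ρ)) (eh h) := by
  have h1 : HasSum (fun j : ℕ => ρ ^ j / j.factorial) (Real.exp ρ) := by
    have := NormedSpace.expSeries_div_hasSum_exp ρ
    rwa [← Real.exp_eq_exp_ℝ] at this
  -- majorant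
  let M : ℕ → ℝ := fun j => if j = 0 then 1 else if j = 1 then 0 else
    h ^ 2 * ρ ^ 2 * (ρ ^ (j - 2) / (j - 2).factorial)
  have hM : HasSum M (1 + h ^ 2 * (ρ ^ 2 * Real.exp ρ)) := by
    rw [← hasSum_nat_add_iff' 2]
    have e : (1 + h ^ 2 * (ρ ^ 2 * Real.exp ρ)) - ∑ i ∈ range 2, M i
        = h ^ 2 * ρ ^ 2 * Real.exp ρ := by
      simp [Finset.sum_range_succ, M]
      ring
    rw [e]
    refine (h1.mul_left (h ^ 2 * ρ ^ 2)).congr_fun (fun j => ?_)
    simp only [M, Nat.add_sub_cancel]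
    rw [if_neg (by omega), if_neg (by omega)]
  have hle : ∀ j, |PowerSeries.coeff j (eh h)| * ρ ^ j ≤ M j := by
    intro j
    simp only [eh, PowerSeries.coeff_mk]
    rcases j with _ | _ | j
    · simp [M]
    · simp [M]
    · simp only [M]
      rw [if_neg (by omega), if_neg (by omega)]
      have e : j + 1 + 1 - 2 = j := by omega
      rw [e, abs_mul, abs_div, abs_pow, abs_neg, abs_of_nonneg hh, Nat.abs_cast]
      have e2 : |(1 - ((j + 1 + 1 : ℕ) : ℝ))| = j + 1 := by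
        push_cast
        rw [abs_of_nonpos (by linarith [(Nat.cast_nonneg j : (0 : ℝ) ≤ j)])]
        ring
      rw [e2]
      have e3 : ((j + 1 + 1).factorial : ℝ) = (j + 2) * ((j + 1) * j.factorial) := by
        rw [Nat.factorial_succ, Nat.factorial_succ]; push_cast; ring
      rw [e3]
      have hj : (0 : ℝ) ≤ j := Nat.cast_nonneg j
      have hf : (0 : ℝ) < j.factorial := by exact_mod_cast j.factorial_pos
      have e4 : h ^ (j + 1 + 1) / (((j : ℝ) + 2) * ((j + 1) * j.factorial)) * (j + 1) * ρ ^ (j + 1 + 1)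
          = h ^ 2 * ρ ^ 2 * (ρ ^ j / j.factorial) * (h ^ j / (j + 2)) := by
        field_simp
        ring
      rw [e4]
      have h5 : h ^ j / ((j : ℝ) + 2) ≤ 1 := by
        rw [div_le_one (by positivity)]
        have := pow_le_one₀ hh hh1 (n := j)
        linarith
      have h6 : 0 ≤ h ^ 2 * ρ ^ 2 * (ρ ^ j / j.factorial) := by positivity
      calc _ ≤ h ^ 2 * ρ ^ 2 * (ρ ^ j / j.factorial) * 1 := by gcongr
        _ = _ := mul_one _
  have hsum : Summable (fun j => |PowerSeries.coeff j (eh h)| * ρ ^ j) :=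
    Summable.of_nonneg_of_le (fun r => by positivity) hle hM.summable
  exact ⟨_, hasSum_le hle hsum.hasSum hM, hsum.hasSum⟩

lemma Bd.mono {ρ K K' : ℝ} {a : PowerSeries ℝ} (h : Bd ρ K a) (hK : K ≤ K') : Bd ρ K' a := by
  obtain ⟨S, hS, hs⟩ := h
  exact ⟨S, hS.trans hK, hs⟩

lemma sum_inv_sq_le (m : ℕ) :
    ∑ l ∈ range m, (1 / ((l : ℝ) + 1)) ^ 2 ≤ (2 : ℝ) - 1 / (m : ℝ) := by
  induction m with
  | zero => simp
  | succ m ih =>
    rw [Finset.sum_range_succ]
    rcases Nat.eq_zero_or_pos m with rfl | hm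
    · norm_num
    · have hm' : (0 : ℝ) < m := by exact_mod_cast hm
      have e : (1 / ((m : ℝ) + 1)) ^ 2 ≤ 1 / (m : ℝ) - 1 / ((m : ℝ) + 1) := by
        have e1 : 1 / (m : ℝ) - 1 / ((m : ℝ) + 1) = 1 / (m * (m + 1)) := by
          field_simp
          ring
        rw [e1, div_pow, one_pow]
        apply one_div_le_one_div_of_le (by positivity)
        nlinarith
      push_cast
      linarith

/-- uniform bound -/
lemma Bd_b {ρ : ℝ} (hρ : 0 ≤ ρ) (m : ℕ) :
    Bd ρ (ρ * Real.exp (2 * (ρ ^ 2 * Real.exp ρ))) (b m) := by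
  have key : ∀ m : ℕ, Bd ρ (ρ * Real.exp ((∑ l ∈ range m, (1 / ((l : ℝ) + 1)) ^ 2)
      * (ρ ^ 2 * Real.exp ρ))) (b m) := by
    intro m
    induction m with
    | zero => simpa [b] using Bd_X
    | succ m ih =>
      have h1 : (0 : ℝ) ≤ 1 / ((m : ℝ) + 1) := by positivity
      have h2 : 1 / ((m : ℝ) + 1) ≤ 1 := by
        rw [div_le_one (by positivity)]; linarith [(Nat.cast_nonneg m : (0 : ℝ) ≤ m)]
      have h3 := ih.mul hρ (Bd_eh hρ h1 h2)
      refine h3.mono ?_
      rw [Finset.sum_range_succ, add_mul, Real.exp_add, mul_assoc]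
      gcongr
      rw [add_comm]
      exact Real.add_one_le_exp _
  refine (key m).mono ?_
  gcongr
  exact (sum_inv_sq_le m).trans (by
    have : (0 : ℝ) ≤ 1 / (m : ℝ) := by positivity
    linarith)

/-! ### the functional -/

/-- `∑ a_r M_r` -/
def Lam (a : PowerSeries ℝ) (Y : ℝ) (N : ℕ) : ℝ := ∑' r, PowerSeries.coeff r a * Mr Y r N

lemma Mr_abs_le3 {Y : ℝ} (hY : 0 < Y) {N : ℕ} (hN : (N : ℝ) ≤ 2 * Y) (r : ℕ) :
    |Mr Y r N| ≤ 3 ^ r := by
  refine (Mr_abs_le hY r N).trans ?_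
  have h1 : (N : ℝ) / Y ≤ 2 := by rw [div_le_iff₀ hY]; exact hN
  have h0 : (0 : ℝ) ≤ (N : ℝ) / Y := by positivity
  gcongr
  linarith

lemma Bd.summable3 {K : ℝ} {a : PowerSeries ℝ} (h : Bd 3 K a) :
    Summable (fun r => |PowerSeries.coeff r a| * 3 ^ r) := by
  obtain ⟨S, _, hs⟩ := h
  exact hs.summable

lemma Lam_summable {K Y : ℝ} {N : ℕ} {a : PowerSeries ℝ} (ha : Bd 3 K a) (hY : 0 < Y)
    (hN : (N : ℝ) ≤ 2 * Y) : Summable (fun r => PowerSeries.coeff r a * Mr Y r N) := by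
  refine Summable.of_norm_bounded ha.summable3 (fun r => ?_)
  rw [Real.norm_eq_abs, abs_mul]
  gcongr
  exact Mr_abs_le3 hY hN r

lemma pred_le {N : ℕ} {Y : ℝ} (hN : (N : ℝ) ≤ 2 * Y) : ((N - 1 : ℕ) : ℝ) ≤ 2 * Y :=
  le_trans (by exact_mod_cast Nat.sub_le N 1) hN

lemma Lam_mul_lin {K Y : ℝ} {N : ℕ} {a : PowerSeries ℝ} (ha : Bd 3 K a) (hY : 0 < Y)
    (hN : (N : ℝ) ≤ 2 * Y) (h : ℝ) :
    Lam (a * (1 + PowerSeries.C h * PowerSeries.X)) Y N
      = Lam a Y N + h * (Lam a Y N - N / Y * Lam a Y (N - 1)) := by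
  have s1 := (Lam_summable ha hY hN).hasSum
  have s2 := (Lam_summable ha hY (pred_le hN)).hasSum
  -- the shifted series
  have s3 : HasSum (fun r => PowerSeries.coeff r (a * PowerSeries.X) * Mr Y r N)
      (Lam a Y N - N / Y * Lam a Y (N - 1)) := by
    rw [← hasSum_nat_add_iff' 1]
    simp only [Finset.range_one, Finset.sum_singleton, PowerSeries.coeff_zero_mul_X, zero_mul,
      sub_zero]
    refine (s1.sub (s2.mul_left (N / Y))).congr_fun (fun r => ?_)
    rw [PowerSeries.coeff_succ_mul_X, Mr_succ]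
    ring
  have s4 := s1.add (s3.mul_left h)
  have : HasSum (fun r => PowerSeries.coeff r (a * (1 + PowerSeries.C h * PowerSeries.X))
      * Mr Y r N) (Lam a Y N + h * (Lam a Y N - N / Y * Lam a Y (N - 1))) := by
    refine s4.congr_fun (fun r => ?_)
    have e : a * (1 + PowerSeries.C h * PowerSeries.X)
        = a + PowerSeries.C h * (a * PowerSeries.X) := by ring
    rw [e, map_add, PowerSeries.coeff_C_mul]
    ring
  exact this.tsum_eq

lemma Lam_mul_ex {K Y h : ℝ} {N : ℕ} {a : PowerSeries ℝ} (ha : Bd 3 K a) (hY : 0 < Y)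
    (hN : (N : ℝ) ≤ 2 * Y) (hh : 0 ≤ h) :
    Lam (a * ex h) Y N = Real.exp (-h) * ((Y + h) / Y) ^ N * Lam a (Y + h) N := by
  have hYh : 0 < Y + h := by linarith
  have hNh : (N : ℝ) ≤ 2 * (Y + h) := by linarith
  obtain ⟨S', _, hs'⟩ := Bd_ex (ρ := 3) hh
  have hprod : Summable (fun p : ℕ × ℕ => (|PowerSeries.coeff p.1 a| * 3 ^ p.1)
      * (|PowerSeries.coeff p.2 (ex h)| * 3 ^ p.2)) :=
    ha.summable3.mul_of_nonneg hs'.summable (fun r => by positivity) (fun r => by positivity)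
  have hsum : Summable (fun p : ℕ × ℕ => PowerSeries.coeff p.1 a * PowerSeries.coeff p.2 (ex h)
      * Mr Y (p.1 + p.2) N) := by
    refine Summable.of_norm_bounded hprod (fun p => ?_)
    rw [Real.norm_eq_abs, abs_mul, abs_mul]
    calc |PowerSeries.coeff p.1 a| * |PowerSeries.coeff p.2 (ex h)| * |Mr Y (p.1 + p.2) N|
        ≤ |PowerSeries.coeff p.1 a| * |PowerSeries.coeff p.2 (ex h)| * 3 ^ (p.1 + p.2) := by
          gcongr
          exact Mr_abs_le3 hY hN _
      _ = _ := by rw [pow_add]; ring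
  have h1 := tsum_antidiag hsum.hasSum
  have h2 : HasSum (fun r => PowerSeries.coeff r (a * ex h) * Mr Y r N)
      (∑' p : ℕ × ℕ, PowerSeries.coeff p.1 a * PowerSeries.coeff p.2 (ex h)
      * Mr Y (p.1 + p.2) N) := by
    refine h1.congr_fun (fun r => ?_)
    rw [PowerSeries.coeff_mul, Finset.sum_mul]
    apply Finset.sum_congr rfl
    intro p hp
    rw [Finset.HasAntidiagonal.mem_antidiagonal] at hp
    rw [hp]
  unfold Lam
  rw [h2.tsum_eq, hsum.tsum_prod, ← tsum_mul_left]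
  apply tsum_congr
  intro r
  have h3 := (hasSum_translate hY hh r N).mul_left (PowerSeries.coeff r a)
  have h4 : HasSum (fun j => PowerSeries.coeff r a * PowerSeries.coeff j (ex h)
      * Mr Y (r + j) N) (PowerSeries.coeff r a * (Real.exp (-h) * Mr (Y + h) r N
        * ((Y + h) / Y) ^ N)) := by
    refine h3.congr_fun (fun j => ?_)
    simp only [ex, PowerSeries.coeff_mk]
    ring
  rw [h4.tsum_eq]
  ring

/-- harmonic numbers -/
def Hm (m : ℕ) : ℝ := ∑ l ∈ range m, 1 / ((l : ℝ) + 1)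

lemma Hm_succ (m : ℕ) : Hm (m + 1) = Hm m + 1 / ((m : ℝ) + 1) := by
  simp [Hm, Finset.sum_range_succ]

/-- the key identity -/
theorem Op_eval (m N : ℕ) {Y : ℝ} (hY : 0 < Y) (hN : (N : ℝ) ≤ 2 * Y) :
    (Op (m + 1) (Polynomial.X ^ N : Polynomial ℝ)).eval (Y + Hm m)
      = m.factorial * Real.exp (Hm m) * Y ^ N * Lam (b m) Y N := by
  induction m generalizing N Y with
  | zero =>
    have h1 : Lam (b 0) Y N = 1 - N / Y := by
      unfold Lam b
      rw [tsum_eq_single 1]
      · rw [Mr_one]; simp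
      · intro r hr
        simp [PowerSeries.coeff_X, hr]
    rw [h1]
    simp only [Op, Hm, Finset.range_zero, Finset.sum_empty, add_zero, Nat.factorial_zero,
      Nat.cast_one, Real.exp_zero, one_mul, Nat.cast_zero, zero_add, Polynomial.C_1]
    rw [Polynomial.derivative_X_pow]
    simp only [Polynomial.eval_sub, Polynomial.eval_pow, Polynomial.eval_X, Polynomial.eval_mul,
      Polynomial.eval_C]
    rcases N with _ | N
    · simp
    · simp only [Nat.add_sub_cancel]
      field_simp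
      ring
  | succ m ih =>
    set h : ℝ := 1 / ((m : ℝ) + 1) with hh
    have hh0 : 0 < h := by positivity
    have hYh : 0 < Y + h := by linarith
    have hNh : (N : ℝ) ≤ 2 * (Y + h) := by linarith
    have e1 : Y + Hm (m + 1) = (Y + h) + Hm m := by rw [Hm_succ]; ring
    have e2 : Op (m + 1 + 1) (Polynomial.X ^ N : Polynomial ℝ)
        = Polynomial.C (((m + 1 : ℕ) : ℝ) + 1) * Op (m + 1) (Polynomial.X ^ N)
          - Polynomial.C (N : ℝ) * Op (m + 1) (Polynomial.X ^ (N - 1)) := by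
      rw [← derivative_Op_X_pow]; rfl
    rw [e1, e2, Polynomial.eval_sub, Polynomial.eval_mul, Polynomial.eval_mul, Polynomial.eval_C,
      Polynomial.eval_C, ih N hYh hNh, ih (N - 1) hYh (pred_le hNh)]
    have hb : Bd 3 _ (b m) := Bd_b (by norm_num) m
    have hb' : Bd 3 _ (b m * (1 + PowerSeries.C h * PowerSeries.X)) :=
      hb.mul (by norm_num) (Bd_lin hh0)
    have e3 : b (m + 1) = b m * (1 + PowerSeries.C h * PowerSeries.X) * ex h := by
      rw [b, eh_eq, mul_assoc]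
    rw [e3, Lam_mul_ex hb' hY hN hh0.le, Lam_mul_lin hb hYh hNh, Hm_succ, ← hh, Real.exp_add,
      Real.exp_neg, Nat.factorial_succ, div_pow]
    have hexp := Real.exp_pos h
    have hm : h * ((m : ℝ) + 1) = 1 := by rw [hh]; field_simp
    have r1 : Y ^ N * ((Y + h) ^ N / Y ^ N) = (Y + h) ^ N := by field_simp
    have r2 : Real.exp h * (Real.exp h)⁻¹ = 1 := mul_inv_cancel₀ hexp.ne'
    have r3 : (Y + h) ^ N * ((N : ℝ) / (Y + h)) = N * (Y + h) ^ (N - 1) := by
      rcases N with _ | N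
      · simp
      · have e4 : N + 1 - 1 = N := rfl
        rw [e4, pow_succ]
        field_simp
    have r4 : (((m + 1) * m.factorial : ℕ) : ℝ) * (Real.exp (Hm m) * Real.exp h) * Y ^ N
        * ((Real.exp h)⁻¹ * ((Y + h) ^ N / Y ^ N) * (Lam (b m) (Y + h) N
          + h * (Lam (b m) (Y + h) N - N / (Y + h) * Lam (b m) (Y + h) (N - 1))))
        = m.factorial * Real.exp (Hm m) * (Real.exp h * (Real.exp h)⁻¹)
          * ((Y ^ N * ((Y + h) ^ N / Y ^ N)) * ((m + 1) * Lam (b m) (Y + h) N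
          + (h * (m + 1)) * (Lam (b m) (Y + h) N - N / (Y + h) * Lam (b m) (Y + h) (N - 1)))) := by
      push_cast
      ring
    rw [r4, r1, r2, hm]
    push_cast
    linear_combination (m.factorial * Real.exp (Hm m) * Lam (b m) (Y + h) (N - 1)) * r3

end Pool.Agent.Helper70.LR
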