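import Pool.Agent.Helper70.LR4

open Filter Topology Finset

noncomputable section

namespace Pool.Agent.Helper70.LR

/-- the uniform bound constant -/
def KK (ρ : ℝ) : ℝ := ρ * Real.exp (2 * (ρ ^ 2 * Real.exp ρ))

lemma KK_pos {ρ : ℝ} (hρ : 0 < ρ) : 0 < KK ρ := by unfold KK; positivity

lemma Bd_b' {ρ : ℝ} (hρ : 0 ≤ ρ) (m : ℕ) : Bd ρ (KK ρ) (b m) := Bd_b hρ m

/-! ### first coefficients -/

lemma eh_coeff (h : ℝ) (j : ℕ) : PowerSeries.coeff j (eh h) = (-h) ^ j / j.factorial * (1 - j) := by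
  simp [eh]

lemma b_coeff_succ (m r : ℕ) : PowerSeries.coeff r (b (m + 1))
    = ∑ j ∈ range (r + 1), PowerSeries.coeff j (b m) * ((-(1 / ((m : ℝ) + 1))) ^ (r - j)
      / (r - j).factorial * (1 - ((r - j : ℕ) : ℝ))) := by
  rw [b, PowerSeries.coeff_mul, Finset.Nat.sum_antidiagonal_eq_sum_range_succ_mk]
  simp only [eh_coeff]

lemma b_zero (m : ℕ) : PowerSeries.coeff 0 (b m) = 0 := by
  induction m with
  | zero => simp [b]
  | succ m ih => rw [b_coeff_succ]; simp [ih]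

lemma b_one (m : ℕ) : PowerSeries.coeff 1 (b m) = 1 := by
  induction m with
  | zero => simp [b]
  | succ m ih =>
    rw [b_coeff_succ]
    simp [Finset.sum_range_succ, ih, b_zero]

lemma b_two (m : ℕ) : PowerSeries.coeff 2 (b m) = 0 := by
  induction m with
  | zero => simp [b, PowerSeries.coeff_X]
  | succ m ih =>
    rw [b_coeff_succ]
    simp [Finset.sum_range_succ, ih, b_zero]

lemma b_three (m : ℕ) : PowerSeries.coeff 3 (b m)
    = -(1 / 2) * ∑ l ∈ range m, (1 / ((l : ℝ) + 1)) ^ 2 := by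
  induction m with
  | zero => simp [b, PowerSeries.coeff_X]
  | succ m ih =>
    rw [b_coeff_succ, Finset.sum_range_succ, Finset.sum_range_succ, Finset.sum_range_succ,
      Finset.sum_range_succ, Finset.sum_range_zero, b_zero, b_one, b_two, ih,
      Finset.sum_range_succ]
    norm_num [Nat.factorial]
    ring

lemma b_four (m : ℕ) : PowerSeries.coeff 4 (b m)
    = (1 / 3) * ∑ l ∈ range m, (1 / ((l : ℝ) + 1)) ^ 3 := by
  induction m with
  | zero => simp [b, PowerSeries.coeff_X]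
  | succ m ih =>
    rw [b_coeff_succ, Finset.sum_range_succ, Finset.sum_range_succ, Finset.sum_range_succ,
      Finset.sum_range_succ, Finset.sum_range_succ, Finset.sum_range_zero, b_zero, b_one, b_two, ih,
      Finset.sum_range_succ]
    generalize (∑ l ∈ range m, (1 / ((l : ℝ) + 1)) ^ 3) = S
    generalize 1 / ((m : ℝ) + 1) = h
    norm_num [Nat.factorial]
    ring

/-! ### evaluation -/

lemma Bd.abs_summable {ρ K : ℝ} {a : PowerSeries ℝ} (h : Bd ρ K a) {w : ℝ} (hw : |w| ≤ ρ) :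
    Summable (fun r => |PowerSeries.coeff r a * w ^ r|) := by
  obtain ⟨S, _, hs⟩ := h
  refine Summable.of_nonneg_of_le (fun r => abs_nonneg _) (fun r => ?_) hs.summable
  rw [abs_mul, abs_pow]
  gcongr

lemma ev_mul {ρ K K' : ℝ} {a a' : PowerSeries ℝ} (h : Bd ρ K a) (h' : Bd ρ K' a') {w A A' : ℝ}
    (hw : |w| ≤ ρ) (hA : HasSum (fun r => PowerSeries.coeff r a * w ^ r) A)
    (hA' : HasSum (fun r => PowerSeries.coeff r a' * w ^ r) A') :
    HasSum (fun r => PowerSeries.coeff r (a * a') * w ^ r) (A * A') := by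
  have s1 := h.abs_summable hw
  have s2 := h'.abs_summable hw
  have s3 : Summable (fun p : ℕ × ℕ => |PowerSeries.coeff p.1 a * w ^ p.1|
      * |PowerSeries.coeff p.2 a' * w ^ p.2|) :=
    s1.mul_of_nonneg s2 (fun r => abs_nonneg _) (fun r => abs_nonneg _)
  have s4 : Summable (fun p : ℕ × ℕ => (PowerSeries.coeff p.1 a * w ^ p.1)
      * (PowerSeries.coeff p.2 a' * w ^ p.2)) := by
    refine Summable.of_norm_bounded s3 (fun p => ?_)
    rw [Real.norm_eq_abs, abs_mul]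
  have h0 : HasSum (fun p : ℕ × ℕ => (PowerSeries.coeff p.1 a * w ^ p.1)
      * (PowerSeries.coeff p.2 a' * w ^ p.2)) (A * A') := hA.mul hA' s4
  have h1 := tsum_antidiag h0
  refine h1.congr_fun (fun r => ?_)
  rw [PowerSeries.coeff_mul, Finset.sum_mul]
  apply Finset.sum_congr rfl
  intro p hp
  rw [Finset.HasAntidiagonal.mem_antidiagonal] at hp
  rw [← hp, pow_add]
  ring

lemma ev_ex (h w : ℝ) : HasSum (fun r => PowerSeries.coeff r (ex h) * w ^ r)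
    (Real.exp (-(h * w))) := by
  have := NormedSpace.expSeries_div_hasSum_exp (-(h * w))
  rw [← Real.exp_eq_exp_ℝ] at this
  refine this.congr_fun (fun j => ?_)
  simp only [ex, PowerSeries.coeff_mk]
  rw [← neg_mul, mul_pow]
  ring

lemma ev_lin (h w : ℝ) : HasSum (fun r => PowerSeries.coeff r (1 + PowerSeries.C h
      * PowerSeries.X : PowerSeries ℝ) * w ^ r) (1 + h * w) := by
  have h0 : ∀ r, r ∉ Finset.range 2 → PowerSeries.coeff r (1 + PowerSeries.C h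
      * PowerSeries.X : PowerSeries ℝ) * w ^ r = 0 := by
    intro r hr
    rw [Finset.mem_range, not_lt] at hr
    rw [map_add, PowerSeries.coeff_C_mul, PowerSeries.coeff_one, PowerSeries.coeff_X,
      if_neg (by omega), if_neg (by omega)]
    simp
  have : HasSum (fun r => PowerSeries.coeff r (1 + PowerSeries.C h
      * PowerSeries.X : PowerSeries ℝ) * w ^ r) (∑ r ∈ Finset.range 2,
        PowerSeries.coeff r (1 + PowerSeries.C h * PowerSeries.X : PowerSeries ℝ) * w ^ r) :=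
    hasSum_sum_of_ne_finset_zero h0
  convert this using 1
  rw [Finset.sum_range_succ, Finset.sum_range_succ, Finset.sum_range_zero]
  simp only [map_add, PowerSeries.coeff_C_mul, PowerSeries.coeff_one, PowerSeries.coeff_X]
  norm_num

lemma ev_b {w : ℝ} (hw0 : 0 ≤ w) (hw1 : w ≤ 1) (m : ℕ) :
    HasSum (fun r => PowerSeries.coeff r (b m) * w ^ r)
      (w * ∏ l ∈ range m, (1 + 1 / ((l : ℝ) + 1) * w) * Real.exp (-(1 / ((l : ℝ) + 1) * w))) := by
  have hw : |w| ≤ 3 := by rw [abs_of_nonneg hw0]; linarith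
  induction m with
  | zero =>
    have := hasSum_single (f := fun r => PowerSeries.coeff r (PowerSeries.X : PowerSeries ℝ) * w ^ r) 1
      (fun r hr => by simp [PowerSeries.coeff_X, hr])
    simpa [b, PowerSeries.coeff_X] using this
  | succ m ih =>
    have hh : (0 : ℝ) < 1 / ((m : ℝ) + 1) := by positivity
    rw [b, eh_eq, ← mul_assoc, Finset.prod_range_succ, ← mul_assoc, ← mul_assoc]
    have h1 := ev_mul (Bd_b' (by norm_num : (0 : ℝ) ≤ 3) m) (Bd_lin hh) hw ih (ev_lin _ w)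
    exact ev_mul ((Bd_b' (by norm_num : (0 : ℝ) ≤ 3) m).mul (by norm_num) (Bd_lin hh))
      (Bd_ex hh.le) hw h1 (ev_ex _ w)

lemma one_add_mul_exp_ge {u : ℝ} (h0 : 0 ≤ u) (h1 : u ≤ 1) :
    Real.exp (-u ^ 2) ≤ (1 + u) * Real.exp (-u) := by
  have h2 : Real.exp (u - u ^ 2) ≤ 1 + u := by
    have h3 : 0 < 1 - (u - u ^ 2) := by nlinarith
    have h4 : 1 - (u - u ^ 2) ≤ Real.exp (-(u - u ^ 2)) := by
      have := Real.add_one_le_exp (-(u - u ^ 2)); linarith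
    rw [Real.exp_neg] at h4
    have h5 : Real.exp (u - u ^ 2) ≤ 1 / (1 - (u - u ^ 2)) := by
      rw [le_div_iff₀ h3]
      have h6 := Real.exp_pos (u - u ^ 2)
      calc Real.exp (u - u ^ 2) * (1 - (u - u ^ 2))
          ≤ Real.exp (u - u ^ 2) * (Real.exp (u - u ^ 2))⁻¹ := by gcongr
        _ = 1 := mul_inv_cancel₀ h6.ne'
    refine h5.trans ?_
    rw [div_le_iff₀ h3]
    nlinarith [pow_nonneg h0 3]
  have h3 : Real.exp (-u ^ 2) = Real.exp (u - u ^ 2) * Real.exp (-u) := by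
    rw [← Real.exp_add]; congr 1; ring
  rw [h3]
  gcongr

lemma prod_ge {w : ℝ} (hw0 : 0 ≤ w) (hw1 : w ≤ 1) (m : ℕ) :
    Real.exp (-2) ≤ ∏ l ∈ range m, (1 + 1 / ((l : ℝ) + 1) * w)
      * Real.exp (-(1 / ((l : ℝ) + 1) * w)) := by
  have h1 : ∀ l ∈ range m, Real.exp (-(1 / ((l : ℝ) + 1)) ^ 2) ≤ (1 + 1 / ((l : ℝ) + 1) * w)
      * Real.exp (-(1 / ((l : ℝ) + 1) * w)) := by
    intro l _
    have hl : (0 : ℝ) < 1 / ((l : ℝ) + 1) := by positivity
    have hl1 : 1 / ((l : ℝ) + 1) ≤ 1 := by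
      rw [div_le_one (by positivity)]; linarith [(Nat.cast_nonneg l : (0 : ℝ) ≤ l)]
    have hu0 : 0 ≤ 1 / ((l : ℝ) + 1) * w := by positivity
    have hu1 : 1 / ((l : ℝ) + 1) * w ≤ 1 / ((l : ℝ) + 1) := by
      exact mul_le_of_le_one_right hl.le hw1
    refine le_trans ?_ (one_add_mul_exp_ge hu0 (hu1.trans hl1))
    apply Real.exp_le_exp.mpr
    have : (1 / ((l : ℝ) + 1) * w) ^ 2 ≤ (1 / ((l : ℝ) + 1)) ^ 2 := by gcongr
    linarith
  refine le_trans ?_ (Finset.prod_le_prod (fun l _ => (Real.exp_pos _).le) h1)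
  rw [← Real.exp_sum]
  apply Real.exp_le_exp.mpr
  have h2 := sum_inv_sq_le m
  have h3 : (0 : ℝ) ≤ 1 / (m : ℝ) := by positivity
  rw [Finset.sum_neg_distrib]
  linarith

/-! ### comparison with powers -/

lemma Mr_abs_le2 {Y : ℝ} (hY : 0 < Y) {N : ℕ} (hN : (N : ℝ) ≤ Y) (r : ℕ) :
    |Mr Y r N| ≤ 2 ^ r := by
  refine (Mr_abs_le hY r N).trans ?_
  have h1 : (N : ℝ) / Y ≤ 1 := by rw [div_le_iff₀ hY]; linarith
  have h0 : (0 : ℝ) ≤ (N : ℝ) / Y := by positivity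
  gcongr
  linarith

lemma Mr_rec {Y : ℝ} (hY : 0 < Y) (N r : ℕ) : Mr Y (r + 2) N
    = (1 - N / Y) * Mr Y (r + 1) N + ((r + 1) / Y) * (Mr Y (r + 1) N - Mr Y r N) := by
  have h := Mr_three hY.ne' r N
  field_simp
  linear_combination h

lemma Mr_small {Y : ℝ} (hY : 1 ≤ Y) {N : ℕ} (hN : (N : ℝ) ≤ Y) (j : ℕ) :
    |Mr Y (j + 1) N| ≤ 4 ^ (j + 1) * ((1 - N / Y) + 1 / Y) := by
  have hY0 : 0 < Y := by linarith
  have hw : 0 ≤ 1 - N / Y := by rw [sub_nonneg, div_le_one hY0]; exact hN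
  have hY1 : 0 < 1 / Y := by positivity
  rcases j with _ | j
  · rw [Mr_one, abs_of_nonneg hw]
    nlinarith
  · rw [Mr_rec hY0]
    have h1 := Mr_abs_le2 hY0 hN (j + 1)
    have h2 := Mr_abs_le2 hY0 hN j
    have h3 : (j : ℝ) + 1 ≤ 2 ^ j := by
      exact_mod_cast Nat.lt_two_pow_self (n := j)
    have h4 : |Mr Y (j + 1) N - Mr Y j N| ≤ 2 ^ (j + 1) + 2 ^ j :=
      (abs_sub _ _).trans (add_le_add h1 h2)
    calc |(1 - N / Y) * Mr Y (j + 1) N + ((j + 1) / Y) * (Mr Y (j + 1) N - Mr Y j N)|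
        ≤ |(1 - N / Y) * Mr Y (j + 1) N| + |((j + 1) / Y) * (Mr Y (j + 1) N - Mr Y j N)| :=
          abs_add_le _ _
      _ = (1 - N / Y) * |Mr Y (j + 1) N| + ((j + 1) / Y) * |Mr Y (j + 1) N - Mr Y j N| := by
          rw [abs_mul, abs_mul, abs_of_nonneg hw,
            abs_of_nonneg (by positivity : (0 : ℝ) ≤ ((j : ℝ) + 1) / Y)]
      _ ≤ (1 - N / Y) * 2 ^ (j + 1) + ((2 ^ j) / Y) * (2 ^ (j + 1) + 2 ^ j) := by
          gcongr
      _ ≤ 4 ^ (j + 2) * ((1 - N / Y) + 1 / Y) := by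
          have e4 : (4 : ℝ) ^ (j + 2) = 16 * (2 ^ j * 2 ^ j) := by
            rw [pow_add, show (4 : ℝ) = 2 * 2 by norm_num, mul_pow]; ring
          have e2 : (2 : ℝ) ^ (j + 1) = 2 * 2 ^ j := by rw [pow_succ]; ring
          have e1 : (1 : ℝ) ≤ 2 ^ j := one_le_pow₀ (by norm_num)
          rw [e4, e2]
          have h5 : (2 : ℝ) ^ j / Y = 2 ^ j * (1 / Y) := by ring
          rw [h5]
          nlinarith [mul_nonneg hw (by positivity : (0 : ℝ) ≤ 2 ^ j * (2 ^ j - 1 + 1)),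
            mul_nonneg hw (mul_nonneg (by positivity : (0 : ℝ) ≤ 2 ^ j) (sub_nonneg.mpr e1)),
            mul_pos hY1 (by positivity : (0 : ℝ) < 2 ^ j * 2 ^ j)]

/-- comparison of `M_r` with `w^r` -/
lemma Mr_cmp {Y : ℝ} (hY : 1 ≤ Y) {N : ℕ} (hN : (N : ℝ) ≤ Y) (r : ℕ) :
    |Mr Y (r + 3) N - (1 - N / Y) ^ (r + 3)| ≤ 8 ^ (r + 3) * ((1 - N / Y) / Y + 1 / Y ^ 2) := by
  have hY0 : 0 < Y := by linarith
  have hw : 0 ≤ 1 - N / Y := by rw [sub_nonneg, div_le_one hY0]; exact hN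
  have hw1 : 1 - N / Y ≤ 1 := by
    have : (0 : ℝ) ≤ N / Y := by positivity
    linarith
  have hY1 : 0 < 1 / Y := by positivity
  have hτ : ((1 - N / Y) + 1 / Y) / Y = (1 - N / Y) / Y + 1 / Y ^ 2 := by
    field_simp
  have step : ∀ j : ℕ, |((j + 2 : ℕ) : ℝ) / Y * (Mr Y (j + 2) N - Mr Y (j + 1) N)|
      ≤ 2 ^ (j + 1) * (4 ^ (j + 2) + 4 ^ (j + 1)) * ((1 - N / Y) / Y + 1 / Y ^ 2) := by
    intro j
    have h1 := Mr_small hY hN (j + 1)
    have h2 := Mr_small hY hN j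
    have h3 : ((j + 2 : ℕ) : ℝ) ≤ 2 ^ (j + 1) := by
      exact_mod_cast Nat.lt_two_pow_self (n := j + 1)
    rw [abs_mul, abs_of_nonneg (by positivity : (0 : ℝ) ≤ ((j + 2 : ℕ) : ℝ) / Y), ← hτ]
    have h4 : |Mr Y (j + 2) N - Mr Y (j + 1) N| ≤ (4 ^ (j + 2) + 4 ^ (j + 1)) * ((1 - N / Y) + 1 / Y) := by
      refine (abs_sub _ _).trans ?_
      rw [add_mul]
      exact add_le_add h1 h2
    calc ((j + 2 : ℕ) : ℝ) / Y * |Mr Y (j + 2) N - Mr Y (j + 1) N|
        ≤ 2 ^ (j + 1) / Y * ((4 ^ (j + 2) + 4 ^ (j + 1)) * ((1 - N / Y) + 1 / Y)) := by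
          gcongr
      _ = _ := by ring
  have hτ0 : 0 ≤ (1 - N / Y) / Y + 1 / Y ^ 2 := by positivity
  induction r with
  | zero =>
    have e := Mr_rec hY0 N 1
    have e2 := Mr_rec hY0 N 0
    have h1 := step 0
    simp only [zero_add] at h1 e2 ⊢
    have e3 : Mr Y 3 N - (1 - N / Y) ^ 3 = (1 - N / Y) * (Mr Y 2 N - (1 - N / Y) ^ 2)
        + ((2 : ℕ) : ℝ) / Y * (Mr Y 2 N - Mr Y 1 N) := by
      have : Mr Y 3 N = (1 - N / Y) * Mr Y 2 N + (((1 : ℕ) + 1) / Y) * (Mr Y 2 N - Mr Y 1 N) := e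
      rw [this]
      push_cast
      ring
    have e4 : Mr Y 2 N - (1 - N / Y) ^ 2 = (1 / Y) * ((1 - N / Y) - 1) := by
      rw [e2, Mr_one, Mr_zero]
      push_cast
      ring
    rw [e3, e4]
    have h5 : |(1 - N / Y) * ((1 / Y) * ((1 - N / Y) - 1))| ≤ (1 - N / Y) / Y + 1 / Y ^ 2 := by
      rw [abs_mul, abs_mul, abs_of_nonneg hw, abs_of_pos hY1, abs_of_nonpos (by linarith)]
      have h6 : (1 - N / Y) * ((1 / Y) * -((1 - N / Y) - 1)) ≤ (1 - N / Y) * (1 / Y * 1) := by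
        have : -((1 - (N : ℝ) / Y) - 1) ≤ 1 := by linarith
        gcongr
      refine h6.trans ?_
      have h7 : (0 : ℝ) ≤ 1 / Y ^ 2 := by positivity
      have h8 : (1 - N / Y) * (1 / Y * 1) = (1 - N / Y) / Y := by ring
      rw [h8]; linarith
    refine (abs_add_le _ _).trans ?_
    have h9 : (2 : ℝ) ^ 1 * (4 ^ 2 + 4 ^ 1) = 40 := by norm_num
    rw [h9] at h1
    have h10 : (8 : ℝ) ^ 3 = 512 := by norm_num
    rw [h10]
    nlinarith
  | succ r ih =>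
    have e := Mr_rec hY0 N (r + 2)
    have h1 := step (r + 1)
    have e3 : Mr Y (r + 1 + 3) N - (1 - N / Y) ^ (r + 1 + 3)
        = (1 - N / Y) * (Mr Y (r + 3) N - (1 - N / Y) ^ (r + 3))
        + ((r + 1 + 2 : ℕ) : ℝ) / Y * (Mr Y (r + 1 + 2) N - Mr Y (r + 1 + 1) N) := by
      have e4 : Mr Y (r + 1 + 3) N = (1 - N / Y) * Mr Y (r + 3) N
          + ((((r + 2 : ℕ) : ℝ) + 1) / Y) * (Mr Y (r + 3) N - Mr Y (r + 2) N) := e
      rw [e4]
      have e5 : r + 1 + 2 = r + 3 := rfl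
      have e6 : r + 1 + 1 = r + 2 := rfl
      rw [e5, e6]
      push_cast
      ring
    rw [e3]
    refine (abs_add_le _ _).trans ?_
    rw [abs_mul, abs_of_nonneg hw]
    have h2 : (1 - N / Y) * |Mr Y (r + 3) N - (1 - N / Y) ^ (r + 3)|
        ≤ 8 ^ (r + 3) * ((1 - N / Y) / Y + 1 / Y ^ 2) := by
      calc (1 - N / Y) * |Mr Y (r + 3) N - (1 - N / Y) ^ (r + 3)|
          ≤ 1 * |Mr Y (r + 3) N - (1 - N / Y) ^ (r + 3)| := by gcongr
        _ ≤ _ := by rw [one_mul]; exact ih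
    refine (add_le_add h2 h1).trans ?_
    rw [← add_mul]
    gcongr
    have e8 : (8 : ℝ) ^ (r + 1 + 3) = 8 ^ r * 4096 := by rw [pow_add, pow_add]; ring
    have e9 : (8 : ℝ) ^ (r + 3) = 8 ^ r * 512 := by rw [pow_add]; ring
    have e10 : (2 : ℝ) ^ (r + 1 + 1) * (4 ^ (r + 1 + 2) + 4 ^ (r + 1 + 1)) = 8 ^ r * 320 := by
      rw [show (8 : ℝ) = 2 * 4 by norm_num, mul_pow, pow_add, pow_add, pow_add, pow_add, pow_add]
      ring
    rw [e8, e9, e10]
    have : (0 : ℝ) < 8 ^ r := by positivity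
    linarith

/-- lower bound for the functional when `N ≤ Y` -/
lemma Lam_lower {Y : ℝ} (hY : 1 ≤ Y) {N : ℕ} (hN : (N : ℝ) ≤ Y) (m : ℕ) :
    Real.exp (-2) * (1 - N / Y) - KK 8 * ((1 - N / Y) / Y + 1 / Y ^ 2) ≤ Lam (b m) Y N := by
  have hY0 : 0 < Y := by linarith
  have hw : 0 ≤ 1 - N / Y := by rw [sub_nonneg, div_le_one hY0]; exact hN
  have hw1 : 1 - N / Y ≤ 1 := by
    have : (0 : ℝ) ≤ N / Y := by positivity
    linarith
  set w : ℝ := 1 - N / Y with hwdef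
  have s1 := (Lam_summable (Bd_b' (by norm_num : (0 : ℝ) ≤ 3) m) hY0 (by linarith : (N : ℝ) ≤ 2 * Y)).hasSum
  have s2 := ev_b hw hw1 m
  have s3 := s1.sub s2
  set τ : ℝ := w / Y + 1 / Y ^ 2 with hτ
  have hτ0 : 0 ≤ τ := by positivity
  obtain ⟨S, hS, hs⟩ := Bd_b' (by norm_num : (0 : ℝ) ≤ 8) m
  have s4 := hs.mul_right τ
  have hle : ∀ r, -(|PowerSeries.coeff r (b m)| * 8 ^ r * τ)
      ≤ PowerSeries.coeff r (b m) * Mr Y r N - PowerSeries.coeff r (b m) * w ^ r := by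
    intro r
    rw [← mul_sub]
    have h0 : 0 ≤ |PowerSeries.coeff r (b m)| * 8 ^ r * τ := by positivity
    rcases r with _ | _ | _ | r
    · rw [b_zero, zero_mul]; simp
    · have e0 : Mr Y (0 + 1) N - w ^ (0 + 1) = 0 := by rw [Mr_one, ← hwdef]; ring
      rw [e0, mul_zero]; linarith
    · rw [b_two]; simp
    · have h1 := Mr_cmp hY hN r
      rw [← hwdef, ← hτ] at h1
      have h2 : |PowerSeries.coeff (r + 1 + 1 + 1) (b m) * (Mr Y (r + 1 + 1 + 1) N - w ^ (r + 1 + 1 + 1))|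
          ≤ |PowerSeries.coeff (r + 1 + 1 + 1) (b m)| * 8 ^ (r + 1 + 1 + 1) * τ := by
        rw [abs_mul, mul_assoc]
        gcongr
      have := neg_abs_le (PowerSeries.coeff (r + 1 + 1 + 1) (b m)
        * (Mr Y (r + 1 + 1 + 1) N - w ^ (r + 1 + 1 + 1)))
      linarith
  have h5 := hasSum_le hle s4.neg s3
  have h6 := prod_ge hw hw1 m
  have h7 : Real.exp (-2) * w ≤ w * ∏ l ∈ range m, (1 + 1 / ((l : ℝ) + 1) * w)
      * Real.exp (-(1 / ((l : ℝ) + 1) * w)) := by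
    rw [mul_comm]; gcongr
  have h8 : S * τ ≤ KK 8 * τ := by gcongr
  change _ ≤ ∑' r, _
  linarith

/-- positivity beyond the largest root -/
lemma Lam_pos {Y : ℝ} (hY : 1 ≤ Y) (hYK : 2 * KK 8 * Real.exp 2 ≤ Y) {N : ℕ}
    (h : 2 * KK 8 * Real.exp 2 < Y * (Y - N)) (m : ℕ) : 0 < Lam (b m) Y N := by
  have hY0 : 0 < Y := by linarith
  have hK := KK_pos (by norm_num : (0 : ℝ) < 8)
  have he := Real.exp_pos 2
  have hyN : 0 < Y - N := by
    by_contra hneg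
    push Not at hneg
    have : Y * (Y - N) ≤ 0 := mul_nonpos_of_nonneg_of_nonpos hY0.le hneg
    have h3 : 0 < 2 * KK 8 * Real.exp 2 := by positivity
    linarith
  have hN : (N : ℝ) ≤ Y := by linarith
  refine lt_of_lt_of_le ?_ (Lam_lower hY hN m)
  have e1 : 1 - (N : ℝ) / Y = (Y - N) / Y := by field_simp
  rw [e1, Real.exp_neg, sub_pos]
  have e2 : KK 8 * ((Y - N) / Y / Y + 1 / Y ^ 2) = (KK 8 * ((Y - N) + 1)) / Y ^ 2 := by
    field_simp
  have e3 : (Real.exp 2)⁻¹ * ((Y - N) / Y) = ((Y - N) * Y) / Real.exp 2 / Y ^ 2 := by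
    field_simp
  rw [e2, e3]
  apply div_lt_div_of_pos_right _ (by positivity)
  rw [lt_div_iff₀ he]
  have h4 : KK 8 * (Y - N) * Real.exp 2 ≤ (Y * (Y - N)) / 2 := by
    have : 2 * KK 8 * Real.exp 2 * (Y - N) ≤ Y * (Y - N) := by gcongr
    linarith
  nlinarith

end Pool.Agent.Helper70.LR
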