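import Pool.Agent.Helper70.LR5

open Filter Topology Finset

noncomputable section

namespace Pool.Agent.Helper70.LR

lemma Mr_level {Y : ℝ} (hY : 1 ≤ Y) {N : ℕ} (hy : |Y - N| ≤ 1) (hN : (N : ℝ) ≤ 2 * Y) (q : ℕ) :
    ∀ r : ℕ, 2 * q ≤ r + 1 → |Mr Y r N| * Y ^ q ≤ (2 * (r + 1)) ^ q * 3 ^ r := by
  have hY0 : 0 < Y := by linarith
  induction q with
  | zero =>
    intro r _
    simpa using Mr_abs_le3 hY0 hN r
  | succ q ih =>
    intro r hr
    rcases r with _ | _ | r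
    · omega
    · have hq : q = 0 := by omega
      subst hq
      rw [Mr_one]
      have e : |1 - (N : ℝ) / Y| * Y ^ 1 = |Y - N| := by
        rw [pow_one, ← abs_of_pos hY0, ← abs_mul, abs_of_pos hY0]
        congr 1
        field_simp
      simp only [zero_add] at e ⊢
      rw [e]
      norm_num
      linarith
    · have h1 := ih (r + 1) (by omega)
      have h2 := ih r (by omega)
      have h3 := Mr_three hY0.ne' r N
      have e : |Mr Y (r + 1 + 1) N| * Y ^ (q + 1) = |Y * Mr Y (r + 2) N| * Y ^ q := by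
        rw [abs_mul, abs_of_pos hY0, pow_succ]; ring
      rw [e, h3]
      have h4 : |(r + 1 + Y - N) * Mr Y (r + 1) N - (r + 1) * Mr Y r N|
          ≤ (r + 2) * |Mr Y (r + 1) N| + (r + 1) * |Mr Y r N| := by
        refine (abs_sub _ _).trans ?_
        rw [abs_mul, abs_mul]
        have h5 : |(r : ℝ) + 1 + Y - N| ≤ r + 2 := by
          rw [abs_le] at hy ⊢
          constructor <;> linarith [hy.1, hy.2, (Nat.cast_nonneg r : (0 : ℝ) ≤ r)]
        have h6 : |(r : ℝ) + 1| = r + 1 := abs_of_nonneg (by positivity)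
        rw [h6]
        gcongr
      have hr0 : (0 : ℝ) ≤ r := Nat.cast_nonneg r
      have hYq : 0 < Y ^ q := by positivity
      have h7 : (2 * ((r : ℝ) + 1)) ^ q ≤ (2 * (r + 3)) ^ q :=
        pow_le_pow_left₀ (by positivity) (by linarith) q
      have h8 : (2 * (((r + 1 : ℕ) : ℝ) + 1)) ^ q ≤ (2 * (r + 3)) ^ q :=
        pow_le_pow_left₀ (by positivity) (by push_cast; linarith) q
      calc |(r + 1 + Y - N) * Mr Y (r + 1) N - (r + 1) * Mr Y r N| * Y ^ q
          ≤ ((r + 2) * |Mr Y (r + 1) N| + (r + 1) * |Mr Y r N|) * Y ^ q := by gcongr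
        _ = (r + 2) * (|Mr Y (r + 1) N| * Y ^ q) + (r + 1) * (|Mr Y r N| * Y ^ q) := by ring
        _ ≤ (r + 2) * ((2 * (r + 3)) ^ q * 3 ^ (r + 1)) + (r + 1) * ((2 * (r + 3)) ^ q * 3 ^ r) := by
            refine add_le_add ?_ ?_
            · exact mul_le_mul_of_nonneg_left
                (h1.trans (mul_le_mul_of_nonneg_right h8 (by positivity))) (by positivity)
            · exact mul_le_mul_of_nonneg_left
                (h2.trans (mul_le_mul_of_nonneg_right h7 (by positivity))) (by positivity)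
        _ ≤ (2 * (((r + 1 + 1 : ℕ) : ℝ) + 1)) ^ (q + 1) * 3 ^ (r + 1 + 1) := by
            push_cast
            have e1 : (3 : ℝ) ^ (r + 1) = 3 ^ r * 3 := pow_succ _ _
            have e2 : (3 : ℝ) ^ (r + 1 + 1) = 3 ^ r * 9 := by rw [pow_succ, pow_succ]; ring
            have e3 : (2 * ((r : ℝ) + 1 + 1 + 1)) ^ (q + 1) = (2 * (r + 3)) ^ q * (2 * (r + 3)) := by
              rw [pow_succ]; ring_nf
            rw [e1, e2, e3]
            have h9 : 0 < (2 * ((r : ℝ) + 3)) ^ q * 3 ^ r := by positivity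
            nlinarith

lemma Mr_level' {Y : ℝ} (hY : 1 ≤ Y) {N : ℕ} (hy : |Y - N| ≤ 1) (hN : (N : ℝ) ≤ 2 * Y) (q : ℕ)
    (r : ℕ) (hr : 2 * q ≤ r + 1) : |Mr Y r N| * Y ^ q ≤ 2 ^ q * (3 * 2 ^ q) ^ r := by
  refine (Mr_level hY hy hN q r hr).trans ?_
  have h1 : (r : ℝ) + 1 ≤ 2 ^ r := by exact_mod_cast Nat.lt_two_pow_self (n := r)
  calc (2 * ((r : ℝ) + 1)) ^ q * 3 ^ r ≤ (2 * 2 ^ r) ^ q * 3 ^ r := by gcongr
    _ = _ := by rw [mul_pow, mul_pow, ← pow_mul, ← pow_mul]; ring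

/-- truncation error -/
lemma Lam_trunc {Y : ℝ} (hY : 1 ≤ Y) {N : ℕ} (hy : |Y - N| ≤ 1) (hN : (N : ℝ) ≤ 2 * Y) (J m : ℕ) :
    |Lam (b m) Y N - ∑ r ∈ range (2 * J + 1), PowerSeries.coeff r (b m) * Mr Y r N| * Y ^ (J + 1)
      ≤ 2 ^ (J + 1) * KK (3 * 2 ^ (J + 1)) := by
  have hY0 : 0 < Y := by linarith
  have s1 := (Lam_summable (Bd_b' (by norm_num : (0 : ℝ) ≤ 3) m) hY0 hN).hasSum
  have s2 := (hasSum_nat_add_iff' (2 * J + 1)).mpr s1
  obtain ⟨S, hS, hs⟩ := Bd_b' (by positivity : (0 : ℝ) ≤ 3 * 2 ^ (J + 1)) m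
  have s3 := (hasSum_nat_add_iff' (2 * J + 1)).mpr hs
  have hS' : S - ∑ i ∈ range (2 * J + 1), |PowerSeries.coeff i (b m)| * (3 * 2 ^ (J + 1)) ^ i
      ≤ KK (3 * 2 ^ (J + 1)) := by
    have : 0 ≤ ∑ i ∈ range (2 * J + 1), |PowerSeries.coeff i (b m)| * (3 * 2 ^ (J + 1)) ^ i := by
      positivity
    linarith
  have hle : ∀ i, |PowerSeries.coeff (i + (2 * J + 1)) (b m) * Mr Y (i + (2 * J + 1)) N
      * Y ^ (J + 1)| ≤ 2 ^ (J + 1) * (|PowerSeries.coeff (i + (2 * J + 1)) (b m)|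
        * (3 * 2 ^ (J + 1)) ^ (i + (2 * J + 1))) := by
    intro i
    have h1 := Mr_level' hY hy hN (J + 1) (i + (2 * J + 1)) (by omega)
    rw [abs_mul, abs_mul, abs_of_pos (by positivity : 0 < Y ^ (J + 1)), mul_assoc]
    calc |PowerSeries.coeff (i + (2 * J + 1)) (b m)| * (|Mr Y (i + (2 * J + 1)) N| * Y ^ (J + 1))
        ≤ |PowerSeries.coeff (i + (2 * J + 1)) (b m)| * (2 ^ (J + 1)
          * (3 * 2 ^ (J + 1)) ^ (i + (2 * J + 1))) := by gcongr
      _ = _ := by ring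
  have s4 := s2.mul_right (Y ^ (J + 1))
  have s5 := s3.mul_left (2 ^ (J + 1))
  have u1 := hasSum_le (fun i => (abs_le.mp (hle i)).2) s4 s5
  have u2 := hasSum_le (fun i => (abs_le.mp (hle i)).1) s5.neg s4
  have hA : ∀ A : ℝ, |A| * Y ^ (J + 1) = |A * Y ^ (J + 1)| := by
    intro A
    rw [abs_mul, abs_of_pos (by positivity : 0 < Y ^ (J + 1))]
  rw [hA, abs_le]
  have h3 : (2 : ℝ) ^ (J + 1) * (S - ∑ i ∈ range (2 * J + 1),
      |PowerSeries.coeff i (b m)| * (3 * 2 ^ (J + 1)) ^ i) ≤ 2 ^ (J + 1) * KK (3 * 2 ^ (J + 1)) := by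
    gcongr
  constructor
  · change _ ≤ (∑' r, _ - _) * _
    linarith
  · change (∑' r, _ - _) * _ ≤ _
    linarith

lemma Lam_neg {Y : ℝ} (hY : 1 ≤ Y) {N : ℕ} (hy : |Y - N| ≤ 1) (hN : (N : ℝ) ≤ 2 * Y)
    (h : Y * (Y - N) < -(4 * KK 12)) (m : ℕ) : Lam (b m) Y N < 0 := by
  have hY0 : 0 < Y := by linarith
  have h1 := Lam_trunc hY hy hN 1 m
  have e1 : ∑ r ∈ range (2 * 1 + 1), PowerSeries.coeff r (b m) * Mr Y r N = 1 - N / Y := by
    simp [Finset.sum_range_succ, b_zero, b_one, b_two, Mr_one]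
  have e2 : (2 : ℝ) ^ (1 + 1) * KK (3 * 2 ^ (1 + 1)) = 4 * KK 12 := by norm_num
  rw [e1, e2] at h1
  by_contra hneg
  push Not at hneg
  have h2 : (Lam (b m) Y N - (1 - N / Y)) * Y ^ (1 + 1) ≤ 4 * KK 12 :=
    le_trans (mul_le_mul_of_nonneg_right (le_abs_self _) (by positivity)) h1
  have h3 : (1 - N / Y) * Y ^ (1 + 1) = Y * (Y - N) := by
    field_simp
    ring
  rw [sub_mul, h3] at h2
  have h4 : 0 ≤ Lam (b m) Y N * Y ^ (1 + 1) := by positivity
  linarith

lemma Hm_nonneg (m : ℕ) : 0 ≤ Hm m := Finset.sum_nonneg (fun l _ => by positivity)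

/-- localization of the largest root -/
theorem exists_root_bound : ∃ κ : ℝ, 0 < κ ∧ ∃ N₀ : ℕ, 1 ≤ N₀ ∧ ∀ m N : ℕ, N₀ ≤ N →
    ∀ ρ : ℝ, ρ = sSup {x : ℝ | (Op (m + 1) (Polynomial.X ^ N : Polynomial ℝ)).eval x = 0} →
    |ρ - Hm m - N| ≤ κ / N ∧ Lam (b m) (ρ - Hm m) N = 0 := by
  set κ : ℝ := max (2 * KK 8 * Real.exp 2) (4 * KK 12) + 1 with hκ
  have hK8 := KK_pos (by norm_num : (0 : ℝ) < 8)
  have hK12 := KK_pos (by norm_num : (0 : ℝ) < 12)
  have hκ1 : 2 * KK 8 * Real.exp 2 + 1 ≤ κ := by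
    rw [hκ]; linarith [le_max_left (2 * KK 8 * Real.exp 2) (4 * KK 12)]
  have hκ2 : 4 * KK 12 + 1 ≤ κ := by
    rw [hκ]; linarith [le_max_right (2 * KK 8 * Real.exp 2) (4 * KK 12)]
  have hκ0 : 1 < κ := by linarith
  refine ⟨κ, by linarith, ⌈4 * κ⌉₊ + 2, by omega, ?_⟩
  intro m N hN₀ ρ hρ
  have hNκ : 4 * κ ≤ N := (Nat.le_ceil _).trans (by exact_mod_cast (by omega : ⌈4 * κ⌉₊ ≤ N))
  have hN1 : (1 : ℝ) ≤ N := by linarith
  have hN0 : (0 : ℝ) < N := by linarith
  set f := Op (m + 1) (Polynomial.X ^ N : Polynomial ℝ) with hf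
  set Z : Set ℝ := {x : ℝ | f.eval x = 0} with hZ
  have hκN : κ / N ≤ 1 / 4 := by
    rw [div_le_div_iff₀ hN0 (by norm_num)]; linarith
  have hκN0 : 0 < κ / N := by positivity
  have hfac : (0 : ℝ) < m.factorial * Real.exp (Hm m) := by positivity
  -- positivity beyond
  have hpos : ∀ x, N + Hm m + κ / N < x → 0 < f.eval x := by
    intro x hx
    have hY1 : (N : ℝ) + κ / N < x - Hm m := by linarith
    have hY0 : 0 < x - Hm m := by linarith
    have h1 := Op_eval m N hY0 (by linarith)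
    rw [sub_add_cancel] at h1
    rw [hf, h1]
    have h2 : 0 < Lam (b m) (x - Hm m) N := by
      apply Lam_pos (by linarith) (by linarith)
      have h3 : κ < (x - Hm m) * (x - Hm m - N) := by
        have h4 : κ / N < x - Hm m - N := by linarith
        have h5 : (N : ℝ) < x - Hm m := by linarith
        calc κ = N * (κ / N) := by field_simp
          _ < (x - Hm m) * (x - Hm m - N) := by gcongr
      linarith
    positivity
  -- negative point
  have hneg : f.eval (N + Hm m - κ / N) < 0 := by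
    have hY0 : 0 < (N : ℝ) - κ / N := by linarith
    have h1 := Op_eval m N hY0 (by linarith)
    have e1 : (N : ℝ) - κ / N + Hm m = N + Hm m - κ / N := by ring
    rw [e1] at h1
    rw [hf, h1]
    have h2 : Lam (b m) (N - κ / N) N < 0 := by
      apply Lam_neg (by linarith) _ (by linarith)
      · have h3 : ((N : ℝ) - κ / N) * (N - κ / N - N) = -κ + (κ / N) * (κ / N) := by
          field_simp
          ring
        rw [h3]
        have h4 : κ / N * (κ / N) ≤ 1 / 4 * (1 / 4) := by gcongr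
        linarith
      · rw [show (N : ℝ) - κ / N - N = -(κ / N) by ring, abs_neg, abs_of_pos hκN0]
        linarith
    have h5 : 0 < m.factorial * Real.exp (Hm m) * ((N : ℝ) - κ / N) ^ N := by positivity
    exact mul_neg_of_pos_of_neg h5 h2
  -- intermediate value
  have hcont : Continuous (fun x => f.eval x) := f.continuous
  obtain ⟨x₀, hx₀, hx₀'⟩ : ∃ x ∈ Set.Icc (N + Hm m - κ / N) (N + Hm m + κ / N + 1), f.eval x = 0 := by
    have h1 := intermediate_value_Icc (by linarith :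
      (N : ℝ) + Hm m - κ / N ≤ N + Hm m + κ / N + 1) hcont.continuousOn
    exact h1 ⟨hneg.le, (hpos _ (by linarith)).le⟩
  have hZne : Z.Nonempty := ⟨x₀, hx₀'⟩
  have hub : ∀ x ∈ Z, x ≤ N + Hm m + κ / N := by
    intro x hx
    by_contra hcon
    push Not at hcon
    exact (hpos x hcon).ne' hx
  have hbdd : BddAbove Z := ⟨_, hub⟩
  have hclosed : IsClosed Z := isClosed_eq hcont continuous_const
  have hmem : ρ ∈ Z := by rw [hρ]; exact hclosed.csSup_mem hZne hbdd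
  have hge : x₀ ≤ ρ := by rw [hρ]; exact le_csSup hbdd hx₀'
  have hle := hub ρ hmem
  have hρ1 : N - κ / N ≤ ρ - Hm m := by linarith [hx₀.1]
  refine ⟨?_, ?_⟩
  · rw [abs_le]
    constructor <;> linarith
  · have hY0 : 0 < ρ - Hm m := by linarith
    have h1 := Op_eval m N hY0 (by linarith)
    rw [sub_add_cancel] at h1
    have h2 : (Op (m + 1) (Polynomial.X ^ N : Polynomial ℝ)).eval ρ = 0 := hmem
    rw [h2] at h1
    have h3 : m.factorial * Real.exp (Hm m) * (ρ - Hm m) ^ N ≠ 0 := by positivity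
    rcases mul_eq_zero.mp h1.symm with h | h
    · exact absurd h h3
    · exact h

end Pool.Agent.Helper70.LR
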