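import Pool.Agent.Helper70.LR6

open Filter Topology Finset Asymptotics Polynomial

noncomputable section

namespace Pool.Agent.Helper70.LR

/-- error class -/
def OO (J : ℕ) (f : ℕ → ℕ → ℝ) : Prop :=
  ∀ k, 1 ≤ k → (f k) =O[atTop] (fun n : ℕ => (1 / (n : ℝ)) ^ J)

/-- evaluation of a polynomial in `(k, T)` at `T = 1/n` -/
def ev (k n : ℕ) : ℝ[X][X] →+* ℝ :=
  (evalRingHom (1 / (n : ℝ))).comp (mapRingHom (evalRingHom (k : ℝ)))

lemma OO.add {J : ℕ} {f g : ℕ → ℕ → ℝ} (hf : OO J f) (hg : OO J g) :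
    OO J (fun k n => f k n + g k n) := fun k hk => (hf k hk).add (hg k hk)

lemma OO.neg {J : ℕ} {f : ℕ → ℕ → ℝ} (hf : OO J f) :
    OO J (fun k n => - f k n) := fun k hk => (hf k hk).neg_left

lemma OO.sub {J : ℕ} {f g : ℕ → ℕ → ℝ} (hf : OO J f) (hg : OO J g) :
    OO J (fun k n => f k n - g k n) := fun k hk => (hf k hk).sub (hg k hk)

lemma OO.mul {J J' : ℕ} {f g : ℕ → ℕ → ℝ} (hf : OO J f) (hg : OO J' g) :
    OO (J + J') (fun k n => f k n * g k n) := by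
  intro k hk
  have := (hf k hk).mul (hg k hk)
  simpa only [← pow_add] using this

lemma OO.mono {J J' : ℕ} (h : J' ≤ J) {f : ℕ → ℕ → ℝ} (hf : OO J f) : OO J' f := by
  intro k hk
  refine (hf k hk).trans (IsBigO.of_bound 1 ?_)
  filter_upwards [eventually_ge_atTop 1] with n hn
  rw [one_mul, Real.norm_of_nonneg (by positivity), Real.norm_of_nonneg (by positivity)]
  have hn' : (1 : ℝ) ≤ n := by exact_mod_cast hn
  exact pow_le_pow_of_le_one (by positivity)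
    (by rw [div_le_one (by positivity)]; exact hn') h

lemma OO_const (c : ℝ) : OO 0 (fun _ _ => c) := by
  intro k _
  simpa using isBigO_const_const c (one_ne_zero (α := ℝ)) atTop

lemma OO.congr {J : ℕ} {f g : ℕ → ℕ → ℝ} (hf : OO J f)
    (h : ∀ k, 1 ≤ k → ∀ᶠ n in atTop, f k n = g k n) : OO J g :=
  fun k hk => (hf k hk).congr' (h k hk) EventuallyEq.rfl

lemma OO_of_zero {J : ℕ} {f : ℕ → ℕ → ℝ} (h : ∀ k n, f k n = 0) : OO J f := by
  intro k _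
  have : f k = fun _ => 0 := funext (h k)
  rw [this]
  exact isBigO_zero _ _

/-- the coefficients of `T^m X^j` vanish unless `j + τ ≤ m` -/
def FF (τ : ℕ) (P : ℝ[X][X]) : Prop := ∀ m j, m < j + τ → (P.coeff m).coeff j = 0

lemma FF_zero (τ : ℕ) : FF τ 0 := fun m j _ => by simp

lemma FF.add {τ : ℕ} {P Q : ℝ[X][X]} (hP : FF τ P) (hQ : FF τ Q) : FF τ (P + Q) :=
  fun m j h => by rw [coeff_add, coeff_add, hP m j h, hQ m j h, add_zero]

lemma FF.neg {τ : ℕ} {P : ℝ[X][X]} (hP : FF τ P) : FF τ (-P) :=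
  fun m j h => by rw [coeff_neg, coeff_neg, hP m j h, neg_zero]

lemma FF.sub {τ : ℕ} {P Q : ℝ[X][X]} (hP : FF τ P) (hQ : FF τ Q) : FF τ (P - Q) :=
  fun m j h => by rw [coeff_sub, coeff_sub, hP m j h, hQ m j h, sub_zero]

lemma FF.mul {τ σ : ℕ} {P Q : ℝ[X][X]} (hP : FF τ P) (hQ : FF σ Q) : FF (τ + σ) (P * Q) := by
  intro m j h
  rw [coeff_mul, finsetSum_coeff]
  apply Finset.sum_eq_zero
  intro x hx
  rw [coeff_mul]
  apply Finset.sum_eq_zero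
  intro y hy
  rw [HasAntidiagonal.mem_antidiagonal] at hx hy
  by_cases h1 : x.1 < y.1 + τ
  · rw [hP _ _ h1, zero_mul]
  · rw [hQ _ _ (by omega), mul_zero]

lemma FF.mono {τ τ' : ℕ} (h : τ' ≤ τ) {P : ℝ[X][X]} (hP : FF τ P) : FF τ' P :=
  fun m j hm => hP m j (by omega)

lemma FF_C (c : ℝ) : FF 0 (C (C c)) := by
  intro m j h
  rw [coeff_C]
  split_ifs with h1
  · rw [coeff_C, if_neg (by omega)]
  · simp

lemma FF.coeff_eq_zero {τ : ℕ} {P : ℝ[X][X]} (hP : FF τ P) {m : ℕ} (h : m < τ) : P.coeff m = 0 := by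
  ext j
  rw [hP m j (by omega), coeff_zero]

lemma FF.OO {τ : ℕ} {P : ℝ[X][X]} (hP : FF τ P) : OO τ (fun k n => ev k n P) := by
  intro k _
  obtain ⟨Q, rfl⟩ := X_pow_dvd_iff.mpr (fun d (hd : d < τ) => hP.coeff_eq_zero hd)
  have h1 : (fun n => ev k n Q) =O[atTop] (fun _ : ℕ => (1 : ℝ)) := by
    have h2 : Tendsto (fun n : ℕ => (Q.map (evalRingHom (k : ℝ))).eval (1 / (n : ℝ))) atTop
        (𝓝 ((Q.map (evalRingHom (k : ℝ))).eval 0)) :=
      ((Q.map (evalRingHom (k : ℝ))).continuous.tendsto 0).comp tendsto_one_div_atTop_nhds_zero_nat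
    exact h2.isBigO_one ℝ
  have h3 := (isBigO_refl (fun n : ℕ => (1 / (n : ℝ)) ^ τ) atTop).mul h1
  simp only [mul_one] at h3
  refine h3.congr_left (fun n => ?_)
  change _ = ev k n (X ^ τ * Q)
  rw [map_mul, map_pow]
  congr 2
  simp [ev]

/-- expansion to order `J`, with filtration `τ` -/
def E (J τ : ℕ) (f : ℕ → ℕ → ℝ) : Prop := ∃ P, FF τ P ∧ OO J (fun k n => f k n - ev k n P)

lemma E.congr {J τ : ℕ} {f g : ℕ → ℕ → ℝ} (hf : E J τ f)
    (h : ∀ k, 1 ≤ k → ∀ᶠ n in atTop, f k n = g k n) : E J τ g := by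
  obtain ⟨P, hP, hO⟩ := hf
  exact ⟨P, hP, hO.congr (fun k hk => (h k hk).mono (fun n hn => by rw [hn]))⟩

lemma E.add {J τ : ℕ} {f g : ℕ → ℕ → ℝ} (hf : E J τ f) (hg : E J τ g) :
    E J τ (fun k n => f k n + g k n) := by
  obtain ⟨P, hP, hO⟩ := hf
  obtain ⟨Q, hQ, hO'⟩ := hg
  refine ⟨P + Q, hP.add hQ, (hO.add hO').congr (fun k _ => Eventually.of_forall (fun n => ?_))⟩
  rw [map_add]; ring

lemma E.neg {J τ : ℕ} {f : ℕ → ℕ → ℝ} (hf : E J τ f) : E J τ (fun k n => - f k n) := by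
  obtain ⟨P, hP, hO⟩ := hf
  refine ⟨-P, hP.neg, hO.neg.congr (fun k _ => Eventually.of_forall (fun n => ?_))⟩
  rw [map_neg]; ring

lemma E.sub {J τ : ℕ} {f g : ℕ → ℕ → ℝ} (hf : E J τ f) (hg : E J τ g) :
    E J τ (fun k n => f k n - g k n) := by
  obtain ⟨P, hP, hO⟩ := hf
  obtain ⟨Q, hQ, hO'⟩ := hg
  refine ⟨P - Q, hP.sub hQ, (hO.sub hO').congr (fun k _ => Eventually.of_forall (fun n => ?_))⟩
  rw [map_sub]; ring

lemma E.mono {J J' τ τ' : ℕ} {f : ℕ → ℕ → ℝ} (hf : E J τ f) (hJ : J' ≤ J) (hτ : τ' ≤ τ) :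
    E J' τ' f := by
  obtain ⟨P, hP, hO⟩ := hf
  exact ⟨P, hP.mono hτ, hO.mono hJ⟩

lemma OO.E {J : ℕ} {f : ℕ → ℕ → ℝ} (hf : OO J f) (τ : ℕ) : E J τ f :=
  ⟨0, FF_zero τ, by simpa using hf⟩

lemma E.OO {J τ : ℕ} (h : τ ≤ J) {f : ℕ → ℕ → ℝ} (hf : E J τ f) : OO τ f := by
  obtain ⟨P, hP, hO⟩ := hf
  exact ((hO.mono h).add hP.OO).congr (fun k _ => Eventually.of_forall (fun n => by ring))

lemma E.mul {J J' τ σ K : ℕ} {f g : ℕ → ℕ → ℝ} (hf : E J τ f) (hg : E J' σ g)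
    (hσ : σ ≤ J') (h1 : K ≤ J + σ) (h2 : K ≤ J' + τ) :
    E K (τ + σ) (fun k n => f k n * g k n) := by
  have hg' := hg.OO hσ
  obtain ⟨P, hP, hO⟩ := hf
  obtain ⟨Q, hQ, hO'⟩ := hg
  refine ⟨P * Q, hP.mul hQ, ?_⟩
  have e1 := (hO.mul hg').mono h1
  have e2 := (hP.OO.mul hO').mono (by omega : K ≤ τ + J')
  refine (e1.add e2).congr (fun k _ => Eventually.of_forall (fun n => ?_))
  rw [map_mul]; ring

/-- full expansion with filtration `τ` -/
def Ex (τ : ℕ) (f : ℕ → ℕ → ℝ) : Prop := ∀ J, E J τ f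

lemma Ex.congr {τ : ℕ} {f g : ℕ → ℕ → ℝ} (hf : Ex τ f)
    (h : ∀ k, 1 ≤ k → ∀ᶠ n in atTop, f k n = g k n) : Ex τ g := fun J => (hf J).congr h

lemma Ex.congr' {τ : ℕ} {f g : ℕ → ℕ → ℝ} (hf : Ex τ f)
    (h : ∀ k n, f k n = g k n) : Ex τ g := fun J => (hf J).congr
      (fun k _ => Eventually.of_forall (h k))

lemma E.congr' {J τ : ℕ} {f g : ℕ → ℕ → ℝ} (hf : E J τ f)
    (h : ∀ k n, f k n = g k n) : E J τ g := hf.congr (fun k _ => Eventually.of_forall (h k))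

lemma Ex.add {τ : ℕ} {f g : ℕ → ℕ → ℝ} (hf : Ex τ f) (hg : Ex τ g) :
    Ex τ (fun k n => f k n + g k n) := fun J => (hf J).add (hg J)

lemma Ex.neg {τ : ℕ} {f : ℕ → ℕ → ℝ} (hf : Ex τ f) :
    Ex τ (fun k n => - f k n) := fun J => (hf J).neg

lemma Ex.sub {τ : ℕ} {f g : ℕ → ℕ → ℝ} (hf : Ex τ f) (hg : Ex τ g) :
    Ex τ (fun k n => f k n - g k n) := fun J => (hf J).sub (hg J)

lemma Ex.mono {τ τ' : ℕ} {f : ℕ → ℕ → ℝ} (hf : Ex τ f) (h : τ' ≤ τ) : Ex τ' f :=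
  fun J => (hf J).mono le_rfl h

lemma Ex.OO {τ : ℕ} {f : ℕ → ℕ → ℝ} (hf : Ex τ f) : OO τ f := (hf τ).OO le_rfl

lemma Ex.mul {τ σ : ℕ} {f g : ℕ → ℕ → ℝ} (hf : Ex τ f) (hg : Ex σ g) :
    Ex (τ + σ) (fun k n => f k n * g k n) := by
  intro J
  exact E.mul (hf J) (hg (J + σ)) (by omega) (by omega) (by omega)

lemma Ex_const (c : ℝ) : Ex 0 (fun _ _ => c) := by
  intro J
  exact ⟨C (C c), FF_C c, OO_of_zero (fun k n => by simp [ev])⟩

lemma Ex.pow {τ : ℕ} {f : ℕ → ℕ → ℝ} (hf : Ex τ f) (r : ℕ) :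
    Ex (r * τ) (fun k n => f k n ^ r) := by
  induction r with
  | zero => simpa using Ex_const 1
  | succ r ih =>
    have := ih.mul hf
    rw [add_mul, one_mul]
    exact this.congr' (fun k n => by rw [pow_succ])

lemma Ex_sum {ι : Type*} {τ : ℕ} (s : Finset ι) {f : ι → ℕ → ℕ → ℝ} (hf : ∀ i ∈ s, Ex τ (f i)) :
    Ex τ (fun k n => ∑ i ∈ s, f i k n) := by
  classical
  induction s using Finset.induction_on with
  | empty =>
    intro J
    exact ⟨0, FF_zero τ, OO_of_zero (fun k n => by simp)⟩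
  | insert a s ha ih =>
    have h1 := (hf a (Finset.mem_insert_self a s)).add
      (ih (fun i hi => hf i (Finset.mem_insert_of_mem hi)))
    exact h1.congr' (fun k n => by rw [Finset.sum_insert ha])

lemma E_sum {ι : Type*} {J τ : ℕ} (s : Finset ι) {f : ι → ℕ → ℕ → ℝ}
    (hf : ∀ i ∈ s, E J τ (f i)) :
    E J τ (fun k n => ∑ i ∈ s, f i k n) := by
  classical
  induction s using Finset.induction_on with
  | empty =>
    exact ⟨0, FF_zero τ, OO_of_zero (fun k n => by simp)⟩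
  | insert a s ha ih =>
    have h1 := (hf a (Finset.mem_insert_self a s)).add
      (ih (fun i hi => hf i (Finset.mem_insert_of_mem hi)))
    exact h1.congr' (fun k n => by rw [Finset.sum_insert ha])

/-- the variable `1/n` -/
lemma Ex_t : Ex 1 (fun _ n => 1 / (n : ℝ)) := by
  intro J
  refine ⟨X, ?_, ?_⟩
  · intro m j h
    rw [coeff_X]
    split_ifs with h1
    · rw [coeff_one, if_neg (by omega)]
    · simp
  · exact OO_of_zero (fun k n => by simp [ev])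

/-- the geometric polynomial -/
def nuP (z : ℝ[X]) (J : ℕ) : ℝ[X][X] := ∑ i ∈ range J, C ((-z) ^ i) * X ^ (i + 1)

lemma nuP_coeff (z : ℝ[X]) (J m : ℕ) : (nuP z J).coeff (m + 1) = if m < J then (-z) ^ m else 0 := by
  unfold nuP
  rw [finsetSum_coeff]
  simp only [coeff_C_mul, coeff_X_pow, add_left_inj, mul_ite, mul_one, mul_zero]
  rw [Finset.sum_ite_eq]
  simp

lemma nuP_coeff_zero (z : ℝ[X]) (J : ℕ) : (nuP z J).coeff 0 = 0 := by
  unfold nuP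
  rw [finsetSum_coeff]
  apply Finset.sum_eq_zero
  intro i _
  simp [coeff_X_pow]

lemma FF_nuP (z : ℝ[X]) (hz : z.natDegree ≤ 1) (J : ℕ) : FF 1 (nuP z J) := by
  intro m j h
  rcases m with _ | m
  · rw [nuP_coeff_zero, coeff_zero]
  · rw [nuP_coeff]
    split_ifs with h1
    · apply coeff_eq_zero_of_natDegree_lt
      have h2 : ((-z) ^ m).natDegree ≤ m * 1 := natDegree_pow_le_of_le m (by rwa [natDegree_neg])
      omega
    · simp

lemma ev_nuP (z : ℝ[X]) (J : ℕ) (k n : ℕ) (hn : (0 : ℝ) < n) (hz : (0 : ℝ) < n + z.eval (k : ℝ)) :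
    1 / (n + z.eval (k : ℝ)) - ev k n (nuP z J)
      = (-(z.eval (k : ℝ)) * (1 / (n : ℝ))) ^ J * (1 / (n + z.eval (k : ℝ))) := by
  unfold nuP
  rw [map_sum]
  induction J with
  | zero => simp
  | succ J ih =>
    rw [Finset.sum_range_succ, ← sub_sub, ih, map_mul]
    have e1 : ev k n (C ((-z) ^ J)) = (-(z.eval (k : ℝ))) ^ J := by simp [ev]
    have e2 : ev k n X = 1 / (n : ℝ) := by simp [ev]
    have e3 : 1 / ((n : ℝ) + z.eval (k : ℝ)) - 1 / n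
        = -(z.eval (k : ℝ)) * (1 / (n : ℝ)) * (1 / (n + z.eval (k : ℝ))) := by
      field_simp
      ring
    rw [e1, map_pow, e2, pow_succ (1 / (n : ℝ)), ← mul_assoc, ← mul_pow,
      pow_succ (-(z.eval (k : ℝ)) * (1 / (n : ℝ)))]
    linear_combination (-(z.eval (k : ℝ)) * (1 / (n : ℝ))) ^ J * e3

lemma Ex_nu (z : ℝ[X]) (hz : z.natDegree ≤ 1) :
    Ex 1 (fun k n => 1 / ((n : ℝ) + z.eval (k : ℝ))) := by
  intro J
  refine ⟨nuP z J, FF_nuP z hz J, ?_⟩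
  intro k _
  have h1 : (fun n : ℕ => 1 / ((n : ℝ) + z.eval (k : ℝ))) =O[atTop] (fun _ : ℕ => (1 : ℝ)) := by
    apply Tendsto.isBigO_one (F := ℝ) (c := 0)
    have h2 : Tendsto (fun n : ℕ => (n : ℝ) + z.eval (k : ℝ)) atTop atTop :=
      tendsto_atTop_add_const_right _ _ tendsto_natCast_atTop_atTop
    have h3 := h2.inv_tendsto_atTop
    refine h3.congr (fun n => ?_)
    simp [Pi.inv_apply]
  have h3 : (fun n : ℕ => (-(z.eval (k : ℝ)) * (1 / (n : ℝ))) ^ J) =O[atTop]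
      (fun n : ℕ => (1 / (n : ℝ)) ^ J) := by
    apply IsBigO.pow
    exact isBigO_const_mul_self _ _ _
  have h4 := h3.mul h1
  simp only [mul_one] at h4
  refine h4.congr' ?_ EventuallyEq.rfl
  have h5 : ∀ᶠ n : ℕ in atTop, (0 : ℝ) < n + z.eval (k : ℝ) := by
    have h2 : Tendsto (fun n : ℕ => (n : ℝ) + z.eval (k : ℝ)) atTop atTop :=
      tendsto_atTop_add_const_right _ _ tendsto_natCast_atTop_atTop
    exact h2.eventually_gt_atTop 0
  filter_upwards [h5, eventually_gt_atTop 0] with n hn hn0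
  exact (ev_nuP z J k n (by exact_mod_cast hn0) hn).symm

/-- freezing `k` -/
lemma E.fix {J τ : ℕ} {f : ℕ → ℕ → ℝ} (hf : E J τ f) (k₀ : ℕ) (hk₀ : 1 ≤ k₀) :
    E J τ (fun _ n => f k₀ n) := by
  obtain ⟨P, hP, hO⟩ := hf
  refine ⟨P.map (C.comp (evalRingHom (k₀ : ℝ))), ?_, ?_⟩
  · intro m j h
    rw [coeff_map, RingHom.comp_apply, coeff_C]
    split_ifs with h1
    · subst h1
      rw [hP.coeff_eq_zero (by omega)]
      simp
    · rfl
  · intro k _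
    refine (hO k₀ hk₀).congr_left (fun n => ?_)
    simp only [ev, RingHom.comp_apply, coe_mapRingHom, Polynomial.map_map]
    congr 2
    ext x
    · simp

lemma Ex.fix {τ : ℕ} {f : ℕ → ℕ → ℝ} (hf : Ex τ f) (k₀ : ℕ) (hk₀ : 1 ≤ k₀) :
    Ex τ (fun _ n => f k₀ n) := fun J => (hf J).fix k₀ hk₀

end Pool.Agent.Helper70.LR
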