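import Pool.Agent.Helper70.LR7

open Filter Topology Finset Asymptotics Polynomial

noncomputable section

namespace Pool.Agent.Helper70.LR

lemma poly_O {i : ℕ} {Q : ℝ[X]} (h : ∀ l < i, Q.coeff l = 0) :
    (fun n : ℕ => Q.eval (1 / (n : ℝ))) =O[atTop] (fun n : ℕ => (1 / (n : ℝ)) ^ i) := by
  obtain ⟨Q, rfl⟩ := X_pow_dvd_iff.mpr h
  have h1 : (fun n : ℕ => Q.eval (1 / (n : ℝ))) =O[atTop] (fun _ : ℕ => (1 : ℝ)) := by
    have h2 : Tendsto (fun n : ℕ => Q.eval (1 / (n : ℝ))) atTop (𝓝 (Q.eval 0)) :=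
      (Q.continuous.tendsto 0).comp tendsto_one_div_atTop_nhds_zero_nat
    exact h2.isBigO_one ℝ
  have h3 := (isBigO_refl (fun n : ℕ => (1 / (n : ℝ)) ^ i) atTop).mul h1
  simp only [mul_one] at h3
  refine h3.congr_left (fun n => ?_)
  rw [eval_mul, eval_pow, eval_X]

lemma E.seq {J τ : ℕ} {a : ℕ → ℝ} (h : E J τ (fun _ n => a n)) :
    ∃ P : ℝ[X], (∀ m < τ, P.coeff m = 0) ∧
      (fun n : ℕ => a n - P.eval (1 / (n : ℝ))) =O[atTop] (fun n : ℕ => (1 / (n : ℝ)) ^ J) := by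
  obtain ⟨P, hP, hO⟩ := h
  refine ⟨P.map (evalRingHom ((1 : ℕ) : ℝ)), ?_, ?_⟩
  · intro m hm
    rw [coeff_map, hP.coeff_eq_zero hm, map_zero]
  · exact hO 1 le_rfl

lemma E_of_seq {J τ : ℕ} {a : ℕ → ℝ} (P : ℝ[X]) (h : ∀ m < τ, P.coeff m = 0)
    (hO : (fun n : ℕ => a n - P.eval (1 / (n : ℝ))) =O[atTop] (fun n : ℕ => (1 / (n : ℝ)) ^ J)) :
    E J τ (fun _ n => a n) := by
  refine ⟨P.map C, ?_, ?_⟩
  · intro m j hm
    rw [coeff_map, coeff_C]
    split_ifs with h1
    · exact h m (by omega)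
    · rfl
  · intro k _
    refine hO.congr_left (fun n => ?_)
    simp only [ev, RingHom.comp_apply, coe_mapRingHom, Polynomial.map_map]
    congr 2
    have : (evalRingHom (k : ℝ)).comp C = RingHom.id ℝ := by ext x; simp
    rw [this, Polynomial.map_id]

lemma Ex_zero (τ : ℕ) : Ex τ (fun _ _ => 0) := fun _ => (OO_of_zero (fun _ _ => rfl)).E τ

lemma Ex_u : Ex 1 (fun _ n => 1 / ((n : ℝ) + 1)) := by
  have := Ex_nu 1 (by simp)
  exact this.congr' (fun k n => by simp)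

lemma Ex_v : Ex 1 (fun _ n => 1 / ((n : ℝ) - 1)) := by
  have := Ex_nu (-1) (by simp)
  exact this.congr' (fun k n => by simp [sub_eq_add_neg])

lemma Ex_t_sub_u : Ex 2 (fun _ n => 1 / (n : ℝ) - 1 / ((n : ℝ) + 1)) := by
  refine (Ex_t.mul Ex_u).congr (fun k _ => ?_)
  filter_upwards [eventually_gt_atTop 0] with n hn
  have : (0 : ℝ) < n := by exact_mod_cast hn
  field_simp
  ring

lemma Ex_step (j : ℕ) : Ex (j + 2) (fun _ n => (1 / ((n : ℝ) + 1)) ^ j - (1 / (n : ℝ)) ^ j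
    + j * (1 / (n : ℝ)) ^ (j + 1)) := by
  induction j with
  | zero => exact (Ex_zero _).congr' (fun k n => by simp)
  | succ j ih =>
    have h1 := Ex_u.mul ih
    have h2 := (Ex_t.pow j).mul ((Ex_t.pow 2).mul Ex_u)
    have h3 := ((Ex_const j).mul (Ex_t.pow (j + 1))).mul Ex_t_sub_u
    have h4 := ((h1.mono (by omega : j + 1 + 2 ≤ 1 + (j + 2))).add
      (h2.mono (by omega : j + 1 + 2 ≤ j * 1 + (2 * 1 + 1)))).add
      (h3.mono (by omega : j + 1 + 2 ≤ 0 + (j + 1) * 1 + 2))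
    refine h4.congr (fun k _ => ?_)
    filter_upwards [eventually_gt_atTop 0] with n hn
    have hn' : (0 : ℝ) < n := by exact_mod_cast hn
    have e : (1 / (n : ℝ)) ^ 2 * (1 / ((n : ℝ) + 1)) = 1 / ((n : ℝ) + 1) - 1 / n + (1 / (n : ℝ)) ^ 2 := by
      field_simp
      ring
    rw [e]
    push_cast
    ring

lemma exists_primitive (J : ℕ) : ∀ s i : ℕ, i + s = J → 2 ≤ i → ∀ Q : ℝ[X],
    (∀ l < i, Q.coeff l = 0) → ∃ P : ℝ[X], (∀ l < i - 1, P.coeff l = 0) ∧
      (fun n : ℕ => P.eval (1 / ((n : ℝ) + 1)) - P.eval (1 / (n : ℝ)) - Q.eval (1 / (n : ℝ)))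
        =O[atTop] (fun n : ℕ => (1 / (n : ℝ)) ^ J) := by
  intro s
  induction s with
  | zero =>
    intro i hi h2 Q hQ
    refine ⟨0, by simp, ?_⟩
    have := (poly_O hQ).neg_left
    rw [show i = J by omega] at this
    refine this.congr_left (fun n => by simp)
  | succ s ih =>
    intro i hi h2 Q hQ
    obtain ⟨j, rfl⟩ : ∃ j, i = j + 2 := ⟨i - 2, by omega⟩
    obtain ⟨R, hR, hRO⟩ := (Ex_step (j + 1) J).seq
    set q := Q.coeff (j + 2) with hq
    set Q' : ℝ[X] := C (q / (j + 1)) * R + (Q - C q * X ^ (j + 2)) with hQ'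
    have hQ'0 : ∀ l < j + 3, Q'.coeff l = 0 := by
      intro l hl
      rw [hQ', coeff_add, coeff_C_mul, hR l (by omega), coeff_sub, coeff_C_mul, coeff_X_pow]
      split_ifs with h3
      · rw [h3, ← hq]; ring
      · rw [hQ l (by omega)]; ring
    obtain ⟨P', hP', hP'O⟩ := ih (j + 3) (by omega) (by omega) Q' hQ'0
    refine ⟨P' - C (q / (j + 1)) * X ^ (j + 1), ?_, ?_⟩
    · intro l hl
      rw [coeff_sub, coeff_C_mul, coeff_X_pow, if_neg (by omega), hP' l (by omega)]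
      ring
    · have h3 := hP'O.sub (hRO.const_mul_left (q / (j + 1)))
      refine h3.congr_left (fun n => ?_)
      have hj : ((j : ℝ) + 1) ≠ 0 := by positivity
      simp only [hQ', eval_sub, eval_add, eval_mul, eval_C, eval_pow, eval_X]
      push_cast
      field_simp
      ring

lemma tail_bound {J : ℕ} (hJ : 1 ≤ J) {d : ℕ → ℝ} (hd : Tendsto d atTop (𝓝 0))
    (h : (fun n : ℕ => d (n + 1) - d n) =O[atTop] (fun n : ℕ => (1 / (n : ℝ)) ^ (J + 1))) :
    d =O[atTop] (fun n : ℕ => (1 / (n : ℝ)) ^ J) := by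
  obtain ⟨C, hC0, hC⟩ := h.exists_pos
  rw [IsBigOWith] at hC
  obtain ⟨n₀, hn₀⟩ := eventually_atTop.mp (hC.and (eventually_ge_atTop 1))
  have key : ∀ n, n₀ ≤ n → (1 / (n : ℝ)) ^ (J + 1)
      ≤ 2 ^ J * ((1 / (n : ℝ)) ^ J - (1 / ((n + 1 : ℕ) : ℝ)) ^ J) := by
    intro n hn
    have hn1 : (1 : ℝ) ≤ n := by exact_mod_cast (hn₀ n hn).2
    have hn0 : (0 : ℝ) < n := by linarith
    obtain ⟨j, rfl⟩ : ∃ j, J = j + 1 := ⟨J - 1, by omega⟩
    push_cast
    set t := 1 / (n : ℝ) with ht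
    set u := 1 / ((n : ℝ) + 1) with hu
    have hu0 : 0 < u := by positivity
    have ht0 : 0 < t := by positivity
    have hut : u ≤ t := by
      rw [hu, ht]; gcongr; linarith
    have htu : t ≤ 2 * u := by
      rw [hu, ht, mul_one_div, div_le_div_iff₀ hn0 (by positivity)]; linarith
    have e : t - u = t * u := by
      rw [hu, ht]; field_simp; ring
    have h1 : t * u ^ j ≤ t ^ (j + 1) := by
      rw [pow_succ']; gcongr
    have h2 : t * u ^ (j + 1) ≤ t ^ (j + 1) - u ^ (j + 1) := by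
      have : t * u ^ (j + 1) = (t - u) * u ^ j := by rw [e]; ring
      rw [this, sub_mul]
      have : u * u ^ j = u ^ (j + 1) := by ring
      linarith
    have h3 : t ^ (j + 1) ≤ 2 ^ (j + 1) * u ^ (j + 1) := by
      rw [← mul_pow]; gcongr
    calc t ^ (j + 1 + 1) = t * t ^ (j + 1) := by ring
      _ ≤ t * (2 ^ (j + 1) * u ^ (j + 1)) := by gcongr
      _ = 2 ^ (j + 1) * (t * u ^ (j + 1)) := by ring
      _ ≤ _ := by gcongr
  have htend : Tendsto (fun n : ℕ => C * 2 ^ J * (1 / (n : ℝ)) ^ J) atTop (𝓝 0) := by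
    have h1 : Tendsto (fun n : ℕ => (1 / (n : ℝ)) ^ J) atTop (𝓝 (0 ^ J)) :=
      tendsto_one_div_atTop_nhds_zero_nat.pow J
    rw [zero_pow (by omega)] at h1
    simpa using h1.const_mul (C * 2 ^ J)
  have hgen : ∀ e : ℕ → ℝ, Tendsto e atTop (𝓝 0) → (∀ n, n₀ ≤ n → e (n + 1) ≤ e n) →
      ∀ n, n₀ ≤ n → 0 ≤ e n := by
    intro e he hle n hn
    have h1 : Antitone (fun m => e (n₀ + m)) := by
      apply antitone_nat_of_succ_le
      intro m
      exact hle (n₀ + m) (by omega)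
    have h2 : Tendsto (fun m => e (n₀ + m)) atTop (𝓝 0) := by
      have := (tendsto_add_atTop_iff_nat n₀).mpr he
      refine this.congr (fun m => by rw [add_comm])
    have h3 := h1.le_of_tendsto h2 (n - n₀)
    simpa [Nat.add_sub_cancel' hn] using h3
  refine IsBigO.of_bound (C * 2 ^ J) ?_
  filter_upwards [eventually_ge_atTop n₀] with n hn
  have hΔ : ∀ n, n₀ ≤ n → |d (n + 1) - d n| ≤ C * 2 ^ J * (1 / (n : ℝ)) ^ J
      - C * 2 ^ J * (1 / ((n + 1 : ℕ) : ℝ)) ^ J := by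
    intro n hn
    have h1 := (hn₀ n hn).1
    rw [Real.norm_eq_abs, Real.norm_of_nonneg (by positivity)] at h1
    calc |d (n + 1) - d n| ≤ C * (1 / (n : ℝ)) ^ (J + 1) := h1
      _ ≤ C * (2 ^ J * ((1 / (n : ℝ)) ^ J - (1 / ((n + 1 : ℕ) : ℝ)) ^ J)) := by
          gcongr; exact key n hn
      _ = _ := by ring
  have h1 := hgen (fun n => C * 2 ^ J * (1 / (n : ℝ)) ^ J - d n) (by simpa using htend.sub hd)
    (fun n hn => by have := (abs_le.mp (hΔ n hn)).1; linarith) n hn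
  have h2 := hgen (fun n => C * 2 ^ J * (1 / (n : ℝ)) ^ J + d n) (by simpa using htend.add hd)
    (fun n hn => by have := (abs_le.mp (hΔ n hn)).2; linarith) n hn
  rw [Real.norm_eq_abs, Real.norm_of_nonneg (by positivity), abs_le]
  constructor <;> linarith

/-- the difference lemma -/
theorem Ex_of_diff {a : ℕ → ℝ} (h : Ex 2 (fun _ n => a (n + 1) - a n)) :
    ∃ ℓ, Tendsto a atTop (𝓝 ℓ) ∧ Ex 1 (fun _ n => a n - ℓ) := by
  have hO := h.OO 1 le_rfl
  have hs : Summable (fun n => a (n + 1) - a n) := by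
    refine summable_of_isBigO_nat ?_ hO
    have := Real.summable_one_div_nat_pow.mpr (by norm_num : 1 < 2)
    simpa [div_pow] using this
  obtain ⟨S, hS⟩ := hs
  have ht : Tendsto a atTop (𝓝 (a 0 + S)) := by
    have h1 := hS.tendsto_sum_nat
    have h2 := h1.const_add (a 0)
    refine h2.congr (fun n => ?_)
    rw [Finset.sum_range_sub]; ring
  refine ⟨a 0 + S, ht, ?_⟩
  set ℓ := a 0 + S with hℓ
  have main : ∀ J, 1 ≤ J → E J 1 (fun _ n => a n - ℓ) := by
    intro J hJ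
    obtain ⟨Q, hQ, hQO⟩ := (h (J + 1)).seq
    obtain ⟨P, hP, hPO⟩ := exists_primitive (J + 1) (J - 1) 2 (by omega) le_rfl Q hQ
    refine E_of_seq P (fun m hm => hP m (by omega)) ?_
    apply tail_bound hJ
    · have h1 : Tendsto (fun n : ℕ => P.eval (1 / (n : ℝ))) atTop (𝓝 (P.eval 0)) :=
        (P.continuous.tendsto 0).comp tendsto_one_div_atTop_nhds_zero_nat
      have h2 : P.eval 0 = 0 := by
        rw [← coeff_zero_eq_eval_zero]; exact hP 0 (by omega)
      rw [h2] at h1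
      have h3 := (ht.sub_const ℓ).sub h1
      simpa using h3
    · refine (hQO.sub hPO).congr_left (fun n => ?_)
      push_cast
      ring
  intro J
  exact (main (J + 1) (by omega)).mono (by omega) le_rfl

/-! ### the coefficient sequences -/

/-- coefficient sequences -/
def Bs (r n : ℕ) : ℝ := PowerSeries.coeff r (b (n - 2))

lemma Bs_succ (r n : ℕ) (hn : 2 ≤ n) : Bs r (n + 1) - Bs r n
    = ∑ j ∈ range r, Bs j n * ((-(1 / ((n : ℝ) - 1))) ^ (r - j)
      / (r - j).factorial * (1 - ((r - j : ℕ) : ℝ))) := by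
  unfold Bs
  rw [show n + 1 - 2 = (n - 2) + 1 by omega, b_coeff_succ, Finset.sum_range_succ]
  have h1 : (((n - 2 : ℕ) : ℝ) + 1) = n - 1 := by
    rw [Nat.cast_sub hn]; push_cast; ring
  rw [h1]
  simp

lemma Bs_all (r : ℕ) : Ex 0 (fun _ n => Bs r n) ∧ Ex 2 (fun _ n => Bs r (n + 1) - Bs r n) := by
  induction r using Nat.strong_induction_on with
  | _ r ih =>
    have h2 : Ex 2 (fun _ n => Bs r (n + 1) - Bs r n) := by
      have h3 : Ex 2 (fun _ n => ∑ j ∈ range r, Bs j n * ((-(1 / ((n : ℝ) - 1))) ^ (r - j)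
          / (r - j).factorial * (1 - ((r - j : ℕ) : ℝ)))) := by
        apply Ex_sum
        intro j hj
        rw [Finset.mem_range] at hj
        by_cases h4 : r - j = 1
        · refine (Ex_zero 2).congr' (fun k n => ?_)
          rw [h4]; simp
        · have h5 := (ih j hj).1.mul ((Ex_v.neg.pow (r - j)).mul
            (Ex_const (1 / (r - j).factorial * (1 - ((r - j : ℕ) : ℝ)))))
          refine (h5.mono (by omega)).congr' (fun k n => ?_)
          ring
      refine h3.congr (fun k _ => ?_)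
      filter_upwards [eventually_ge_atTop 2] with n hn
      exact (Bs_succ r n hn).symm
    refine ⟨?_, h2⟩
    obtain ⟨ℓ, _, h⟩ := Ex_of_diff h2
    have h6 := (h.mono (by omega : 0 ≤ 1)).add (Ex_const ℓ)
    exact h6.congr' (fun k n => by ring)

lemma Ex_log : Ex 2 (fun _ n => Real.log ((n : ℝ) + 1) - Real.log n - 1 / n) := by
  intro J
  refine E_of_seq (- ∑ i ∈ range J, C ((-1 : ℝ) ^ (i + 2) / (i + 2)) * X ^ (i + 2)) ?_ ?_
  · intro m hm
    rw [coeff_neg, finsetSum_coeff, neg_eq_zero]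
    apply Finset.sum_eq_zero
    intro i _
    rw [coeff_C_mul, coeff_X_pow, if_neg (by omega), mul_zero]
  · refine IsBigO.of_bound 2 ?_
    filter_upwards [eventually_ge_atTop 2] with n hn
    have hn2 : (2 : ℝ) ≤ n := by exact_mod_cast hn
    have hn0 : (0 : ℝ) < n := by linarith
    have hx : |-(1 / (n : ℝ))| = 1 / n := by rw [abs_neg, abs_of_nonneg (by positivity)]
    have hx2 : 1 / (n : ℝ) ≤ 1 / 2 := by gcongr
    have h1 := Real.abs_log_sub_add_sum_range_le (x := -(1 / (n : ℝ)))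
      (by rw [hx]; linarith) (J + 1)
    rw [hx] at h1
    have e1 : Real.log (1 - -(1 / (n : ℝ))) = Real.log ((n : ℝ) + 1) - Real.log n := by
      rw [← Real.log_div (by positivity) (by positivity)]
      congr 1
      field_simp
      ring
    rw [e1, Finset.sum_range_succ'] at h1
    have e2 : Real.log ((n : ℝ) + 1) - Real.log n - 1 / n
        - (- ∑ i ∈ range J, C ((-1 : ℝ) ^ (i + 2) / (i + 2)) * X ^ (i + 2)).eval (1 / (n : ℝ))
        = ∑ k ∈ range J, (-(1 / (n : ℝ))) ^ (k + 1 + 1) / (((k + 1 : ℕ) : ℝ) + 1)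
          + (-(1 / (n : ℝ))) ^ (0 + 1) / (((0 : ℕ) : ℝ) + 1)
          + (Real.log ((n : ℝ) + 1) - Real.log n) := by
      rw [eval_neg, eval_finset_sum]
      have e3 : ∀ i ∈ range J, (C ((-1 : ℝ) ^ (i + 2) / (i + 2)) * X ^ (i + 2) : ℝ[X]).eval
          (1 / (n : ℝ)) = (-(1 / (n : ℝ))) ^ (i + 1 + 1) / (((i + 1 : ℕ) : ℝ) + 1) := by
        intro i _
        rw [eval_mul, eval_C, eval_pow, eval_X, neg_pow (1 / (n : ℝ))]
        push_cast
        ring
      rw [Finset.sum_congr rfl e3]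
      push_cast
      ring
    rw [e2, Real.norm_eq_abs, Real.norm_of_nonneg (by positivity)]
    refine h1.trans ?_
    have h4 : (1 / (n : ℝ)) ^ (J + 1 + 1) ≤ (1 / (n : ℝ)) ^ J := by
      apply pow_le_pow_of_le_one (by positivity) (by linarith) (by omega)
    rw [div_le_iff₀ (by linarith)]
    nlinarith [pow_pos (by positivity : 0 < 1 / (n : ℝ)) J]

lemma Hm_eq (m : ℕ) : Hm m = (harmonic m : ℝ) := by
  unfold Hm harmonic
  push_cast
  apply Finset.sum_congr rfl
  intro i _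
  rw [one_div]

lemma Hs_diff : Ex 2 (fun _ n => (Hm (n + 1 - 2) - Real.log ((n + 1 : ℕ) : ℝ))
    - (Hm (n - 2) - Real.log (n : ℝ))) := by
  have h1 : Ex 2 (fun _ n => 1 / ((n : ℝ) - 1) - 1 / n) := by
    refine (Ex_t.mul Ex_v).congr (fun k _ => ?_)
    filter_upwards [eventually_ge_atTop 2] with n hn
    have hn2 : (2 : ℝ) ≤ n := by exact_mod_cast hn
    have : (n : ℝ) - 1 ≠ 0 := by linarith
    have : (n : ℝ) ≠ 0 := by linarith
    field_simp
    ring
  refine (h1.sub Ex_log).congr (fun k _ => ?_)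
  filter_upwards [eventually_ge_atTop 2] with n hn
  rw [show n + 1 - 2 = (n - 2) + 1 by omega, Hm_succ]
  have h1 : (((n - 2 : ℕ) : ℝ) + 1) = n - 1 := by
    rw [Nat.cast_sub hn]; push_cast; ring
  rw [h1]
  push_cast
  ring

lemma Hs_tendsto : Tendsto (fun n : ℕ => Hm (n - 2) - Real.log (n : ℝ)) atTop
    (𝓝 Real.eulerMascheroniConstant) := by
  have h1 := Real.tendsto_harmonic_sub_log
  have h2 : Tendsto (fun n : ℕ => 1 / (n : ℝ)) atTop (𝓝 0) := tendsto_one_div_atTop_nhds_zero_nat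
  have h3 : Tendsto (fun n : ℕ => 1 / ((n : ℝ) - 1)) atTop (𝓝 0) := by
    have h4 : Tendsto (fun n : ℕ => (n : ℝ) - 1) atTop atTop :=
      tendsto_atTop_add_const_right _ _ tendsto_natCast_atTop_atTop
    refine h4.inv_tendsto_atTop.congr (fun n => ?_)
    simp [Pi.inv_apply]
  have h5 := (h1.sub h2).sub h3
  rw [sub_zero, sub_zero] at h5
  refine h5.congr' ?_
  filter_upwards [eventually_ge_atTop 2] with n hn
  obtain ⟨m, rfl⟩ : ∃ m, n = m + 2 := ⟨n - 2, by omega⟩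
  rw [← Hm_eq, Hm_succ, Hm_succ, Nat.add_sub_cancel]
  push_cast
  ring

lemma Hs_Ex : Ex 1 (fun _ n => Hm (n - 2) - Real.log (n : ℝ) - Real.eulerMascheroniConstant) := by
  obtain ⟨ℓ, h1, h2⟩ := Ex_of_diff (a := fun n => Hm (n - 2) - Real.log (n : ℝ)) Hs_diff
  rw [tendsto_nhds_unique h1 Hs_tendsto] at h2
  exact h2

lemma Hs_neg (n : ℕ) (hn : 2 ≤ n) :
    Hm (n - 2) - Real.log (n : ℝ) - Real.eulerMascheroniConstant < 0 := by
  have h1 := Real.eulerMascheroniSeq_lt_eulerMascheroniConstant (n - 2)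
  unfold Real.eulerMascheroniSeq at h1
  rw [← Hm_eq] at h1
  have h2 : Real.log (((n - 2 : ℕ) : ℝ) + 1) ≤ Real.log (n : ℝ) := by
    apply Real.log_le_log (by positivity)
    rw [Nat.cast_sub hn]; push_cast; linarith
  linarith

end Pool.Agent.Helper70.LR
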