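import Pool.Agent.Helper70.LR8

open Filter Topology Finset Asymptotics Polynomial

noncomputable section

namespace Pool.Agent.Helper70.LR

/-- abstract data of the implicit equation -/
structure Dat (y ε ν : ℕ → ℕ → ℝ) (M : ℕ → ℕ → ℕ → ℝ) (B : ℕ → ℕ → ℝ) : Prop where
  hy : OO 1 y
  hε : OO 1 ε
  hν : Ex 1 ν
  hB : ∀ r, Ex 0 (fun _ n => B r n)
  M0 : ∀ k, 1 ≤ k → ∀ᶠ n in atTop, M 0 k n = 1
  M1 : ∀ k, 1 ≤ k → ∀ᶠ n in atTop, M 1 k n = ε k n * y k n
  M2 : ∀ r k, 1 ≤ k → ∀ᶠ n in atTop, M (r + 2) k n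
    = ε k n * ((((r : ℝ) + 1) + y k n) * M (r + 1) k n - ((r : ℝ) + 1) * M r k n)
  eps : ∀ k, 1 ≤ k → ∀ᶠ n in atTop, ε k n = ν k n - ν k n * (ε k n * y k n)
  rel : ∀ J, OO (J + 1) (fun k n => y k n + ∑ i ∈ range (2 * J), B (i + 3) n
    * ((((i : ℝ) + 2) + y k n) * M (i + 2) k n - ((i : ℝ) + 2) * M (i + 1) k n))

variable {y ε ν : ℕ → ℕ → ℝ} {M : ℕ → ℕ → ℕ → ℝ} {B : ℕ → ℕ → ℝ}

lemma Dat.main (D : Dat y ε ν M B) (J : ℕ) (hJ : 1 ≤ J) : E J 1 y ∧ E J 1 ε := by
  induction J, hJ using Nat.le_induction with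
  | base => exact ⟨D.hy.E 1, D.hε.E 1⟩
  | succ J hJ ih =>
    obtain ⟨hy, hε⟩ := ih
    have hεy : E (J + 1) 2 (fun k n => ε k n * y k n) :=
      E.mul hε hy hJ (by omega) (by omega)
    have hε' : E (J + 1) 1 ε := by
      have h1 : E (J + 1) 3 (fun k n => ν k n * (ε k n * y k n)) :=
        E.mul (D.hν (J + 1)) hεy (by omega) (by omega) (by omega)
      refine ((D.hν (J + 1)).sub (h1.mono le_rfl (by omega))).congr (fun k hk => ?_)
      filter_upwards [D.eps k hk] with n hn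
      exact hn.symm
    have hy0 : E J 0 y := hy.mono le_rfl (by omega)
    have hM : ∀ r, E J 0 (M r) ∧ E (J + 1) 1 (M (r + 1)) := by
      intro r
      induction r with
      | zero =>
        refine ⟨(Ex_const 1 J).congr (fun k hk => ?_), (hεy.mono le_rfl (by omega)).congr
          (fun k hk => ?_)⟩
        · filter_upwards [D.M0 k hk] with n hn
          exact hn.symm
        · filter_upwards [D.M1 k hk] with n hn
          exact hn.symm
      | succ r ihr =>
        have h0 : E J 0 (M (r + 1)) := ihr.2.mono (by omega) (by omega)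
        refine ⟨h0, ?_⟩
        have h1 : E J 0 (fun k n => ((((r : ℝ) + 1) + y k n) * M (r + 1) k n
            - ((r : ℝ) + 1) * M r k n)) := by
          refine (E.mul ((Ex_const ((r : ℝ) + 1) J).add hy0) h0 (by omega) le_rfl le_rfl).sub ?_
          exact E.mul (Ex_const ((r : ℝ) + 1) J) ihr.1 (by omega) le_rfl le_rfl
        have h2 : E (J + 1) 1 (fun k n => ε k n * ((((r : ℝ) + 1) + y k n) * M (r + 1) k n
            - ((r : ℝ) + 1) * M r k n)) := E.mul hε' h1 (by omega) le_rfl le_rfl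
        refine h2.congr (fun k hk => ?_)
        filter_upwards [D.M2 r k hk] with n hn
        exact hn.symm
    refine ⟨?_, hε'⟩
    have hG : E (J + 1) 1 (fun k n => ∑ i ∈ range (2 * J), B (i + 3) n
        * ((((i : ℝ) + 2) + y k n) * M (i + 2) k n - ((i : ℝ) + 2) * M (i + 1) k n)) := by
      apply E_sum
      intro i _
      have h1 : E (J + 1) 1 (fun k n => ((i : ℝ) + 2) * M (i + 2) k n) :=
        (E.mul (Ex_const ((i : ℝ) + 2) (J + 1)) (hM (i + 1)).2 (by omega)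
          (by omega) (by omega) : E (J + 1) (0 + 1) _).mono le_rfl (by omega)
      have h2 : E (J + 1) 1 (fun k n => y k n * M (i + 2) k n) :=
        (E.mul hy (hM (i + 1)).2 (by omega) (by omega) (by omega) : E (J + 1) (1 + 1) _).mono
          le_rfl (by omega)
      have h3 : E (J + 1) 1 (fun k n => ((i : ℝ) + 2) * M (i + 1) k n) :=
        (E.mul (Ex_const ((i : ℝ) + 2) (J + 1)) (hM i).2 (by omega)
          (by omega) (by omega) : E (J + 1) (0 + 1) _).mono le_rfl (by omega)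
      have h4 := (E.mul (D.hB (i + 3) (J + 1)) ((h1.add h2).sub h3) (by omega)
          (by omega) (by omega) : E (J + 1) (0 + 1) _).mono le_rfl (by omega : 1 ≤ 0 + 1)
      exact h4.congr' (fun k n => by ring)
    exact (((D.rel J).E 1).sub hG).congr' (fun k n => by ring)

lemma Dat.Exy (D : Dat y ε ν M B) : Ex 1 y := fun J =>
  (D.main (J + 1) (by omega)).1.mono (by omega) le_rfl

lemma Dat.Exε (D : Dat y ε ν M B) : Ex 1 ε := fun J =>
  (D.main (J + 1) (by omega)).2.mono (by omega) le_rfl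

lemma Dat.ExM1 (D : Dat y ε ν M B) : Ex 2 (M 1) := by
  refine (D.Exε.mul D.Exy).congr (fun k hk => ?_)
  filter_upwards [D.M1 k hk] with n hn
  exact hn.symm

lemma Dat.ExM0 (D : Dat y ε ν M B) : Ex 0 (M 0) := by
  refine (Ex_const 1).congr (fun k hk => ?_)
  filter_upwards [D.M0 k hk] with n hn
  exact hn.symm

lemma Dat.Exy0 (D : Dat y ε ν M B) : Ex 0 y := D.Exy.mono (by omega)

lemma Dat.ExM2 (D : Dat y ε ν M B) : Ex 2 (fun k n => M 2 k n + ε k n) := by
  have h1 := D.Exε.mul (((Ex_const 1).add D.Exy0).mul D.ExM1)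
  refine (h1.mono (by omega : 2 ≤ 1 + (0 + 2))).congr (fun k hk => ?_)
  filter_upwards [D.M2 0 k hk, D.M0 k hk] with n hn hn0
  rw [zero_add, zero_add] at hn
  rw [hn, hn0]
  push_cast
  ring

lemma Dat.ExMs (D : Dat y ε ν M B) (r : ℕ) : Ex 1 (M (r + 1)) := by
  induction r using Nat.strong_induction_on with
  | _ r ih =>
    rcases r with _ | _ | r
    · exact D.ExM1.mono (by omega)
    · refine ((D.ExM2.mono (by omega : 1 ≤ 2)).sub D.Exε).congr' (fun k n => ?_)
      simp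
    · have h1 := ((Ex_const (((r + 1 : ℕ) : ℝ) + 1)).add D.Exy0).mul
        ((ih (r + 1) (by omega)).mono (by omega : 0 ≤ 1))
      have h2 := (Ex_const (((r + 1 : ℕ) : ℝ) + 1)).mul ((ih r (by omega)).mono (by omega : 0 ≤ 1))
      refine (D.Exε.mul (h1.sub h2)).congr (fun k hk => ?_)
      filter_upwards [D.M2 (r + 1) k hk] with n hn
      exact hn.symm

lemma Dat.ExM3 (D : Dat y ε ν M B) (r : ℕ) : Ex 2 (M (r + 3)) := by
  have h1 := ((Ex_const (((r + 1 : ℕ) : ℝ) + 1)).add D.Exy0).mul (D.ExMs (r + 1))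
  have h2 := (Ex_const (((r + 1 : ℕ) : ℝ) + 1)).mul (D.ExMs r)
  refine (D.Exε.mul (h1.sub h2)).congr (fun k hk => ?_)
  filter_upwards [D.M2 (r + 1) k hk] with n hn
  exact hn.symm

/-- the leading corrections -/
def cc (i : ℕ) : ℝ := if i = 0 then -2 else if i = 1 then 3 else 0

lemma Dat.term (D : Dat y ε ν M B) (i : ℕ) : Ex 2 (fun k n =>
    ((((i : ℝ) + 2) + y k n) * M (i + 2) k n - ((i : ℝ) + 2) * M (i + 1) k n) - cc i * ε k n) := by
  rcases i with _ | _ | i
  · have h1 := (Ex_const 2).mul D.ExM2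
    have h2 := D.Exy.mul (D.ExMs 1)
    have h3 := (Ex_const 2).mul D.ExM1
    refine ((h1.add h2).sub h3).congr' (fun k n => ?_)
    simp [cc]
    ring
  · have h1 := ((Ex_const 3).add D.Exy0).mul (D.ExM3 0)
    have h2 := (Ex_const 3).mul D.ExM2
    refine (h1.sub h2).congr' (fun k n => ?_)
    simp [cc]
    ring
  · have h1 := ((Ex_const (((i + 1 + 1 : ℕ) : ℝ) + 2)).add D.Exy0).mul (D.ExM3 (i + 1))
    have h2 := (Ex_const (((i + 1 + 1 : ℕ) : ℝ) + 2)).mul (D.ExM3 i)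
    refine (h1.sub h2).congr' (fun k n => ?_)
    simp [cc]

theorem Dat.second (D : Dat y ε ν M B) {β₃ β₄ : ℝ} (h3 : Ex 1 (fun _ n => B 3 n - β₃))
    (h4 : Ex 1 (fun _ n => B 4 n - β₄)) :
    Ex 2 (fun k n => y k n - (2 * β₃ - 3 * β₄) * ν k n) := by
  intro J
  have h1 : E J 2 (fun k n => y k n + ∑ i ∈ range (2 * (J + 1)), B (i + 3) n
    * ((((i : ℝ) + 2) + y k n) * M (i + 2) k n - ((i : ℝ) + 2) * M (i + 1) k n)) :=
    ((D.rel (J + 1)).mono (by omega : J ≤ J + 1 + 1)).E 2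
  have h2 : Ex 2 (fun k n => ∑ i ∈ range (2 * (J + 1)), B (i + 3) n
    * (((((i : ℝ) + 2) + y k n) * M (i + 2) k n - ((i : ℝ) + 2) * M (i + 1) k n)
      - cc i * ε k n)) := by
    apply Ex_sum
    intro i _
    exact ((D.hB (i + 3)).mul (D.term i)).mono (by omega)
  have h5 : Ex 2 (fun k n => (B 3 n - β₃) * ε k n) := h3.mul D.Exε
  have h6 : Ex 2 (fun k n => (B 4 n - β₄) * ε k n) := h4.mul D.Exε
  have h7 : Ex 2 (fun k n => ε k n - ν k n) := by
    have h8 := (D.hν.mul (D.Exε.mul D.Exy)).neg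
    refine (h8.mono (by omega : 2 ≤ 1 + (1 + 1))).congr (fun k hk => ?_)
    filter_upwards [D.eps k hk] with n hn
    nth_rewrite 2 [hn]
    ring
  have h9 := ((h1.sub (h2 J)).add
    (((((Ex_const 2).mul h5).mono (by omega : 2 ≤ 0 + 2)) J).sub
     (((Ex_const 3).mul h6).mono (by omega : 2 ≤ 0 + 2) J))).add
     (((Ex_const (2 * β₃ - 3 * β₄)).mul h7).mono (by omega : 2 ≤ 0 + 2) J)
  refine h9.congr' (fun k n => ?_)
  have e : ∑ i ∈ range (2 * (J + 1)), B (i + 3) n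
    * (((((i : ℝ) + 2) + y k n) * M (i + 2) k n - ((i : ℝ) + 2) * M (i + 1) k n)
      - cc i * ε k n) = ∑ i ∈ range (2 * (J + 1)), B (i + 3) n
    * ((((i : ℝ) + 2) + y k n) * M (i + 2) k n - ((i : ℝ) + 2) * M (i + 1) k n)
      - (B 3 n * (-2) + B 4 n * 3) * ε k n := by
    simp only [mul_sub, Finset.sum_sub_distrib]
    congr 1
    rw [show 2 * (J + 1) = 2 * J + 1 + 1 by ring, Finset.sum_range_succ', Finset.sum_range_succ']
    have : ∑ i ∈ range (2 * J), B (i + 1 + 1 + 3) n * (cc (i + 1 + 1) * ε k n) = 0 := by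
      apply Finset.sum_eq_zero
      intro i _
      simp [cc]
    rw [this]
    simp [cc]
    ring
  rw [e]
  ring

end Pool.Agent.Helper70.LR
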