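import Mathlib

open Set Topology Filter

noncomputable section

namespace Pool.Agent.Helper70.PS

/-- exponents -/
def M : ℕ → ℕ
  | 0 => 1
  | (j + 1) => 2 * M j + 2

lemma M_pos (j : ℕ) : 1 ≤ M j := by
  cases j <;> simp [M]

lemma M_strictMono : StrictMono M := by
  apply strictMono_nat_of_lt_succ
  intro n
  simp [M]; omega

lemma M_lt {i j : ℕ} (h : j < i) : 2 * M j + 2 ≤ M i := by
  have : M (j + 1) ≤ M i := M_strictMono.monotone h
  simpa [M] using this

/-- rapidly growing sequence -/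
def bb (T : ℕ → ℝ) : ℕ → ℝ
  | j => ((j : ℝ) + 1) * ∑ i : Fin j, (bb T i) ^ (2 * M j + 1) + |T j| + 1
termination_by j => j
decreasing_by exact i.2

lemma bb_eq (T : ℕ → ℝ) (j : ℕ) :
    bb T j = ((j : ℝ) + 1) * ∑ i ∈ Finset.range j, (bb T i) ^ (2 * M j + 1) + |T j| + 1 := by
  rw [bb, Finset.sum_range]

lemma bb_ge_one (T : ℕ → ℝ) (j : ℕ) : 1 ≤ bb T j := by
  induction j using Nat.strong_induction_on with
  | _ j ih =>
    rw [bb_eq]
    have h1 : 0 ≤ ∑ i ∈ Finset.range j, (bb T i) ^ (2 * M j + 1) := by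
      apply Finset.sum_nonneg
      intro i hi
      have := ih i (Finset.mem_range.mp hi)
      positivity
    have h2 : 0 ≤ ((j : ℝ) + 1) * ∑ i ∈ Finset.range j, (bb T i) ^ (2 * M j + 1) := by positivity
    have h3 := abs_nonneg (T j)
    linarith

lemma bb_pos (T : ℕ → ℝ) (j : ℕ) : 0 < bb T j := lt_of_lt_of_le one_pos (bb_ge_one T j)

lemma bb_ge_T (T : ℕ → ℝ) (j : ℕ) : T j ≤ bb T j := by
  rw [bb_eq]
  have h1 : 0 ≤ ∑ i ∈ Finset.range j, (bb T i) ^ (2 * M j + 1) := by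
    apply Finset.sum_nonneg
    intro i _
    have := bb_pos T i
    positivity
  have h2 : 0 ≤ ((j : ℝ) + 1) * ∑ i ∈ Finset.range j, (bb T i) ^ (2 * M j + 1) := by positivity
  have h3 := le_abs_self (T j)
  linarith

lemma bb_ge_sum (T : ℕ → ℝ) (j : ℕ) :
    ((j : ℝ) + 1) * ∑ i ∈ Finset.range j, (bb T i) ^ (2 * M j + 1) ≤ bb T j := by
  conv_rhs => rw [bb_eq]
  have h3 := abs_nonneg (T j)
  linarith

/-- existence of bumps -/
lemma exists_bump (k : ℕ) : ∃ φ : ℝ → ℝ, ContDiff ℝ (⊤ : ℕ∞) φ ∧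
    tsupport φ ⊆ Ioo ((1 / 2 : ℝ) ^ (k + 1)) ((1 / 2 : ℝ) ^ k) ∧ HasCompactSupport φ ∧
    (∀ x, 0 ≤ φ x ∧ φ x ≤ 1) ∧ φ (3 / 4 * (1 / 2 : ℝ) ^ k) = 1 := by
  have hp : (0 : ℝ) < (1 / 2) ^ k := by positivity
  have hx : Ioo ((1 / 2 : ℝ) ^ (k + 1)) ((1 / 2 : ℝ) ^ k) ∈ 𝓝 (3 / 4 * (1 / 2 : ℝ) ^ k) := by
    apply Ioo_mem_nhds
    · rw [pow_succ]; linarith
    · linarith
  obtain ⟨f, h1, h2, h3, h4, h5⟩ := exists_contDiff_tsupport_subset (n := ⊤) hx
  exact ⟨f, h3, h1, h2, fun x => ⟨(h4 ⟨x, rfl⟩).1, (h4 ⟨x, rfl⟩).2⟩, h5⟩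

def phi (k : ℕ) : ℝ → ℝ := (exists_bump k).choose

lemma phi_smooth (k : ℕ) : ContDiff ℝ (⊤ : ℕ∞) (phi k) := (exists_bump k).choose_spec.1
lemma phi_tsupport (k : ℕ) : tsupport (phi k) ⊆ Ioo ((1 / 2 : ℝ) ^ (k + 1)) ((1 / 2 : ℝ) ^ k) :=
  (exists_bump k).choose_spec.2.1
lemma phi_compact (k : ℕ) : HasCompactSupport (phi k) := (exists_bump k).choose_spec.2.2.1
lemma phi_nonneg (k : ℕ) (x : ℝ) : 0 ≤ phi k x := ((exists_bump k).choose_spec.2.2.2.1 x).1
lemma phi_le_one (k : ℕ) (x : ℝ) : phi k x ≤ 1 := ((exists_bump k).choose_spec.2.2.2.1 x).2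
lemma phi_center (k : ℕ) : phi k (3 / 4 * (1 / 2 : ℝ) ^ k) = 1 :=
  (exists_bump k).choose_spec.2.2.2.2

lemma phi_bdd (k n : ℕ) : ∃ S : ℝ, 0 ≤ S ∧ ∀ x, |iteratedDeriv n (phi k) x| ≤ S := by
  have hc : Continuous (iteratedDeriv n (phi k)) := by
    apply ContDiff.continuous_iteratedDeriv n (phi_smooth k)
    exact_mod_cast le_top
  have hs : HasCompactSupport (iteratedDeriv n (phi k)) := by
    have := (phi_compact k).iteratedFDeriv (𝕜 := ℝ) n
    have h2 : iteratedDeriv n (phi k) = fun x => (iteratedFDeriv ℝ n (phi k) x) (fun _ => 1) := by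
      ext x; rw [iteratedDeriv_eq_iteratedFDeriv]
    rw [h2]
    exact this.comp_left (g := fun L => L (fun _ => (1:ℝ))) (by simp)
  obtain ⟨C, hC⟩ := hs.exists_bound_of_continuous hc
  refine ⟨|C|, abs_nonneg _, fun x => ?_⟩
  exact (hC x).trans (le_abs_self C)

def S (k n : ℕ) : ℝ := (phi_bdd k n).choose
lemma S_nonneg (k n : ℕ) : 0 ≤ S k n := (phi_bdd k n).choose_spec.1
lemma S_bound (k n : ℕ) (x : ℝ) : |iteratedDeriv n (phi k) x| ≤ S k n :=
  (phi_bdd k n).choose_spec.2 x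

/-- lower bounds required of the frequencies -/
def T (j : ℕ) : ℝ :=
  2 ^ (j + 3) +
    ((j : ℝ) + 1) * ((∑ k ∈ Finset.range (j + 1), (S k (2 * M j) + S k (2 * M j + 1)))
      + ((2 * M j + 1).factorial : ℝ) * ((j : ℝ) + 1) ^ (2 * M j + 1))

/-- frequencies -/
def b (j : ℕ) : ℝ := bb T j

lemma sumS_nonneg (j n m : ℕ) : 0 ≤ ∑ k ∈ Finset.range j, (S k n + S k m) :=
  Finset.sum_nonneg (fun k _ => add_nonneg (S_nonneg _ _) (S_nonneg _ _))

lemma b_ge_one (j : ℕ) : 1 ≤ b j := bb_ge_one T j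
lemma b_pos (j : ℕ) : 0 < b j := bb_pos T j

lemma b_ge_two_pow (j : ℕ) : 2 ^ (j + 3) ≤ b j := by
  refine le_trans ?_ (bb_ge_T T j)
  unfold T
  have := sumS_nonneg (j + 1) (2 * M j) (2 * M j + 1)
  have h2 : 0 ≤ ((2 * M j + 1).factorial : ℝ) * ((j : ℝ) + 1) ^ (2 * M j + 1) := by positivity
  have h3 : 0 ≤ ((j : ℝ) + 1) * ((∑ k ∈ Finset.range (j + 1), (S k (2 * M j) + S k (2 * M j + 1)))
      + ((2 * M j + 1).factorial : ℝ) * ((j : ℝ) + 1) ^ (2 * M j + 1)) := by positivity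
  linarith

lemma b_ge_S (j : ℕ) :
    ((j : ℝ) + 1) * (∑ k ∈ Finset.range (j + 1), (S k (2 * M j) + S k (2 * M j + 1))) ≤ b j := by
  refine le_trans ?_ (bb_ge_T T j)
  unfold T
  have h2 : 0 ≤ ((2 * M j + 1).factorial : ℝ) * ((j : ℝ) + 1) ^ (2 * M j + 1) := by positivity
  have h3 : (0:ℝ) < 2 ^ (j + 3) := by positivity
  have h4 : (0:ℝ) ≤ (j:ℝ) + 1 := by positivity
  nlinarith [mul_nonneg h4 h2]

lemma b_ge_fact (j : ℕ) :
    ((j : ℝ) + 1) * (((2 * M j + 1).factorial : ℝ) * ((j : ℝ) + 1) ^ (2 * M j + 1)) ≤ b j := by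
  refine le_trans ?_ (bb_ge_T T j)
  unfold T
  have h2 := sumS_nonneg (j + 1) (2 * M j) (2 * M j + 1)
  have h3 : (0:ℝ) < 2 ^ (j + 3) := by positivity
  have h4 : (0:ℝ) ≤ (j:ℝ) + 1 := by positivity
  nlinarith [mul_nonneg h4 h2]

lemma b_ge_low (j : ℕ) :
    ((j : ℝ) + 1) * ∑ i ∈ Finset.range j, (b i) ^ (2 * M j + 1) ≤ b j := bb_ge_sum T j

/-- size of the `j`-th term in the `n`-th derivative -/
def v (n j : ℕ) : ℝ := b j ^ n / b j ^ M j

lemma v_nonneg (n j : ℕ) : 0 ≤ v n j := by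
  have := b_pos j
  unfold v; positivity

lemma v_le_pow (n j : ℕ) : v n j ≤ b j ^ n := by
  unfold v
  apply div_le_self (by have := b_pos j; positivity)
  exact one_le_pow₀ (b_ge_one j)

lemma v_small {n j : ℕ} (h : n + 1 ≤ M j) : v n j ≤ (1 / 2) ^ (j + 3) := by
  unfold v
  have hb := b_pos j
  have h1 : b j ^ (n + 1) ≤ b j ^ M j := pow_le_pow_right₀ (b_ge_one j) h
  rw [div_le_iff₀ (by positivity)]
  have h2 := b_ge_two_pow j
  have h3 : (1 / 2 : ℝ) ^ (j + 3) * 2 ^ (j + 3) = 1 := by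
    rw [← mul_pow]; norm_num
  calc b j ^ n = (1 / 2 : ℝ) ^ (j + 3) * (2 ^ (j + 3) * b j ^ n) := by
        rw [← mul_assoc, h3, one_mul]
    _ ≤ (1 / 2 : ℝ) ^ (j + 3) * (b j * b j ^ n) := by gcongr
    _ = (1 / 2 : ℝ) ^ (j + 3) * b j ^ (n + 1) := by rw [pow_succ' (b j) n]
    _ ≤ (1 / 2 : ℝ) ^ (j + 3) * b j ^ M j := by gcongr

lemma v_summable (n : ℕ) : Summable (v n) := by
  have hs : Summable (fun j : ℕ => (1 / 2 : ℝ) ^ (j + 3)) := by
    simp_rw [pow_add]
    exact (summable_geometric_of_lt_one (by norm_num) (by norm_num)).mul_right _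
  refine hs.of_norm_bounded_eventually_nat ?_
  filter_upwards [eventually_ge_atTop (n + 1)] with j hj
  rw [Real.norm_of_nonneg (v_nonneg n j)]
  apply v_small
  exact hj.trans (M_strictMono.id_le j)

lemma v_zero_tsum : ∑' j, v 0 j ≤ 1 / 4 := by
  have hs : Summable (fun j : ℕ => (1 / 2 : ℝ) ^ (j + 3)) := by
    simp_rw [pow_add]
    exact (summable_geometric_of_lt_one (by norm_num) (by norm_num)).mul_right _
  calc ∑' j, v 0 j ≤ ∑' j : ℕ, (1 / 2 : ℝ) ^ (j + 3) :=
        Summable.tsum_le_tsum (fun j => v_small (by simpa using M_pos j)) (v_summable 0) hs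
    _ = 1 / 4 := by
        simp_rw [pow_add]
        rw [tsum_mul_right, tsum_geometric_of_lt_one (by norm_num) (by norm_num)]
        norm_num

/-- main term lower bound -/
lemma v_main {n j : ℕ} (h : M j + 1 ≤ n) : b j ≤ v n j := by
  unfold v
  have hb := b_pos j
  rw [le_div_iff₀ (by positivity)]
  calc b j * b j ^ M j = b j ^ (M j + 1) := by rw [pow_succ']
    _ ≤ b j ^ n := pow_le_pow_right₀ (b_ge_one j) h

/-- all the other terms -/
lemma v_other {n j : ℕ} (h : n = 2 * M j ∨ n = 2 * M j + 1) :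
    ∑' i, (if i = j then 0 else v n i) ≤ b j / ((j : ℝ) + 1) + 1 := by
  have hj : (0 : ℝ) < (j : ℝ) + 1 := by positivity
  have hs : Summable (fun i : ℕ => (1 / 2 : ℝ) ^ (i + 3)) := by
    simp_rw [pow_add]
    exact (summable_geometric_of_lt_one (by norm_num) (by norm_num)).mul_right _
  have hle : ∀ i, (if i = j then 0 else v n i) ≤
      (if i ∈ Finset.range j then (b i) ^ (2 * M j + 1) else 0) + (1 / 2 : ℝ) ^ (i + 3) := by
    intro i
    rcases lt_trichotomy i j with hij | hij | hij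
    · rw [if_neg hij.ne, if_pos (Finset.mem_range.mpr hij)]
      have h1 : v n i ≤ b i ^ (2 * M j + 1) := by
        refine (v_le_pow n i).trans (pow_le_pow_right₀ (b_ge_one i) ?_)
        omega
      have : (0:ℝ) < (1 / 2) ^ (i + 3) := by positivity
      linarith
    · subst hij
      simp
    · rw [if_neg hij.ne', if_neg (by simp; omega)]
      have h1 : v n i ≤ (1 / 2) ^ (i + 3) := by
        apply v_small
        have := M_lt hij
        omega
      linarith
  have hs2 : Summable (fun i => (if i ∈ Finset.range j then (b i) ^ (2 * M j + 1) else 0)) :=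
    summable_of_ne_finset_zero (s := Finset.range j) (by
      intro i hi; rw [if_neg hi])
  have hs3 : Summable (fun i => (if i = j then 0 else v n i)) := by
    refine Summable.of_nonneg_of_le (fun i => ?_) hle (hs2.add hs)
    split_ifs
    · exact le_refl _
    · exact v_nonneg n i
  calc ∑' i, (if i = j then 0 else v n i)
      ≤ ∑' i, ((if i ∈ Finset.range j then (b i) ^ (2 * M j + 1) else 0)
          + (1 / 2 : ℝ) ^ (i + 3)) := Summable.tsum_le_tsum hle hs3 (hs2.add hs)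
    _ = ∑' i, (if i ∈ Finset.range j then (b i) ^ (2 * M j + 1) else 0)
          + ∑' i : ℕ, (1 / 2 : ℝ) ^ (i + 3) := hs2.tsum_add hs
    _ = ∑ i ∈ Finset.range j, (b i) ^ (2 * M j + 1) + 1 / 4 := by
        congr 1
        · rw [tsum_eq_sum (s := Finset.range j)]
          · apply Finset.sum_congr rfl
            intro i hi
            rw [if_pos hi]
          · intro i hi; rw [if_neg hi]
        · simp_rw [pow_add]
          rw [tsum_mul_right, tsum_geometric_of_lt_one (by norm_num) (by norm_num)]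
          norm_num
    _ ≤ b j / ((j : ℝ) + 1) + 1 := by
        have := b_ge_low j
        have h2 : ∑ i ∈ Finset.range j, (b i) ^ (2 * M j + 1) ≤ b j / ((j : ℝ) + 1) := by
          rw [le_div_iff₀ hj, mul_comm]; exact this
        linarith


/-- consecutive derivatives of the cosine do not vanish simultaneously -/
lemma cos_deriv_sq (n : ℕ) (t : ℝ) :
    iteratedDeriv n Real.cos t ^ 2 + iteratedDeriv (n + 1) Real.cos t ^ 2 = 1 ∧
    iteratedDeriv n Real.cos t ^ 2 + iteratedDeriv n Real.sin t ^ 2 = 1 := by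
  have key : ∀ n : ℕ, iteratedDeriv n Real.cos t ^ 2 + iteratedDeriv n Real.sin t ^ 2 = 1 := by
    intro n
    induction n with
    | zero => simp
    | succ n ih =>
      rw [Real.iteratedDeriv_add_one_cos, Real.iteratedDeriv_add_one_sin]
      simp only [Pi.neg_apply]
      linarith
  refine ⟨?_, key n⟩
  rw [Real.iteratedDeriv_add_one_cos]
  have := key n
  simp only [Pi.neg_apply]
  linarith

lemma cos_deriv_abs_le (n : ℕ) (t : ℝ) : |iteratedDeriv n Real.cos t| ≤ 1 := by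
  have := (cos_deriv_sq n t).2
  rw [← sq_le_one_iff_abs_le_one]
  nlinarith [sq_nonneg (iteratedDeriv n Real.sin t)]

lemma cos_deriv_large (n : ℕ) (t : ℝ) :
    1 / 2 ≤ |iteratedDeriv n Real.cos t| ∨ 1 / 2 ≤ |iteratedDeriv (n + 1) Real.cos t| := by
  by_contra hcon
  push Not at hcon
  have h := (cos_deriv_sq n t).1
  have h1 := hcon.1
  have h2 := hcon.2
  rw [← sq_abs (iteratedDeriv n Real.cos t), ← sq_abs (iteratedDeriv (n + 1) Real.cos t)] at h
  have a1 := abs_nonneg (iteratedDeriv n Real.cos t)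
  have a2 := abs_nonneg (iteratedDeriv (n + 1) Real.cos t)
  nlinarith

variable {𝕂 : Type*} [RCLike 𝕂]

/-- the fibres of `kap` are all infinite -/
def kap (j : ℕ) : ℕ := (Nat.unpair j).1

lemma kap_infinite (k K : ℕ) : ∃ j, K ≤ j ∧ kap j = k := by
  refine ⟨Nat.pair k K, Nat.right_le_pair k K, ?_⟩
  simp [kap]

/-- terms of the signature part -/
def term (c : ℕ → 𝕂) (j : ℕ) (x : ℝ) : 𝕂 := (v 0 j * Real.cos (b j * x)) • c (kap j)

lemma term_smooth (c : ℕ → 𝕂) (j : ℕ) : ContDiff ℝ (⊤ : ℕ∞) (term c j) := by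
  unfold term
  fun_prop

lemma term_deriv (c : ℕ → 𝕂) (j n : ℕ) (x : ℝ) :
    iteratedDeriv n (term c j) x = (v n j * iteratedDeriv n Real.cos (b j * x)) • c (kap j) := by
  unfold term
  have h1 : ContDiffAt ℝ n (fun x => v 0 j * Real.cos (b j * x)) x := by fun_prop
  rw [iteratedDeriv_smul_const h1]
  congr 1
  rw [iteratedDeriv_const_mul_field, iteratedDeriv_comp_const_mul (by fun_prop)]
  unfold v
  ring

lemma term_deriv_norm (c : ℕ → 𝕂) {C : ℝ} (hC : ∀ k, ‖c k‖ ≤ C) (j n : ℕ) (x : ℝ) :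
    ‖iteratedDeriv n (term c j) x‖ ≤ v n j * C := by
  rw [term_deriv, norm_smul, norm_mul, Real.norm_eq_abs, Real.norm_eq_abs, abs_of_nonneg (v_nonneg n j)]
  have h1 := cos_deriv_abs_le n (b j * x)
  have h2 := hC (kap j)
  have h3 := v_nonneg n j
  have h4 := norm_nonneg (c (kap j))
  calc v n j * |iteratedDeriv n Real.cos (b j * x)| * ‖c (kap j)‖
      ≤ v n j * 1 * C := by gcongr
    _ = v n j * C := by ring

/-- signature part -/
def G (c : ℕ → 𝕂) (x : ℝ) : 𝕂 := ∑' j, term c j x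

lemma G_smooth (c : ℕ → 𝕂) {C : ℝ} (hC : ∀ k, ‖c k‖ ≤ C) : ContDiff ℝ (⊤ : ℕ∞) (G c) := by
  unfold G
  refine contDiff_tsum (v := fun n j => v n j * C) (fun j => term_smooth c j)
    (fun n _ => (v_summable n).mul_right C) ?_
  intro n j x _
  rw [norm_iteratedFDeriv_eq_norm_iteratedDeriv]
  exact term_deriv_norm c hC j n x

lemma G_deriv_summable (c : ℕ → 𝕂) {C : ℝ} (hC : ∀ k, ‖c k‖ ≤ C) (n : ℕ) (x : ℝ) :
    Summable (fun j => iteratedDeriv n (term c j) x) :=
  ((v_summable n).mul_right C).of_norm_bounded (fun j => term_deriv_norm c hC j n x)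

lemma G_deriv (c : ℕ → 𝕂) {C : ℝ} (hC : ∀ k, ‖c k‖ ≤ C) (n : ℕ) (x : ℝ) :
    iteratedDeriv n (G c) x = ∑' j, iteratedDeriv n (term c j) x := by
  have h1 : iteratedFDeriv ℝ n (fun y => ∑' j, term c j y) x
      = ∑' j, iteratedFDeriv ℝ n (term c j) x := by
    refine iteratedFDeriv_tsum_apply (v := fun n j => v n j * C) (N := ⊤)
      (fun j => term_smooth c j)
      (fun n _ => (v_summable n).mul_right C) ?_ (by exact_mod_cast le_top) x
    intro n j x _
    rw [norm_iteratedFDeriv_eq_norm_iteratedDeriv]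
    exact term_deriv_norm c hC j n x
  have hs : Summable (fun j => iteratedFDeriv ℝ n (term c j) x) := by
    refine ((v_summable n).mul_right C).of_norm_bounded (fun j => ?_)
    rw [norm_iteratedFDeriv_eq_norm_iteratedDeriv]
    exact term_deriv_norm c hC j n x
  rw [iteratedDeriv_eq_iteratedFDeriv]
  have h2 : G c = (fun y => ∑' j, term c j y) := rfl
  rw [h2, h1]
  have h3 := (ContinuousMultilinearMap.apply ℝ (fun _ : Fin n => ℝ) 𝕂 (fun _ => (1:ℝ))).map_tsum hs
  simp only [ContinuousMultilinearMap.apply_apply] at h3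
  rw [h3]
  simp_rw [iteratedDeriv_eq_iteratedFDeriv]

lemma G_norm_le (c : ℕ → 𝕂) {C : ℝ} (hC : ∀ k, ‖c k‖ ≤ C) (x : ℝ) : ‖G c x‖ ≤ C / 4 := by
  have hC0 : 0 ≤ C := (norm_nonneg _).trans (hC 0)
  have h0 := G_deriv c hC 0 x
  simp only [iteratedDeriv_zero] at h0
  have h1 : ‖∑' j, term c j x‖ ≤ ∑' j, v 0 j * C := by
    refine tsum_of_norm_bounded ((v_summable 0).mul_right C).hasSum (fun j => ?_)
    have := term_deriv_norm c hC j 0 x
    simpa using this
  rw [h0]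
  refine h1.trans ?_
  rw [tsum_mul_right]
  have := v_zero_tsum
  nlinarith

/-- key estimate: the `j`-th term dominates -/
lemma G_key (c : ℕ → 𝕂) {C : ℝ} (hC : ∀ k, ‖c k‖ ≤ C) (n j : ℕ)
    (h : n = 2 * M j ∨ n = 2 * M j + 1) (x : ℝ) :
    v n j * |iteratedDeriv n Real.cos (b j * x)| * ‖c (kap j)‖
      - C * (b j / ((j : ℝ) + 1) + 1) ≤ ‖iteratedDeriv n (G c) x‖ := by
  have hC0 : 0 ≤ C := (norm_nonneg _).trans (hC 0)
  rw [G_deriv c hC]
  have hs := G_deriv_summable c hC n x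
  rw [hs.tsum_eq_add_tsum_ite j]
  have h1 : ‖∑' i, (if i = j then 0 else iteratedDeriv n (term c i) x)‖
      ≤ C * (b j / ((j : ℝ) + 1) + 1) := by
    have hs3 : Summable (fun i => (if i = j then 0 else v n i)) := by
      refine Summable.of_nonneg_of_le (fun i => ?_) (fun i => ?_) (v_summable n)
      · split_ifs
        · exact le_refl _
        · exact v_nonneg n i
      · split_ifs
        · exact v_nonneg n i
        · exact le_refl _
    have h2 : ‖∑' i, (if i = j then 0 else iteratedDeriv n (term c i) x)‖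
        ≤ ∑' i, C * (if i = j then 0 else v n i) := by
      refine tsum_of_norm_bounded (hs3.mul_left C).hasSum (fun i => ?_)
      split_ifs
      · simp
      · rw [mul_comm]; exact term_deriv_norm c hC i n x
    refine h2.trans ?_
    rw [tsum_mul_left]
    exact mul_le_mul_of_nonneg_left (v_other h) hC0
  have h3 : ‖iteratedDeriv n (term c j) x‖
      = v n j * |iteratedDeriv n Real.cos (b j * x)| * ‖c (kap j)‖ := by
    rw [term_deriv, norm_smul, norm_mul, Real.norm_eq_abs, Real.norm_eq_abs,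
      abs_of_nonneg (v_nonneg n j)]
  have h4 := norm_sub_norm_le (iteratedDeriv n (term c j) x)
    (-∑' i, (if i = j then 0 else iteratedDeriv n (term c i) x))
  rw [norm_neg, sub_neg_eq_add] at h4
  rw [h3] at h4
  linarith

end Pool.Agent.Helper70.PS
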