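import Pool.Agent.Helper70.PS1

open Set Topology Filter

noncomputable section

namespace Pool.Agent.Helper70.PS

variable {𝕂 : Type*} [RCLike 𝕂]

lemma phi_eq_zero {k : ℕ} {x : ℝ} (h : x ∉ Ioo ((1 / 2 : ℝ) ^ (k + 1)) ((1 / 2 : ℝ) ^ k)) :
    phi k x = 0 :=
  image_eq_zero_of_notMem_tsupport (fun hx => h (phi_tsupport k hx))

lemma phi_eq_zero_of_le {k : ℕ} {x : ℝ} (h : (1 / 2 : ℝ) ^ k ≤ x) : phi k x = 0 :=
  phi_eq_zero (fun hx => absurd hx.2 (not_lt.mpr h))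

lemma phi_eq_zero_of_ge {k : ℕ} {x : ℝ} (h : x ≤ (1 / 2 : ℝ) ^ (k + 1)) : phi k x = 0 :=
  phi_eq_zero (fun hx => absurd hx.1 (not_lt.mpr h))

lemma half_pow_anti {k l : ℕ} (h : k ≤ l) : (1 / 2 : ℝ) ^ l ≤ (1 / 2 : ℝ) ^ k :=
  pow_le_pow_of_le_one (by norm_num) (by norm_num) h

/-- bump part -/
def B (c : ℕ → 𝕂) (x : ℝ) : 𝕂 := ∑' k, phi k x • c k

lemma B_local (c : ℕ → 𝕂) {K : ℕ} {x : ℝ} (hx : (1 / 2 : ℝ) ^ (K + 1) < x) :
    B c x = ∑ k ∈ Finset.range (K + 1), phi k x • c k := by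
  unfold B
  apply tsum_eq_sum
  intro k hk
  rw [Finset.mem_range, not_lt] at hk
  rw [phi_eq_zero_of_le ((half_pow_anti hk).trans hx.le), zero_smul]

lemma B_summable (c : ℕ → 𝕂) (x : ℝ) : Summable (fun k => phi k x • c k) := by
  rcases le_or_gt x 0 with hx | hx
  · have : (fun k => phi k x • c k) = fun _ => 0 := by
      ext k
      rw [phi_eq_zero_of_ge (hx.trans (by positivity)), zero_smul]
    rw [this]
    exact summable_zero
  · obtain ⟨K, hK⟩ := exists_pow_lt_of_lt_one hx (by norm_num : (1 / 2 : ℝ) < 1)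
    apply summable_of_ne_finset_zero (s := Finset.range K)
    intro k hk
    rw [Finset.mem_range, not_lt] at hk
    rw [phi_eq_zero_of_le ((half_pow_anti hk).trans hK.le), zero_smul]

lemma B_eq_of_mem (c : ℕ → 𝕂) {k : ℕ} {x : ℝ}
    (h : x ∈ Ioo ((1 / 2 : ℝ) ^ (k + 1)) ((1 / 2 : ℝ) ^ k)) : B c x = phi k x • c k := by
  unfold B
  apply tsum_eq_single
  intro l hl
  rcases lt_or_gt_of_ne hl with h1 | h1
  · rw [phi_eq_zero_of_ge, zero_smul]
    exact h.2.le.trans (half_pow_anti h1)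
  · rw [phi_eq_zero_of_le, zero_smul]
    exact (half_pow_anti h1).trans h.1.le

lemma B_center (c : ℕ → 𝕂) (k : ℕ) : B c (3 / 4 * (1 / 2 : ℝ) ^ k) = c k := by
  have hp : (0 : ℝ) < (1 / 2) ^ k := by positivity
  rw [B_eq_of_mem (k := k), phi_center, one_smul]
  constructor
  · rw [pow_succ]; linarith
  · linarith

lemma B_norm_le (c : ℕ → 𝕂) {C : ℝ} (hC : ∀ k, ‖c k‖ ≤ C) (x : ℝ) : ‖B c x‖ ≤ C := by
  have hC0 : 0 ≤ C := (norm_nonneg _).trans (hC 0)
  by_cases h : ∃ k, x ∈ Ioo ((1 / 2 : ℝ) ^ (k + 1)) ((1 / 2 : ℝ) ^ k)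
  · obtain ⟨k, hk⟩ := h
    rw [B_eq_of_mem c hk, norm_smul, Real.norm_of_nonneg (phi_nonneg k x)]
    calc phi k x * ‖c k‖ ≤ 1 * C := by
          gcongr
          · exact phi_le_one k x
          · exact hC k
      _ = C := one_mul C
  · push Not at h
    have : B c x = 0 := by
      unfold B
      have : (fun k => phi k x • c k) = fun _ => 0 := by
        ext k
        rw [phi_eq_zero (h k), zero_smul]
      rw [this, tsum_zero]
    rw [this, norm_zero]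
    exact hC0

/-- the parametrisation -/
def Phi (c : ℕ → 𝕂) (x : ℝ) : 𝕂 := B c x + G c x

lemma term_summable (c : ℕ → 𝕂) {C : ℝ} (hC : ∀ k, ‖c k‖ ≤ C) (x : ℝ) :
    Summable (fun j => term c j x) := by
  simpa using G_deriv_summable c hC 0 x

lemma Phi_add (c c' : ℕ → 𝕂) {C C' : ℝ} (hC : ∀ k, ‖c k‖ ≤ C) (hC' : ∀ k, ‖c' k‖ ≤ C') (x : ℝ) :
    Phi (fun k => c k + c' k) x = Phi c x + Phi c' x := by
  have h1 : B (fun k => c k + c' k) x = B c x + B c' x := by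
    unfold B
    rw [← (B_summable c x).tsum_add (B_summable c' x)]
    simp only [smul_add]
  have h2 : G (fun k => c k + c' k) x = G c x + G c' x := by
    unfold G
    rw [← (term_summable c hC x).tsum_add (term_summable c' hC' x)]
    simp only [term, smul_add]
  unfold Phi
  rw [h1, h2]
  ring

lemma Phi_smul (a : 𝕂) (c : ℕ → 𝕂) (x : ℝ) :
    Phi (fun k => a * c k) x = a * Phi c x := by
  have h1 : B (fun k => a * c k) x = a * B c x := by
    unfold B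
    rw [← tsum_mul_left]
    congr 1
    ext k
    rw [mul_smul_comm]
  have h2 : G (fun k => a * c k) x = a * G c x := by
    unfold G
    rw [← tsum_mul_left]
    congr 1
    ext k
    simp only [term, mul_smul_comm]
  unfold Phi
  rw [h1, h2]
  ring

lemma Phi_norm_le (c : ℕ → 𝕂) {C : ℝ} (hC : ∀ k, ‖c k‖ ≤ C) (x : ℝ) : ‖Phi c x‖ ≤ 2 * C := by
  have hC0 : 0 ≤ C := (norm_nonneg _).trans (hC 0)
  have h1 := B_norm_le c hC x
  have h2 := G_norm_le c hC x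
  have h3 := norm_add_le (B c x) (G c x)
  unfold Phi
  linarith

lemma center_mem (k : ℕ) : 3 / 4 * (1 / 2 : ℝ) ^ k ∈ Icc (0 : ℝ) 1 := by
  have hp : (0 : ℝ) < (1 / 2) ^ k := by positivity
  have hp1 : (1 / 2 : ℝ) ^ k ≤ 1 := pow_le_one₀ (by norm_num) (by norm_num)
  constructor <;> linarith

/-- coefficients are controlled by the sup norm -/
lemma coeff_le (c : ℕ → 𝕂) {C e : ℝ} (hC : ∀ k, ‖c k‖ ≤ C)
    (h : ∀ x ∈ Icc (0 : ℝ) 1, ‖Phi c x‖ ≤ e) (k : ℕ) : ‖c k‖ ≤ 2 * e := by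
  have hbdd : BddAbove (range (fun k => ‖c k‖)) := ⟨C, by rintro _ ⟨k, rfl⟩; exact hC k⟩
  set s := ⨆ k, ‖c k‖ with hs
  have hs1 : ∀ k, ‖c k‖ ≤ s := fun k => le_ciSup hbdd k
  have he : 0 ≤ e := (norm_nonneg _).trans (h 0 (by simp))
  have hs2 : s ≤ e + s / 4 := by
    apply ciSup_le
    intro k
    have h1 := h _ (center_mem k)
    have h2 := G_norm_le c hs1 (3 / 4 * (1 / 2 : ℝ) ^ k)
    unfold Phi at h1
    rw [B_center] at h1
    have h3 : ‖c k‖ ≤ ‖c k + G c (3 / 4 * (1 / 2 : ℝ) ^ k)‖ + ‖G c (3 / 4 * (1 / 2 : ℝ) ^ k)‖ := by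
      have := norm_sub_le (c k + G c (3 / 4 * (1 / 2 : ℝ) ^ k)) (G c (3 / 4 * (1 / 2 : ℝ) ^ k))
      simpa using this
    linarith
  have := hs1 k
  linarith

/-- local form of `Phi` -/
lemma Phi_deriv_local (c : ℕ → 𝕂) {C : ℝ} (hC : ∀ k, ‖c k‖ ≤ C) (F : ℝ → 𝕂)
    (hF : ∀ y ∈ Icc (0 : ℝ) 1, F y = Phi c y) (n K : ℕ) {x : ℝ} (hx : x ∈ Icc (0 : ℝ) 1)
    (hxK : (1 / 2 : ℝ) ^ (K + 1) < x) :
    iteratedDerivWithin n F (Icc 0 1) x =
      (∑ k ∈ Finset.range (K + 1), iteratedDeriv n (phi k) x • c k) + iteratedDeriv n (G c) x := by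
  have hu : UniqueDiffOn ℝ (Icc (0 : ℝ) 1) := uniqueDiffOn_Icc one_pos
  have h1 : F =ᶠ[𝓝[Icc 0 1] x]
      (fun y => (∑ k ∈ Finset.range (K + 1), phi k y • c k) + G c y) := by
    have : ∀ᶠ y in 𝓝[Icc 0 1] x, (1 / 2 : ℝ) ^ (K + 1) < y :=
      nhdsWithin_le_nhds (lt_mem_nhds hxK)
    filter_upwards [this, self_mem_nhdsWithin] with y hy hyI
    rw [hF y hyI, Phi, B_local c hy]
  have h2 : F x = (∑ k ∈ Finset.range (K + 1), phi k x • c k) + G c x := by
    rw [hF x hx, Phi, B_local c hxK]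
  rw [h1.iteratedDerivWithin_eq h2]
  have hG := G_smooth c hC
  have hsum : ContDiff ℝ (⊤ : ℕ∞) (fun y => ∑ k ∈ Finset.range (K + 1), phi k y • c k) := by
    apply ContDiff.sum
    intro k _
    exact (phi_smooth k).smul contDiff_const
  have hnt : ((n : ℕ∞) : WithTop ℕ∞) ≤ ((⊤ : ℕ∞) : WithTop ℕ∞) := by exact_mod_cast le_top
  rw [iteratedDerivWithin_eq_iteratedDeriv hu (((hsum.add hG).of_le hnt).contDiffAt) hx]
  rw [iteratedDeriv_fun_add ((hsum.of_le hnt).contDiffAt) ((hG.of_le hnt).contDiffAt)]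
  congr 1
  rw [iteratedDeriv_fun_sum]
  · apply Finset.sum_congr rfl
    intro k _
    rw [iteratedDeriv_smul_const ((phi_smooth k).of_le hnt).contDiffAt]
  · intro k _
    exact (((phi_smooth k).smul contDiff_const).of_le hnt).contDiffAt

lemma phi_deriv_zero (k n K : ℕ) : iteratedDeriv n (phi k) ((1 / 2 : ℝ) ^ K) = 0 := by
  have h : (1 / 2 : ℝ) ^ K ∉ tsupport (phi k) := by
    intro hx
    have := phi_tsupport k hx
    have h1 := this.1
    have h2 := this.2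
    have a1 : K < k + 1 := by
      by_contra hcon
      push Not at hcon
      exact absurd h1 (not_lt.mpr (half_pow_anti hcon))
    have a2 : k < K := by
      by_contra hcon
      push Not at hcon
      exact absurd h2 (not_lt.mpr (half_pow_anti hcon))
    omega
  have h2 : iteratedFDeriv ℝ n (phi k) ((1 / 2 : ℝ) ^ K) = 0 := by
    by_contra hcon
    exact h (support_iteratedFDeriv_subset n (Function.mem_support.mpr hcon))
  rw [iteratedDeriv_eq_iteratedFDeriv, h2]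
  simp

lemma Phi_deriv_zero (c : ℕ → 𝕂) {C : ℝ} (hC : ∀ k, ‖c k‖ ≤ C) (F : ℝ → 𝕂)
    (hF : ∀ y ∈ Icc (0 : ℝ) 1, F y = Phi c y) (hFs : ContDiffOn ℝ (⊤ : ℕ∞) F (Icc 0 1)) (n : ℕ) :
    iteratedDerivWithin n F (Icc 0 1) 0 = iteratedDeriv n (G c) 0 := by
  have hu : UniqueDiffOn ℝ (Icc (0 : ℝ) 1) := uniqueDiffOn_Icc one_pos
  have hnt : ((n : ℕ∞) : WithTop ℕ∞) ≤ ((⊤ : ℕ∞) : WithTop ℕ∞) := by exact_mod_cast le_top
  have h1 : ContinuousOn (iteratedDerivWithin n F (Icc 0 1)) (Icc 0 1) :=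
    hFs.continuousOn_iteratedDerivWithin hnt hu
  have h2 : Continuous (iteratedDeriv n (G c)) := (G_smooth c hC).continuous_iteratedDeriv n hnt
  have hlim : Tendsto (fun k : ℕ => (1 / 2 : ℝ) ^ k) atTop (𝓝[Icc 0 1] 0) := by
    rw [tendsto_nhdsWithin_iff]
    refine ⟨tendsto_pow_atTop_nhds_zero_of_lt_one (by norm_num) (by norm_num), ?_⟩
    filter_upwards with k
    exact ⟨by positivity, pow_le_one₀ (by norm_num) (by norm_num)⟩
  have t1 := (h1 0 (by simp)).tendsto.comp hlim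
  have t2 := (h2.tendsto 0).comp (hlim.mono_right nhdsWithin_le_nhds)
  refine tendsto_nhds_unique t1 (t2.congr (fun k => ?_))
  simp only [Function.comp]
  rw [Phi_deriv_local c hC F hF n k (x := (1 / 2 : ℝ) ^ k)]
  · rw [Finset.sum_eq_zero, zero_add]
    intro l _
    rw [phi_deriv_zero, zero_smul]
  · exact ⟨by positivity, pow_le_one₀ (by norm_num) (by norm_num)⟩
  · rw [pow_succ]
    have hp : (0 : ℝ) < (1 / 2) ^ k := by positivity
    linarith

lemma Phi_deriv_lower (c : ℕ → 𝕂) {C : ℝ} (hC : ∀ k, ‖c k‖ ≤ C) (F : ℝ → 𝕂)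
    (hF : ∀ y ∈ Icc (0 : ℝ) 1, F y = Phi c y) (hFs : ContDiffOn ℝ (⊤ : ℕ∞) F (Icc 0 1))
    {x : ℝ} (hx : x ∈ Icc (0 : ℝ) 1) :
    ∃ K : ℕ, ∀ n, ‖iteratedDeriv n (G c) x‖ - C * ∑ k ∈ Finset.range (K + 1), S k n
      ≤ ‖iteratedDerivWithin n F (Icc 0 1) x‖ := by
  have hC0 : 0 ≤ C := (norm_nonneg _).trans (hC 0)
  rcases eq_or_lt_of_le hx.1 with h0 | h0
  · refine ⟨0, fun n => ?_⟩
    rw [← h0, Phi_deriv_zero c hC F hF hFs]
    have : 0 ≤ C * ∑ k ∈ Finset.range (0 + 1), S k n := by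
      apply mul_nonneg hC0
      exact Finset.sum_nonneg (fun k _ => S_nonneg k n)
    linarith
  · obtain ⟨K, hK⟩ := exists_pow_lt_of_lt_one h0 (by norm_num : (1 / 2 : ℝ) < 1)
    refine ⟨K, fun n => ?_⟩
    rw [Phi_deriv_local c hC F hF n K hx ((half_pow_anti (Nat.le_succ K)).trans_lt hK)]
    have h1 : ‖∑ k ∈ Finset.range (K + 1), iteratedDeriv n (phi k) x • c k‖
        ≤ C * ∑ k ∈ Finset.range (K + 1), S k n := by
      rw [Finset.mul_sum]
      refine (norm_sum_le _ _).trans (Finset.sum_le_sum (fun k _ => ?_))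
      rw [norm_smul, mul_comm]
      have := S_bound k n x
      have h2 := hC k
      rw [Real.norm_eq_abs]
      gcongr
    have h2 := norm_sub_norm_le (iteratedDeriv n (G c) x)
      (-∑ k ∈ Finset.range (K + 1), iteratedDeriv n (phi k) x • c k)
    rw [norm_neg, sub_neg_eq_add, add_comm (iteratedDeriv n (G c) x)] at h2
    linarith

/-- the derivatives of a nonzero element grow faster than `n! R ^ n` at every point -/
lemma growth (c : ℕ → 𝕂) {C : ℝ} (hC : ∀ k, ‖c k‖ ≤ C) (F : ℝ → 𝕂)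
    (hF : ∀ y ∈ Icc (0 : ℝ) 1, F y = Phi c y) (hFs : ContDiffOn ℝ (⊤ : ℕ∞) F (Icc 0 1))
    {x : ℝ} (hx : x ∈ Icc (0 : ℝ) 1) {k0 : ℕ} (hk : c k0 ≠ 0) (r : ℝ) (hr : 0 < r) (R : ℝ) :
    ∃ n : ℕ, R < ‖iteratedDerivWithin n F (Icc 0 1) x‖ / (n.factorial : ℝ) * r ^ n := by
  have hC0 : 0 ≤ C := (norm_nonneg _).trans (hC 0)
  obtain ⟨K, hK⟩ := Phi_deriv_lower c hC F hF hFs hx
  set d := ‖c k0‖ with hd
  have hdpos : 0 < d := norm_pos_iff.mpr hk
  obtain ⟨J1, hJ1⟩ := exists_nat_gt (12 * C / d)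
  obtain ⟨J2, hJ2⟩ := exists_nat_gt (1 / r)
  obtain ⟨J3, hJ3⟩ := exists_nat_gt (4 * R / d)
  obtain ⟨j, hj, hjk⟩ := kap_infinite k0 (K + J1 + J2 + J3)
  have hj0 : (0 : ℝ) < (j : ℝ) + 1 := by positivity
  have hKj : K ≤ j := by omega
  have hj1 : 12 * C / d < (j : ℝ) + 1 := by
    have : (J1 : ℝ) ≤ j := by exact_mod_cast (by omega : J1 ≤ j)
    linarith
  have hj2 : 1 / r < (j : ℝ) + 1 := by
    have : (J2 : ℝ) ≤ j := by exact_mod_cast (by omega : J2 ≤ j)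
    linarith
  have hj3 : 4 * R / d < (j : ℝ) + 1 := by
    have : (J3 : ℝ) ≤ j := by exact_mod_cast (by omega : J3 ≤ j)
    linarith
  -- choose the order
  obtain ⟨n, hn, hcos⟩ : ∃ n, (n = 2 * M j ∨ n = 2 * M j + 1) ∧
      1 / 2 ≤ |iteratedDeriv n Real.cos (b j * x)| := by
    rcases cos_deriv_large (2 * M j) (b j * x) with h | h
    · exact ⟨2 * M j, Or.inl rfl, h⟩
    · exact ⟨2 * M j + 1, Or.inr rfl, h⟩
  refine ⟨n, ?_⟩
  have h1 := hK n
  have h2 := G_key c hC n j hn x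
  rw [hjk] at h2
  set A := v n j with hA
  have hbA : b j ≤ A := v_main (by have := M_pos j; omega)
  have hbpos := b_pos j
  have hA0 : 0 < A := hbpos.trans_le hbA
  -- bump part
  have h3 : ∑ k ∈ Finset.range (K + 1), S k n ≤ b j / ((j : ℝ) + 1) := by
    have e1 : ∑ k ∈ Finset.range (K + 1), S k n
        ≤ ∑ k ∈ Finset.range (j + 1), (S k (2 * M j) + S k (2 * M j + 1)) := by
      calc ∑ k ∈ Finset.range (K + 1), S k n
          ≤ ∑ k ∈ Finset.range (j + 1), S k n := by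
            apply Finset.sum_le_sum_of_subset_of_nonneg
            · exact Finset.range_mono (by omega)
            · intro k _ _; exact S_nonneg k n
        _ ≤ _ := by
            apply Finset.sum_le_sum
            intro k _
            rcases hn with rfl | rfl
            · have := S_nonneg k (2 * M j + 1); linarith
            · have := S_nonneg k (2 * M j); linarith
    refine e1.trans ?_
    rw [le_div_iff₀ hj0, mul_comm]
    exact b_ge_S j
  have h4 : (1 : ℝ) ≤ b j / ((j : ℝ) + 1) := by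
    rw [le_div_iff₀ hj0, one_mul]
    have e1 := b_ge_two_pow j
    have e2 : (j : ℝ) + 1 ≤ 2 ^ (j + 3) := by
      have : j + 1 ≤ 2 ^ (j + 3) := by
        have := (Nat.lt_two_pow_self (n := j + 3)); omega
      exact_mod_cast this
    linarith
  have h5 : b j / ((j : ℝ) + 1) ≤ A / ((j : ℝ) + 1) := by gcongr
  have h6 : 3 * C * (A / ((j : ℝ) + 1)) ≤ A * d / 4 := by
    rw [div_lt_iff₀ hdpos] at hj1
    rw [mul_div_assoc', div_le_iff₀ hj0]
    nlinarith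
  have h7 : A * (1 / 2) * d ≤ A * |iteratedDeriv n Real.cos (b j * x)| * ‖c k0‖ := by
    rw [← hd]; gcongr
  have h8 : A * d / 4 ≤ ‖iteratedDerivWithin n F (Icc 0 1) x‖ := by
    have e1 : C * ∑ k ∈ Finset.range (K + 1), S k n ≤ C * (b j / ((j : ℝ) + 1)) :=
      mul_le_mul_of_nonneg_left h3 hC0
    have e2 : C * 1 ≤ C * (b j / ((j : ℝ) + 1)) := mul_le_mul_of_nonneg_left h4 hC0
    have e3 : C * (b j / ((j : ℝ) + 1)) ≤ C * (A / ((j : ℝ) + 1)) :=
      mul_le_mul_of_nonneg_left h5 hC0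
    have e4 : C * (b j / ((j : ℝ) + 1) + 1) = C * (b j / ((j : ℝ) + 1)) + C * 1 := by ring
    nlinarith
  -- growth
  have h9 : ((j : ℝ) + 1) * ((n.factorial : ℝ) * ((j : ℝ) + 1) ^ n) ≤ A := by
    refine le_trans ?_ ((b_ge_fact j).trans hbA)
    have e1 : (n.factorial : ℝ) ≤ ((2 * M j + 1).factorial : ℝ) := by
      exact_mod_cast Nat.factorial_le (by omega)
    have e2 : ((j : ℝ) + 1) ^ n ≤ ((j : ℝ) + 1) ^ (2 * M j + 1) :=
      pow_le_pow_right₀ (by linarith [(Nat.cast_nonneg j : (0:ℝ) ≤ j)]) (by omega)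
    gcongr
  have hnf : (0 : ℝ) < (n.factorial : ℝ) := by exact_mod_cast Nat.factorial_pos n
  have h10 : (1 : ℝ) ≤ (((j : ℝ) + 1) * r) ^ n := by
    apply one_le_pow₀
    rw [div_lt_iff₀ hr] at hj2
    linarith
  calc R < ((j : ℝ) + 1) * d / 4 := by
        rw [div_lt_iff₀ hdpos] at hj3
        linarith
    _ ≤ ((j : ℝ) + 1) * d / 4 * (((j : ℝ) + 1) * r) ^ n := by
        apply le_mul_of_one_le_right (by positivity) h10
    _ = (((j : ℝ) + 1) * ((n.factorial : ℝ) * ((j : ℝ) + 1) ^ n)) * d / 4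
          / (n.factorial : ℝ) * r ^ n := by
        rw [mul_pow]; field_simp
    _ ≤ A * d / 4 / (n.factorial : ℝ) * r ^ n := by gcongr
    _ ≤ ‖iteratedDerivWithin n F (Icc 0 1) x‖ / (n.factorial : ℝ) * r ^ n := by gcongr

end Pool.Agent.Helper70.PS
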